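import Pool.Agent.Lib.MP_a57f33_nt.Ops

/-!
Facts about coefficients of Lie elements and about the dual.
-/

namespace Pool.Agent.MP_a57f33_nt

attribute [local instance 100] LieRing.ofAssociativeRing

lemma ins_conv (a : Bool) (w : List Bool) : ∀ f g : List Bool → ℚ,
    ins a w (fun t => conv t f g) =
      conv w (fun t => ins a t f) g + conv w f (fun t => ins a t g) := by
  induction w with
  | nil => intro f g; simp only [ins, conv]; ring
  | cons b w ih =>
    intro f g
    simp only [ins, conv]
    rw [ins_add, ih, conv_add_left, ins_mul]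
    ring

/-- Induction principle for Lie elements. -/
lemma lie_induction {P : QX → Prop} (hι : ∀ b, P (FreeAlgebra.ι ℚ b)) (h0 : P 0)
    (hadd : ∀ x y, P x → P y → P (x + y)) (hsmul : ∀ (r : ℚ) x, P x → P (r • x))
    (hlie : ∀ x y, x ∈ LieX → y ∈ LieX → P x → P y → P (x * y - y * x)) {ψ : QX}
    (h : ψ ∈ LieX) : P ψ := by
  unfold LieX at h
  induction h using LieSubalgebra.lieSpan_induction with
  | mem x hx =>
    obtain ⟨b, rfl⟩ := hx
    exact hι b
  | zero => exact h0
  | add x y _ _ hx hy => exact hadd x y hx hy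
  | smul r x _ hx => exact hsmul r x hx
  | lie x y h1 h2 hx hy => exact hlie x y h1 h2 hx hy

lemma lie_ins {ψ : QX} (h : ψ ∈ LieX) :
    coeff ψ [] = 0 ∧ ∀ a w, w ≠ [] → ins a w (coeff ψ) = 0 := by
  refine lie_induction (P := fun ψ => coeff ψ [] = 0 ∧
    ∀ a w, w ≠ [] → ins a w (coeff ψ) = 0) ?_ ?_ ?_ ?_ ?_ h
  · intro b
    refine ⟨by simp [coeff_iota], fun a w hw => ?_⟩
    apply ins_eq_zero
    intro p q hpq
    rw [coeff_iota]
    have : p ++ a :: q ≠ [b] := by
      intro e
      have h1 := congrArg List.length e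
      have h2 := congrArg List.length hpq
      simp at h1 h2
      apply hw
      have : w.length = 0 := by omega
      exact List.length_eq_zero_iff.mp this
    simp [this]
  · refine ⟨coeff_zero _, fun a w hw => ?_⟩
    have : coeff (0 : QX) = fun _ => 0 := by funext t; exact coeff_zero _
    rw [this, ins_zero]
  · intro x y hx hy
    refine ⟨by rw [coeff_add, hx.1, hy.1]; ring, fun a w hw => ?_⟩
    have : coeff (x + y) = fun t => coeff x t + coeff y t := by funext t; exact coeff_add _ _ _
    rw [this, ins_add, hx.2 a w hw, hy.2 a w hw]; ring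
  · intro r x hx
    refine ⟨by rw [coeff_smul, hx.1]; ring, fun a w hw => ?_⟩
    have : coeff (r • x) = fun t => r * coeff x t := by funext t; exact coeff_smul _ _ _
    rw [this, ins_mul, hx.2 a w hw]; ring
  · intro x y _ _ hx hy
    refine ⟨?_, fun a w hw => ?_⟩
    · rw [coeff_sub, coeff_mul, coeff_mul]
      simp only [conv, hx.1, hy.1]; ring
    · have e : coeff (x * y - y * x) =
          fun t => conv t (coeff x) (coeff y) + (-1) * conv t (coeff y) (coeff x) := by
        funext t; rw [coeff_sub, coeff_mul, coeff_mul]; ring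
      rw [e, ins_add, ins_mul, ins_conv, ins_conv]
      have dx : ∀ a, (∀ t, t ≠ [] → (fun t => ins a t (coeff x)) t = 0) := fun a t ht =>
        hx.2 a t ht
      have dy : ∀ a, (∀ t, t ≠ [] → (fun t => ins a t (coeff y)) t = 0) := fun a t ht =>
        hy.2 a t ht
      rw [conv_delta_left w (coeff x [a]) _ (coeff y) rfl (dx a),
        conv_delta_left w (coeff y [a]) _ (coeff x) rfl (dy a),
        conv_delta_right w (coeff x [a]) (coeff y) _ rfl (dx a),
        conv_delta_right w (coeff y [a]) (coeff x) _ rfl (dy a)]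
      ring

/-- The anti-homomorphism with given values on letters. -/
noncomputable def anti (g : Bool → QX) : QX →ₗ[ℚ] QX :=
  (MulOpposite.opLinearEquiv ℚ).symm.toLinearMap.comp
    (FreeAlgebra.lift ℚ (fun b : Bool => MulOpposite.op (g b))).toLinearMap

lemma anti_apply (g : Bool → QX) (ψ : QX) :
    anti g ψ = (FreeAlgebra.lift ℚ (fun b : Bool => MulOpposite.op (g b)) ψ).unop := rfl

lemma dual_eq_anti (ψ : QX) : dual ψ = anti (fun b => FreeAlgebra.ι ℚ (!b)) ψ := rfl

lemma anti_mul (g : Bool → QX) (x y : QX) : anti g (x * y) = anti g y * anti g x := by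
  simp [anti_apply]

lemma anti_one (g : Bool → QX) : anti g 1 = 1 := by
  simp [anti_apply]

lemma anti_iota (g : Bool → QX) (b : Bool) : anti g (FreeAlgebra.ι ℚ b) = g b := by
  simp [anti_apply]

lemma anti_word (s : ℚ) (π : Bool → Bool) (w : List Bool) :
    anti (fun b => s • FreeAlgebra.ι ℚ (π b)) (word w) =
      s ^ w.length • word ((w.map π).reverse) := by
  induction w with
  | nil => simp [anti_one]
  | cons a w ih =>
    rw [word_cons, anti_mul, anti_iota, ih]
    simp only [List.map_cons, List.reverse_cons, word_append, List.length_cons]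
    simp [pow_succ, smul_smul, mul_comm]

lemma coeff_anti (s : ℚ) (π : Bool → Bool) (hπ : ∀ b, π (π b) = b) (ψ : QX) (w : List Bool) :
    coeff (anti (fun b => s • FreeAlgebra.ι ℚ (π b)) ψ) w =
      s ^ w.length * coeff ψ ((w.map π).reverse) := by
  have hinv : ∀ v : List Bool, (((v.map π).reverse).map π).reverse = v := by
    intro v
    have : π ∘ π = id := by funext b; exact hπ b
    simp [List.map_reverse, this]
  have key : (coeffL w).comp (anti (fun b => s • FreeAlgebra.ι ℚ (π b))) =
      s ^ w.length • coeffL ((w.map π).reverse) := by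
    apply linear_ext
    intro v
    simp only [LinearMap.comp_apply, LinearMap.smul_apply, coeffL_apply, anti_word, coeff_smul,
      coeff_word, smul_eq_mul]
    by_cases h : (v.map π).reverse = w
    · subst h
      rw [hinv]
      simp
    · have h' : ¬ v = (w.map π).reverse := by
        intro e
        apply h
        rw [e, hinv]
      simp [h, h']
  exact LinearMap.congr_fun key ψ

lemma coeff_dual (ψ : QX) (w : List Bool) : coeff (dual ψ) w = coeff ψ (dualWord w) := by
  have h := coeff_anti 1 not (by simp) ψ w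
  simp only [one_smul, one_pow, one_mul] at h
  exact h

lemma dual_mem_LieX {ψ : QX} (h : ψ ∈ LieX) : dual ψ ∈ LieX := by
  refine lie_induction (P := fun ψ => dual ψ ∈ LieX) ?_ ?_ ?_ ?_ ?_ h
  · intro b
    rw [dual_eq_anti, anti_iota]
    exact LieSubalgebra.subset_lieSpan ⟨!b, rfl⟩
  · rw [dual_eq_anti, map_zero]; exact zero_mem _
  · intro x y hx hy
    rw [dual_eq_anti, map_add]; exact add_mem hx hy
  · intro r x hx
    rw [dual_eq_anti, map_smul]; exact LieX.smul_mem r hx
  · intro x y _ _ hx hy
    rw [dual_eq_anti, map_sub, anti_mul, anti_mul]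
    exact LieX.lie_mem hy hx

/-- Reversal of words on Lie elements. -/
lemma lie_reverse {ψ : QX} (h : ψ ∈ LieX) (w : List Bool) :
    coeff ψ w.reverse = (-1) ^ (w.length + 1) * coeff ψ w := by
  have h1 : anti (fun b => (-1 : ℚ) • FreeAlgebra.ι ℚ (id b)) ψ = (-1 : ℚ) • ψ := by
    refine lie_induction (P := fun ψ =>
      anti (fun b => (-1 : ℚ) • FreeAlgebra.ι ℚ (id b)) ψ = (-1 : ℚ) • ψ) ?_ ?_ ?_ ?_ ?_ h
    · intro b
      rw [anti_iota]; rfl
    · simp
    · intro x y hx hy
      rw [map_add, hx, hy, smul_add]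
    · intro r x hx
      rw [map_smul, hx, smul_comm]
    · intro x y _ _ hx hy
      rw [map_sub, anti_mul, anti_mul, hx, hy]
      simp
  have h2 := coeff_anti (-1) id (by simp) ψ w
  rw [h1, coeff_smul] at h2
  simp only [List.map_id] at h2
  have h3 : ((-1 : ℚ) ^ w.length) * (-1) ^ w.length = 1 := by
    rw [← mul_pow]; simp
  calc coeff ψ w.reverse = ((-1 : ℚ) ^ w.length * (-1) ^ w.length) * coeff ψ w.reverse := by
        rw [h3, one_mul]
    _ = (-1 : ℚ) ^ w.length * ((-1) ^ w.length * coeff ψ w.reverse) := by ring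
    _ = (-1 : ℚ) ^ w.length * (-1 * coeff ψ w) := by rw [← h2]
    _ = _ := by ring

end Pool.Agent.MP_a57f33_nt
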