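import Pool.Agent.Lib.MP_a57f33_nt.Bridge
import Pool.Agent.Lib.MP_a57f33_nt.LieFacts

/-!
The antipode of the stuffle Hopf algebra and the relation it gives for the elements of `dm₀`.
-/

namespace Pool.Agent.MP_a57f33_nt

open TensorProduct

/-- The letter `x₀`. -/
noncomputable abbrev X0 : QX := FreeAlgebra.ι ℚ false

/-- The letter `x₁`. -/
noncomputable abbrev X1 : QX := FreeAlgebra.ι ℚ true

/-- The inclusion of `ℚ⟨Y⟩` in `ℚ⟨X⟩`. -/
noncomputable def inY : QY →ₐ[ℚ] QX :=
  FreeAlgebra.lift ℚ fun n : ℕ+ => X0 ^ ((n : ℕ) - 1) * X1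

/-- The stuffle antipode, as an anti-homomorphism from `ℚ⟨Y⟩` to `ℚ⟨X⟩`. -/
noncomputable def bet : QY →ₗ[ℚ] QX :=
  (MulOpposite.opLinearEquiv ℚ).symm.toLinearMap.comp
    (FreeAlgebra.lift ℚ (fun n : ℕ+ =>
      MulOpposite.op (-((X0 - X1) ^ ((n : ℕ) - 1) * X1)))).toLinearMap

lemma bet_apply (ψ : QY) :
    bet ψ = (FreeAlgebra.lift ℚ (fun n : ℕ+ =>
      MulOpposite.op (-((X0 - X1) ^ ((n : ℕ) - 1) * X1))) ψ).unop := rfl

lemma bet_mul (x y : QY) : bet (x * y) = bet y * bet x := by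
  simp [bet_apply]

lemma bet_one : bet 1 = 1 := by
  simp [bet_apply]

lemma bet_iota (n : ℕ+) :
    bet (FreeAlgebra.ι ℚ n) = -((X0 - X1) ^ ((n : ℕ) - 1) * X1) := by
  simp [bet_apply]

lemma inY_iota (n : ℕ+) : inY (FreeAlgebra.ι ℚ n) = X0 ^ ((n : ℕ) - 1) * X1 := by
  simp [inY]

lemma inY_yy (k : ℕ) : inY (yy (k + 1)) = X0 ^ k * X1 := by
  rw [yy, inY_iota]; simp

lemma bet_yy (k : ℕ) : bet (yy (k + 1)) = -((X0 - X1) ^ k * X1) := by
  rw [yy, bet_iota]; simp

/-- `Σ_{i+j=n} S(y_i) y_j = 0` for `n ≥ 1`. -/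
lemma antipode_letter (n : ℕ) :
    ∑ ij ∈ Finset.HasAntidiagonal.antidiagonal (n + 1), bet (yy ij.1) * inY (yy ij.2) = 0 := by
  have tele : ∀ k : ℕ, ∑ i ∈ Finset.range k, (X0 - X1) ^ i * X1 * X0 ^ (k - 1 - i) =
      X0 ^ k - (X0 - X1) ^ k := by
    intro k
    induction k with
    | zero => simp
    | succ k ih =>
      rw [Finset.sum_range_succ]
      have : ∑ i ∈ Finset.range k, (X0 - X1) ^ i * X1 * X0 ^ (k + 1 - 1 - i) =
          (∑ i ∈ Finset.range k, (X0 - X1) ^ i * X1 * X0 ^ (k - 1 - i)) * X0 := by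
        rw [Finset.sum_mul]
        apply Finset.sum_congr rfl
        intro i hi
        rw [Finset.mem_range] at hi
        rw [mul_assoc _ (X0 ^ _) X0, ← pow_succ]
        congr 2
        omega
      rw [this, ih]
      simp only [Nat.add_sub_cancel, Nat.sub_self, pow_zero, mul_one, pow_succ]
      noncomm_ring
  rw [Finset.Nat.sum_antidiagonal_eq_sum_range_succ (fun i j => bet (yy i) * inY (yy j)),
    Finset.sum_range_succ, Finset.sum_range_succ']
  have h1 : ∀ i ∈ Finset.range n, bet (yy (i + 1)) * inY (yy (n + 1 - (i + 1))) =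
      -((X0 - X1) ^ i * X1 * X0 ^ (n - 1 - i)) * X1 := by
    intro i hi
    rw [Finset.mem_range] at hi
    have : n + 1 - (i + 1) = (n - 1 - i) + 1 := by omega
    rw [this, bet_yy, inY_yy]
    noncomm_ring
  rw [Finset.sum_congr rfl h1, ← Finset.sum_mul, Finset.sum_neg_distrib, tele]
  have h2 : n + 1 - (n + 1) = 0 := by omega
  rw [h2, bet_yy, Nat.sub_zero, inY_yy]
  simp only [yy, bet_one, map_one]
  noncomm_ring

/-- The map `a ⊗ b ↦ S(a) b`. -/
noncomputable def mm : QY ⊗[ℚ] QY →ₗ[ℚ] QX :=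
  (LinearMap.mul' ℚ QX).comp (TensorProduct.map bet inY.toLinearMap)

lemma mm_tmul (a b : QY) : mm (a ⊗ₜ[ℚ] b) = bet a * inY b := by
  simp [mm]

lemma mm_letter (n : ℕ+) (T : QY ⊗[ℚ] QY) :
    mm (∑ ij ∈ Finset.HasAntidiagonal.antidiagonal (n : ℕ),
      (yy ij.1 ⊗ₜ[ℚ] yy ij.2) * T) = 0 := by
  induction T using TensorProduct.induction_on with
  | zero => simp
  | tmul c d =>
    rw [map_sum]
    have : ∀ ij : ℕ × ℕ, mm ((yy ij.1 ⊗ₜ[ℚ] yy ij.2) * (c ⊗ₜ[ℚ] d)) =
        bet c * (bet (yy ij.1) * inY (yy ij.2)) * inY d := by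
      intro ij
      rw [Algebra.TensorProduct.tmul_mul_tmul, mm_tmul, bet_mul, map_mul]
      noncomm_ring
    simp only [this]
    rw [← Finset.sum_mul, ← Finset.mul_sum]
    obtain ⟨k, hk⟩ : ∃ k : ℕ, (n : ℕ) = k + 1 := ⟨(n : ℕ) - 1, by have := n.pos; omega⟩
    rw [hk, antipode_letter]
    simp
  | add x y hx hy =>
    simp only [mul_add, Finset.sum_add_distrib, map_add, hx, hy, add_zero]

lemma mm_Delta (q : QY) : mm (Delta q) = coeff q [] • (1 : QX) := by
  have : mm.comp Delta.toLinearMap = (coeffL ([] : List ℕ+)).smulRight (1 : QX) := by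
    apply linear_ext
    intro w
    simp only [LinearMap.comp_apply, LinearMap.smulRight_apply, coeffL_apply,
      AlgHom.toLinearMap_apply]
    cases w with
    | nil =>
      have h1 : coeff (word ([] : List ℕ+)) [] = 1 := by rw [coeff_word]; simp
      rw [h1, word_nil, map_one, Algebra.TensorProduct.one_def, mm_tmul, bet_one, map_one]
      simp
    | cons n w =>
      rw [word_cons, Delta_iota_mul, mm_letter, coeff_iota_mul_nil]
      simp
  have h := LinearMap.congr_fun this q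
  simpa [coeffL_apply] using h

lemma primitive_antipode {p : QY} (hp : Delta p = p ⊗ₜ[ℚ] 1 + 1 ⊗ₜ[ℚ] p)
    (h0 : coeff p [] = 0) : bet p = -inY p := by
  have h := mm_Delta p
  rw [hp, map_add, mm_tmul, mm_tmul, bet_one, map_one, h0] at h
  simp only [mul_one, one_mul, zero_smul] at h
  exact eq_neg_of_add_eq_zero_left h

/-- The values of `A` on letters. -/
noncomputable def gA (b : Bool) : QX := if b then -X1 else X0 - X1

lemma bet_word (q : QY) : X1 * bet q = anti gA (inY q) * X1 := by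
  have : (LinearMap.mulLeft ℚ X1).comp bet =
      (LinearMap.mulRight ℚ X1).comp ((anti gA).comp inY.toLinearMap) := by
    apply linear_ext
    intro w
    simp only [LinearMap.comp_apply, LinearMap.mulLeft_apply, LinearMap.mulRight_apply,
      AlgHom.toLinearMap_apply]
    induction w with
    | nil => simp [bet_one, anti_one]
    | cons n w ih =>
      have hpow : ∀ k : ℕ, anti gA (X0 ^ k) = (X0 - X1) ^ k := by
        intro k
        induction k with
        | zero => simp [anti_one]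
        | succ k ih => rw [pow_succ', anti_mul, ih, anti_iota, pow_succ]; rfl
      rw [word_cons, bet_mul, ← mul_assoc, ih, bet_iota, map_mul, anti_mul, inY_iota, anti_mul,
        hpow, anti_iota]
      have : gA true = -X1 := rfl
      rw [this]
      noncomm_ring
  have h := LinearMap.congr_fun this q
  simpa using h

lemma antipode_X {p : QY} (hp : Delta p = p ⊗ₜ[ℚ] 1 + 1 ⊗ₜ[ℚ] p)
    (h0 : coeff p [] = 0) : anti gA (inY p) * X1 = -(X1 * inY p) := by
  rw [← bet_word, primitive_antipode hp h0]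
  simp

end Pool.Agent.MP_a57f33_nt
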