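import Pool.Agent.Lib.MP_a57f33_nt.DepthOne

/-!
Duality after summation over all but four letters.
-/

namespace Pool.Agent.MP_a57f33_nt

/-- Evaluation of `c` on a word in the letters `x₀` (`false`) and `t = x₀ + x₁` (`true`). -/
def tev : List Bool → (List Bool → ℚ) → ℚ
  | [], c => c []
  | false :: u, c => tev u (fun w => c (false :: w))
  | true :: u, c => tev u (fun w => c (false :: w)) + tev u (fun w => c (true :: w))

/-- Evaluation of `c` on a word in the letters `x₁` (`false`) and `t = x₀ + x₁` (`true`). -/
def xev : List Bool → (List Bool → ℚ) → ℚ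
  | [], c => c []
  | false :: u, c => xev u (fun w => c (true :: w))
  | true :: u, c => xev u (fun w => c (false :: w)) + xev u (fun w => c (true :: w))

lemma tev_add (u : List Bool) : ∀ c c' : List Bool → ℚ,
    tev u (fun w => c w + c' w) = tev u c + tev u c' := by
  induction u with
  | nil => intro c c'; simp [tev]
  | cons b u ih =>
    intro c c'
    cases b with
    | false => simp only [tev, ih]
    | true => simp only [tev, ih]; ring

lemma xev_add (u : List Bool) : ∀ c c' : List Bool → ℚ,
    xev u (fun w => c w + c' w) = xev u c + xev u c' := by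
  induction u with
  | nil => intro c c'; simp [xev]
  | cons b u ih =>
    intro c c'
    cases b with
    | false => simp only [xev, ih]
    | true => simp only [xev, ih]; ring

lemma tev_mul (u : List Bool) : ∀ (r : ℚ) (c : List Bool → ℚ),
    tev u (fun w => r * c w) = r * tev u c := by
  induction u with
  | nil => intro r c; simp [tev]
  | cons b u ih =>
    intro r c
    cases b with
    | false => simp only [tev, ih]
    | true => simp only [tev, ih]; ring

lemma tev_zero (u : List Bool) : tev u (fun _ => 0) = 0 := by
  have := tev_mul u 0 (fun _ => 0)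
  simpa using this

lemma tev_true (u : List Bool) (c : List Bool → ℚ) :
    tev (true :: u) c = tev u (fun w => c (false :: w) + c (true :: w)) := by
  rw [tev_add]; rfl

lemma xev_true (u : List Bool) (c : List Bool → ℚ) :
    xev (true :: u) c = xev u (fun w => c (false :: w) + c (true :: w)) := by
  rw [xev_add]; rfl

lemma tev_snoc_false (u : List Bool) : ∀ c : List Bool → ℚ,
    tev (u ++ [false]) c = tev u (fun w => c (w ++ [false])) := by
  induction u with
  | nil => intro c; simp [tev]
  | cons b u ih => intro c; cases b <;> simp [tev, ih]

lemma tev_snoc_true (u : List Bool) : ∀ c : List Bool → ℚ,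
    tev (u ++ [true]) c = tev u (fun w => c (w ++ [false]) + c (w ++ [true])) := by
  induction u with
  | nil => intro c; simp [tev]
  | cons b u ih => intro c; cases b <;> simp [tev, ih]

lemma xev_snoc_false (u : List Bool) : ∀ c : List Bool → ℚ,
    xev (u ++ [false]) c = xev u (fun w => c (w ++ [true])) := by
  induction u with
  | nil => intro c; simp [xev]
  | cons b u ih => intro c; cases b <;> simp [xev, ih]

lemma xev_snoc_true (u : List Bool) : ∀ c : List Bool → ℚ,
    xev (u ++ [true]) c = xev u (fun w => c (w ++ [false]) + c (w ++ [true])) := by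
  induction u with
  | nil => intro c; simp [xev]
  | cons b u ih => intro c; cases b <;> simp [xev, ih]

/-- Duality on words in `x₀` and `t`. -/
lemma tev_dual (u : List Bool) : ∀ c : List Bool → ℚ,
    tev u (fun w => c (dualWord w)) = xev u.reverse c := by
  induction u with
  | nil => intro c; simp [tev, xev]
  | cons b u ih =>
    intro c
    cases b with
    | false =>
      simp only [tev, List.reverse_cons, xev_snoc_false, dualWord_cons, Bool.not_false]
      exact ih (fun w => c (w ++ [true]))
    | true =>
      simp only [tev, List.reverse_cons, xev_snoc_true, dualWord_cons, Bool.not_false,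
        Bool.not_true]
      rw [ih (fun w => c (w ++ [true])), ih (fun w => c (w ++ [false])), xev_add]
      ring

/-- Passing from `x₁ = t - x₀` to `x₀`, to leading order. -/
lemma xev_leading (u : List Bool) : ∀ c : List Bool → ℚ,
    (∀ v : List Bool, v.count false < u.count false → tev v c = 0) →
    xev u c = (-1) ^ (u.count false) * tev u c := by
  induction u with
  | nil => intro c _; simp [xev, tev]
  | cons b u ih =>
    intro c h
    cases b with
    | false =>
      have h1 := ih (fun w => c (true :: w)) (by
        intro v hv
        have e1 := h (true :: v) (by simp; omega)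
        have e2 := h (false :: v) (by simp; omega)
        simp only [tev] at e1 e2
        linarith)
      have h2 := h (true :: u) (by simp)
      simp only [xev, tev, List.count_cons_self] at h1 h2 ⊢
      rw [h1]
      have h3 : tev u (fun w => c (true :: w)) = - tev u (fun w => c (false :: w)) := by linarith
      rw [h3, pow_succ]; ring
    | true =>
      rw [xev_true, tev_true]
      have hc : List.count false (true :: u) = List.count false u := by simp
      rw [hc]
      apply ih
      intro v hv
      rw [← tev_true]
      apply h
      simpa using hv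

lemma ins_false_tev (u : List Bool) : ∀ c : List Bool → ℚ,
    ins false u (fun s => tev s c) = tev u (fun w => ins false w c) := by
  induction u with
  | nil => intro c; simp [ins, tev]
  | cons b u ih =>
    intro c
    cases b with
    | false => simp only [ins, tev, ih]; rw [tev_add]
    | true => simp only [ins, tev]; rw [ins_add, ih, ih, tev_add, tev_add]; ring

lemma ins_true_tev (u : List Bool) : ∀ c : List Bool → ℚ,
    ins true u (fun s => tev s c) = tev u (fun w => ins false w c + ins true w c) := by
  induction u with
  | nil => intro c; simp [ins, tev]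
  | cons b u ih =>
    intro c
    cases b with
    | false =>
      simp only [ins, tev, ih]
      simp only [tev_add]; ring
    | true =>
      simp only [ins, tev]; rw [ins_add, ih, ih]
      simp only [tev_add]; ring

lemma aft_tev (u : List Bool) : ∀ c : List Bool → ℚ,
    aft true [true] u (fun s => tev s c) - aft true [false] u (fun s => tev s c) =
      tev u (fun w => aft true [true] w c + bef true [false] w c) := by
  induction u with
  | nil => intro c; simp [aft, bef, tev]
  | cons b u ih =>
    intro c
    have h1 := ih (fun w => c (false :: w))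
    have h2 := ih (fun w => c (true :: w))
    simp only [tev_add] at h1 h2
    cases b with
    | false =>
      simp only [aft, bef, tev]
      simp only [tev_add] at h1 ⊢
      simp [tev_zero]
      linarith
    | true =>
      simp only [aft, bef, tev]
      simp only [aft_add, tev_add] at h1 h2 ⊢
      simp [tev, tev_zero]
      linarith

lemma tev_RR (u : List Bool) (c : List Bool → ℚ) :
    tev (true :: u) c - tev (false :: u) c + aft true [true] u (fun s => tev s c) -
      aft true [false] u (fun s => tev s c) = tev u (fun w => RR 0 w c) := by
  have h := aft_tev u c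
  have h2 : (fun w => RR 0 w c) = fun w => c (true :: w) +
      (aft true [true] w c + bef true [false] w c) := by
    funext w; simp only [RR]; simp; ring
  rw [h2, tev_add, ← h]
  simp only [tev]; ring

lemma ins_eq_aft (a : Bool) (u : List Bool) : ∀ g : List Bool → ℚ,
    ins a u g = g (a :: u) + aft true [a] u g + aft false [a] u g := by
  induction u with
  | nil => intro g; simp [ins, aft]
  | cons b u ih =>
    intro g
    simp only [ins, aft, ih]
    cases b <;> simp <;> ring

/-- `t^m`. -/
abbrev ts (m : ℕ) : List Bool := List.replicate m true

lemma ins_block_true (m : ℕ) (w : List Bool) : ∀ f : List Bool → ℚ,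
    ins true (ts m ++ false :: w) f =
      (m + 1) * f (ts (m + 1) ++ false :: w) + ins true w (fun t => f (ts m ++ false :: t)) := by
  induction m with
  | zero => intro f; simp [ins, List.replicate_succ]
  | succ m ih =>
    intro f
    have h1 : ts (m + 1) ++ false :: w = true :: (ts m ++ false :: w) := by
      simp [List.replicate_succ]
    rw [h1, ins, ih]
    simp only [List.replicate_succ, List.cons_append]
    push_cast
    ring

lemma comm_aft_true (m : ℕ) (w : List Bool) : ∀ c : List Bool → ℚ,
    aft false (ts m ++ [false]) w (fun t => ins true t c) =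
      ins true w (fun t => aft false (ts m ++ [false]) t c) +
        (m + 1) * aft false (ts (m + 1) ++ [false]) w c := by
  induction w with
  | nil => intro c; simp [aft, ins]
  | cons d w ih =>
    intro c
    have e1 : ∀ t, ins true (d :: t) c = c (true :: d :: t) + ins true t (fun s => c (d :: s)) :=
      fun t => rfl
    rw [show ins true (d :: w) (fun t => aft false (ts m ++ [false]) t c) =
      aft false (ts m ++ [false]) (true :: d :: w) c +
        ins true w (fun t => aft false (ts m ++ [false]) (d :: t) c) from rfl]
    simp only [aft]
    rw [ins_add]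
    simp only [e1]
    rw [aft_add, ih]
    cases d with
    | true => simp [ins_zero]; ring
    | false =>
      simp only [if_true, List.append_assoc, List.cons_append, List.nil_append]
      rw [ins_block_true m w]
      simp
      ring

lemma aft_ins_true_zero {g : List Bool → ℚ} (hins : ∀ w, w ≠ [] → ins true w g = 0)
    (b : Bool) (v : List Bool) : ∀ w p : List Bool,
    aft b v w (fun t => ins true (p ++ t) g) = 0 := by
  intro w
  induction w with
  | nil => intro p; rfl
  | cons d w ih =>
    intro p
    simp only [aft]
    have e : (fun t => ins true (p ++ d :: t) g) =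
        fun t => ins true ((p ++ [d]) ++ t) g := by
      funext t; simp
    rw [e, ih]
    split_ifs
    · rw [hins _ (by simp)]; ring
    · ring

lemma tev_eq_zero (u : List Bool) : ∀ {F : List Bool → ℚ},
    (∀ w : List Bool, w.length = u.length → F w = 0) → tev u F = 0 := by
  induction u with
  | nil => intro F h; exact h [] rfl
  | cons b u ih =>
    intro F h
    have h1 : tev u (fun w => F (false :: w)) = 0 := ih (fun w hw => h _ (by simp [hw]))
    have h2 : tev u (fun w => F (true :: w)) = 0 := ih (fun w hw => h _ (by simp [hw]))
    cases b <;> simp [tev, h1, h2]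

/-- The inner derivation `x₁ ↦ [v, x₁]`. -/
lemma bef_sub_aft (w : List Bool) : ∀ c : List Bool → ℚ,
    bef true [false] w c - aft true [false] w c = c (false :: w) - c (w ++ [false]) := by
  induction w with
  | nil => intro c; simp [bef, aft]
  | cons d w ih =>
    intro c
    have h := ih (fun t => c (d :: t))
    simp only [bef, aft]
    cases d <;> simp at h ⊢ <;> linarith

lemma aft_true_eq_bef_true (w : List Bool) : ∀ c : List Bool → ℚ,
    aft true [true] w c = bef true [true] w c := by
  induction w with
  | nil => intro c; rfl
  | cons d w ih => intro c; simp only [aft, bef, ih]; cases d <;> simp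

lemma aft_rev (b : Bool) (v w : List Bool) : ∀ c : List Bool → ℚ,
    aft b v w (fun t => c t.reverse) = bef b v.reverse w.reverse c := by
  induction w with
  | nil => intro c; simp [bef, aft]
  | cons d w ih =>
    intro c
    have h1 := ih (fun t => c (t ++ [d]))
    simp only [aft, List.reverse_cons, List.reverse_append] at h1 ⊢
    rw [bef_snoc, h1]
    cases d <;> cases b <;> simp <;> ring

lemma bef_rev (b : Bool) (v w : List Bool) : ∀ c : List Bool → ℚ,
    bef b v w (fun t => c t.reverse) = aft b v.reverse w.reverse c := by
  induction w with
  | nil => intro c; simp [bef, aft]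
  | cons d w ih =>
    intro c
    have h1 := ih (fun t => c (t ++ [d]))
    simp only [bef, List.reverse_cons, List.reverse_append] at h1 ⊢
    rw [aft_snoc, h1]
    cases d <;> cases b <;> simp <;> ring

lemma aft_congr (b : Bool) (v w : List Bool) : ∀ {c c' : List Bool → ℚ},
    (∀ t : List Bool, t.length = w.length + v.length → c t = c' t) →
    aft b v w c = aft b v w c' := by
  induction w with
  | nil => intro c c' _; rfl
  | cons d w ih =>
    intro c c' h
    simp only [aft]
    rw [h (d :: (v ++ w)) (by simp; omega)]
    congr 1
    apply ih
    intro t ht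
    exact h _ (by simp; omega)

lemma bef_congr (b : Bool) (v w : List Bool) : ∀ {c c' : List Bool → ℚ},
    (∀ t : List Bool, t.length = w.length + v.length → c t = c' t) →
    bef b v w c = bef b v w c' := by
  induction w with
  | nil => intro c c' _; rfl
  | cons d w ih =>
    intro c c' h
    simp only [bef]
    rw [h (v ++ d :: w) (by simp; omega)]
    congr 1
    apply ih
    intro t ht
    exact h _ (by simp; omega)

lemma aft_count (b : Bool) (v u : List Bool) : ∀ {g : List Bool → ℚ},
    (∀ s : List Bool, s.count false = u.count false + v.count false → g s = 0) →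
    aft b v u g = 0 := by
  induction u with
  | nil => intro g _; rfl
  | cons d u ih =>
    intro g h
    simp only [aft]
    rw [h (d :: (v ++ u)) (by simp [List.count_cons]; omega), ih]
    · simp
    · intro s hs
      apply h
      simp only [List.count_cons]
      omega

lemma ins_count (u : List Bool) : ∀ {g : List Bool → ℚ},
    (∀ s : List Bool, s.count false = u.count false → g s = 0) →
    ins true u g = 0 := by
  induction u with
  | nil => intro g h; exact h _ (by simp)
  | cons d u ih =>
    intro g h
    simp only [ins]
    rw [h (true :: d :: u) (by simp [List.count_cons]), ih]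
    · simp
    · intro s hs
      apply h
      simp only [List.count_cons]
      omega

/-- The word `t^b x₀ t^{b₁} x₀ … x₀ t^{b_k}`. -/
def enc : ℕ → List ℕ → List Bool
  | b, [] => ts b
  | b, x :: l => ts b ++ false :: enc x l

lemma exists_enc (u : List Bool) : ∃ b l, u = enc b l ∧ l.length = u.count false := by
  induction u with
  | nil => exact ⟨0, [], rfl, rfl⟩
  | cons d u ih =>
    obtain ⟨b, l, rfl, hl⟩ := ih
    cases d with
    | false => exact ⟨0, b :: l, by simp [enc], by simp [hl]⟩
    | true =>
      refine ⟨b + 1, l, ?_, by simp [hl]⟩
      cases l <;> simp [enc, List.replicate_succ]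

lemma aft_ts (v : List Bool) (k : ℕ) (w : List Bool) : ∀ c : List Bool → ℚ,
    aft false v (ts k ++ w) c = aft false v w (fun t => c (ts k ++ t)) := by
  induction k with
  | zero => intro c; simp
  | succ k ih =>
    intro c
    simp only [List.replicate_succ, List.cons_append, aft]
    rw [ih]; simp

lemma aft_ts' (v : List Bool) (k : ℕ) (c : List Bool → ℚ) :
    aft false v (ts k) c = 0 := by
  have := aft_ts v k [] c
  simpa [aft] using this

lemma ins_tail_true (n : ℕ) : ∀ (f : List Bool → ℚ), ins true (ts n) f = (n + 1) * f (ts (n + 1)) := by
  induction n with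
  | zero => intro f; simp [ins]
  | succ n ih =>
    intro f
    have h0 : ts (n + 1) = true :: ts n := List.replicate_succ
    rw [h0, ins, ih]
    simp only [List.replicate_succ]
    push_cast
    ring

lemma count_ts (b : ℕ) : (ts b).count false = 0 := by
  rw [List.count_eq_zero]
  simp

lemma count_enc (l : List ℕ) : ∀ b, (enc b l).count false = l.length := by
  induction l with
  | nil => intro b; exact count_ts b
  | cons x l ih => intro b; simp only [enc, List.count_append, count_ts, List.count_cons, ih]; simp

lemma enc_succ (b : ℕ) (l : List ℕ) : enc (b + 1) l = true :: enc b l := by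
  cases l <;> simp [enc, List.replicate_succ]

lemma enc_append_succ (l : List ℕ) (z : ℕ) : ∀ b, enc b (l ++ [z + 1]) = enc b (l ++ [z]) ++ [true] := by
  induction l with
  | nil => intro b; simp [enc, List.replicate_succ']
  | cons x l ih => intro b; simp [enc, ih]

/-- The hypotheses satisfied by the coefficients of `ψ - τ(ψ)`. -/
structure Anti (c : List Bool → ℚ) : Prop where
  nil : c [] = 0
  x0 : c [false] = 0
  x1 : c [true] = 0
  ins : ∀ a w, w ≠ [] → ins a w c = 0
  rr : ∀ w, RR 0 w c = 0
  rev : ∀ w : List Bool, c w.reverse = (-1) ^ (w.length + 1) * c w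
  dual : ∀ w, c (dualWord w) = - c w

namespace Anti

variable {c : List Bool → ℚ} (H : Anti c)

include H

lemma g_ins_false (u : List Bool) (hu : u ≠ []) :
    MP_a57f33_nt.ins false u (fun s => tev s c) = 0 := by
  rw [ins_false_tev]
  apply tev_eq_zero
  intro w hw
  apply H.ins
  rintro rfl
  apply hu
  exact List.length_eq_zero_iff.mp hw.symm

lemma g_ins_true (u : List Bool) (hu : u ≠ []) :
    MP_a57f33_nt.ins true u (fun s => tev s c) = 0 := by
  rw [ins_true_tev]
  apply tev_eq_zero
  intro w hw
  have hne : w ≠ [] := by
    rintro rfl
    apply hu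
    exact List.length_eq_zero_iff.mp hw.symm
  rw [H.ins _ _ hne, H.ins _ _ hne]; ring

lemma rot_c (w : List Bool) : c (true :: w) + c (false :: w) = c (w ++ [true]) + c (w ++ [false]) := by
  have h1 := H.rr w
  have h2 := H.rr w.reverse
  have e0 : ∀ t : List Bool, t.length = w.length + 1 →
      c t.reverse = (-1) ^ w.length * c t := by
    intro t ht
    rw [H.rev, ht, pow_succ, pow_succ]; ring
  have e1 : c (true :: w.reverse) = (-1) ^ w.length * c (w ++ [true]) := by
    rw [← e0 _ (by simp)]; simp
  have e2 : aft true [true] w.reverse c = (-1) ^ w.length * bef true [true] w c := by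
    have h := bef_rev true [true] w c
    simp only [List.reverse_singleton] at h
    rw [← h, ← bef_mul]
    apply bef_congr
    intro t ht
    exact e0 t (by simpa using ht)
  have e3 : bef true [false] w.reverse c = (-1) ^ w.length * aft true [false] w c := by
    have h := aft_rev true [false] w c
    simp only [List.reverse_singleton] at h
    rw [← h, ← aft_mul]
    apply aft_congr
    intro t ht
    exact e0 t (by simpa using ht)
  simp only [RR, List.replicate_zero, List.nil_append, zero_add, List.replicate_one] at h1 h2
  rw [e1, e2, e3] at h2
  have h3 : (-1 : ℚ) ^ w.length ≠ 0 := pow_ne_zero _ (by norm_num)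
  have h4 : c (w ++ [true]) + bef true [true] w c + aft true [false] w c = 0 := by
    have : (-1 : ℚ) ^ w.length * (c (w ++ [true]) + bef true [true] w c +
        aft true [false] w c) = 0 := by rw [← h2]; ring
    exact (mul_eq_zero.mp this).resolve_left h3
  have h5 := bef_sub_aft w c
  rw [aft_true_eq_bef_true] at h1
  linarith

lemma rot (u : List Bool) : tev (true :: u) c = tev (u ++ [true]) c := by
  rw [tev_true, tev_snoc_true]
  congr 1
  funext w
  have := H.rot_c w
  linarith

/-- All words in `x₀, t` with fewer than `k` letters `x₀` evaluate to zero. -/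
def Low (c : List Bool → ℚ) (k : ℕ) : Prop := ∀ u : List Bool, u.count false < k → tev u c = 0

lemma lead_zero {k : ℕ} (hk : Low c k) (u : List Bool) (hu : u.count false < k) :
    aft false [false] u (fun s => tev s c) = 0 := by
  by_cases hne : u = []
  · subst hne; rfl
  have h1 := H.g_ins_false u hne
  have h2 := H.g_ins_true u hne
  rw [ins_eq_aft] at h1 h2
  have h3 := tev_RR u c
  have h4 : tev u (fun w => RR 0 w c) = 0 := tev_eq_zero u (fun w _ => H.rr w)
  rw [h4] at h3
  have h5 : aft false [true] u (fun s => tev s c) = 0 := by
    apply aft_count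
    intro s hs
    apply hk
    rw [hs]
    simpa using hu
  linarith

lemma lead_zero' {k : ℕ} (hk : Low c k) (f : ℕ) : ∀ (u : List Bool), u.count false < k →
    aft false (ts f ++ [false]) u (fun s => tev s c) = 0 := by
  induction f with
  | zero => intro u hu; exact H.lead_zero hk u hu
  | succ f ih =>
    intro u hu
    have h1 := comm_aft_true f u (fun s => tev s c)
    have h2 := aft_ins_true_zero (g := fun s => tev s c) (fun w hw => H.g_ins_true w hw)
      false (ts f ++ [false]) u []
    simp only [List.nil_append] at h2
    rw [h2] at h1
    have h3 : MP_a57f33_nt.ins true u (fun t => aft false (ts f ++ [false]) t (fun s => tev s c)) = 0 := by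
      apply ins_count
      intro s hs
      exact ih s (by rw [hs]; exact hu)
    rw [h3] at h1
    have h4 : ((f : ℚ) + 1) ≠ 0 := by positivity
    have h5 : ((f : ℚ) + 1) * aft false (ts (f + 1) ++ [false]) u (fun s => tev s c) = 0 := by
      linarith
    exact (mul_eq_zero.mp h5).resolve_left h4

lemma lead_dual {u : List Bool} (hk : Low c (u.count false)) :
    tev u c = (-1) ^ (u.count false + 1) * tev u.reverse c := by
  have h1 := tev_dual u c
  have h2 : (fun w => c (dualWord w)) = fun w => (-1) * c w := by
    funext w; rw [H.dual]; ring
  rw [h2, tev_mul, xev_leading] at h1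
  · rw [List.count_reverse] at h1
    rw [pow_succ]; linarith
  · intro v hv
    apply hk
    rwa [List.count_reverse] at hv

lemma rot_enc (l : List ℕ) (b : ℕ) : ∀ z, tev (enc b (l ++ [z])) c = tev (enc 0 (l ++ [b + z])) c := by
  induction b with
  | zero => intro z; simp
  | succ b ih =>
    intro z
    rw [enc_succ, H.rot, ← enc_append_succ, ih]
    congr 3
    rw [show b + (z + 1) = b + 1 + z by ring]

lemma rot_enc' (l : List ℕ) {b z b' z' : ℕ} (h : b + z = b' + z') :
    tev (enc b (l ++ [z])) c = tev (enc b' (l ++ [z'])) c := by
  rw [H.rot_enc l b z, H.rot_enc l b' z', h]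

lemma low_one : Low c 1 := by
  intro u hu
  obtain ⟨b, l, rfl, hl⟩ := exists_enc u
  have hl0 : l = [] := List.length_eq_zero_iff.mp (by omega)
  subst hl0
  simp only [enc]
  rcases b with _ | _ | b
  · simp [tev, H.nil]
  · simp [tev, H.x0, H.x1]
  · have h1 := H.g_ins_true (ts (b + 1)) (by simp [List.replicate_succ])
    rw [ins_tail_true] at h1
    have h2 : (((b + 1 : ℕ) : ℚ) + 1) ≠ 0 := by positivity
    exact (mul_eq_zero.mp h1).resolve_left h2

lemma low_two : Low c 2 := by
  intro u hu
  rcases Nat.lt_or_ge (u.count false) 1 with h | h
  · exact H.low_one u h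
  obtain ⟨b, l, rfl, hl⟩ := exists_enc u
  obtain ⟨z, rfl⟩ : ∃ z, l = [z] := List.length_eq_one_iff.mp (by omega)
  have key : ∀ b z, tev (enc (b + 1) [z]) c = 0 := by
    intro b z
    have h1 := H.g_ins_true (ts b ++ false :: ts z) (by simp)
    rw [ins_block_true, ins_tail_true] at h1
    have h2 : tev (ts b ++ false :: ts (z + 1)) c = tev (ts (b + 1) ++ false :: ts z) c := by
      have := H.rot_enc' [] (b := b) (z := z + 1) (b' := b + 1) (z' := z) (by ring)
      simpa [enc] using this
    rw [h2] at h1
    have h3 : ((b : ℚ) + 1 + (z + 1)) ≠ 0 := by positivity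
    have h4 : ((b : ℚ) + 1 + (z + 1)) * tev (ts (b + 1) ++ false :: ts z) c = 0 := by linarith
    have h5 := (mul_eq_zero.mp h4).resolve_left h3
    simpa [enc] using h5
  rcases b with _ | b
  · rcases z with _ | z
    · simp [enc, tev, H.x0]
    · have := H.rot_enc' [] (b := 0) (z := z + 1) (b' := 1) (z' := z) (by ring)
      simp only [List.nil_append] at this
      rw [this]
      exact key 0 z
  · exact key b z

lemma low_three : Low c 3 := by
  intro u hu
  rcases Nat.lt_or_ge (u.count false) 2 with h | h
  · exact H.low_two u h
  obtain ⟨b, l, rfl, hl⟩ := exists_enc u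
  obtain ⟨x, z, rfl⟩ : ∃ x z, l = [x, z] := List.length_eq_two.mp (by omega)
  have h1 := H.lead_zero' H.low_two x (ts b ++ false :: ts z) (by
    have := count_enc [z] b
    simp only [enc, List.length_cons, List.length_nil] at this
    omega)
  rw [aft_ts] at h1
  simp only [aft, if_true] at h1
  have h2 := aft_ts' (ts x ++ [false]) z (fun t => tev (ts b ++ false :: t) c)
  rw [h2] at h1
  simpa [enc] using h1

lemma low_four : Low c 4 := by
  intro u hu
  rcases Nat.lt_or_ge (u.count false) 3 with h | h
  · exact H.low_three u h
  obtain ⟨b, l, rfl, hl⟩ := exists_enc u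
  obtain ⟨x, y, z, rfl⟩ : ∃ x y z, l = [x, y, z] := List.length_eq_three.mp (by omega)
  have L : ∀ b f y z, tev (enc b [f, y, z]) c + tev (enc b [y, f, z]) c = 0 := by
    intro b f y z
    have h1 := H.lead_zero' H.low_three f (enc b [y, z]) (by rw [count_enc]; simp)
    simp only [enc] at h1
    rw [aft_ts] at h1
    simp only [aft, if_true] at h1
    rw [aft_ts] at h1
    simp only [aft, if_true] at h1
    have h2 := aft_ts' (ts f ++ [false]) z
      (fun t => tev (ts b ++ false :: (ts y ++ false :: t)) c)
    rw [h2] at h1
    simpa [enc] using h1
  have hlow : Low c ((enc b [x, y, z]).count false) := by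
    intro v hv
    exact H.low_three v (lt_of_lt_of_le hv (by omega))
  have h1 := H.lead_dual hlow
  have hc : (enc b [x, y, z]).count false = 3 := by omega
  have hr : (enc b [x, y, z]).reverse = enc z [y, x, b] := by
    simp [enc]
  rw [hc, hr] at h1
  have h2 : tev (enc z [y, x, b]) c = tev (enc b [y, x, z]) c := by
    have := H.rot_enc' [y, x] (b := z) (z := b) (b' := b) (z' := z) (by ring)
    simpa using this
  have h3 := L b x y z
  rw [h2] at h1
  norm_num at h1
  linarith

lemma low_five : Low c 5 := by
  intro u hu
  rcases Nat.lt_or_ge (u.count false) 4 with h | h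
  · exact H.low_four u h
  obtain ⟨b, l, rfl, hl⟩ := exists_enc u
  obtain ⟨w, x, y, z, rfl⟩ : ∃ w x y z, l = [w, x, y, z] := by
    rcases l with _ | ⟨w, _ | ⟨x, _ | ⟨y, _ | ⟨z, _ | ⟨r, l⟩⟩⟩⟩⟩ <;> simp at hl <;> first | omega | skip
    exact ⟨w, x, y, z, rfl⟩
  have L : ∀ b f x y z, tev (enc b [f, x, y, z]) c + tev (enc b [x, f, y, z]) c +
      tev (enc b [x, y, f, z]) c = 0 := by
    intro b f x y z
    have h1 := H.lead_zero' H.low_four f (enc b [x, y, z]) (by rw [count_enc]; simp)
    simp only [enc] at h1
    rw [aft_ts] at h1
    simp only [aft, if_true] at h1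
    rw [aft_ts] at h1
    simp only [aft, if_true] at h1
    rw [aft_ts] at h1
    simp only [aft, if_true] at h1
    have h2 := aft_ts' (ts f ++ [false]) z
      (fun t => tev (ts b ++ false :: (ts x ++ false :: (ts y ++ false :: t))) c)
    rw [h2] at h1
    simp [enc] at h1 ⊢
    linarith
  have hlow : Low c ((enc b [w, x, y, z]).count false) := by
    intro v hv
    exact H.low_four v (lt_of_lt_of_le hv (by omega))
  have h1 := H.lead_dual hlow
  have hc : (enc b [w, x, y, z]).count false = 4 := by omega
  have hr : (enc b [w, x, y, z]).reverse = enc z [y, x, w, b] := by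
    simp [enc]
  rw [hc, hr] at h1
  have h2 : tev (enc z [y, x, w, b]) c = tev (enc b [y, x, w, z]) c := by
    have := H.rot_enc' [y, x, w] (b := z) (z := b) (b' := b) (z' := z) (by ring)
    simpa using this
  have h3 := L b w x y z
  have h4 := L b y x w z
  rw [h2] at h1
  norm_num at h1
  linarith

end Anti

end Pool.Agent.MP_a57f33_nt
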