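import Pool.Agent.Lib.MP_a57f33_nt.Average

/-!
Duality after summation over all but four letters: the final form.
-/

namespace Pool.Agent.MP_a57f33_nt

lemma depth_one_zero {c : List Bool → ℚ} (hins : ∀ w, w ≠ [] → ins false w c = 0)
    (hal : ∀ n, al c n = 0) (a : ℕ) : ∀ m, c (zs m ++ true :: zs a) = 0 := by
  induction a with
  | zero => intro m; exact hal m
  | succ a ih =>
    intro m
    have h1 := hins (zs m ++ true :: zs a) (by simp)
    rw [ins_append_true, ins_tail, ins_tail] at h1
    rw [ih (m + 1)] at h1
    have h2 : ((a : ℚ) + 1) ≠ 0 := by positivity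
    have h3 : ((a : ℚ) + 1) * c (zs m ++ true :: zs (a + 1)) = 0 := by linarith
    exact (mul_eq_zero.mp h3).resolve_left h2

/-- Coefficients of `ψ - τ(ψ)`. -/
lemma anti_of_DS1 {ψ : QX} (h : ψ ∈ DS1) : Anti (coeff (ψ - dual ψ)) := by
  have hd := dual_mem_DS1 h
  have hL : ψ - dual ψ ∈ LieX := sub_mem h.1 hd.1
  have hc : coeff (ψ - dual ψ) = fun t => coeff ψ t - coeff (dual ψ) t := by
    funext t; exact coeff_sub _ _ _
  have hal1 : ∀ n, al (coeff (dual ψ)) n = al (coeff ψ) n := by
    intro n
    rcases n with _ | n
    · have e1 : al (coeff (dual ψ)) 0 = 0 := hd.2.2.1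
      have e2 : al (coeff ψ) 0 = 0 := h.2.2.1
      rw [e1, e2]
    · rw [← DS1_dual_depth_one h (n + 1) (by omega)]
      unfold al
      rw [coeff_dual]
      simp [dualWord]
  have hal : ∀ n, al (coeff (ψ - dual ψ)) n = 0 := by
    intro n
    have := hal1 n
    rw [hc]
    unfold al at this ⊢
    linarith
  have hins := (lie_ins hL).2
  refine ⟨(lie_ins hL).1, ?_, ?_, hins, ?_, ?_, ?_⟩
  · rw [coeff_sub, h.2.1, hd.2.1]; ring
  · rw [coeff_sub, h.2.2.1, hd.2.2.1]; ring
  · intro w
    by_cases hw : true ∈ w
    · rw [hc, RR_sub, DS1_RR h 0 w hw, DS1_RR hd 0 w hw]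
      unfold target
      rw [hal1]; ring
    · have e : w = zs w.length := by
        rw [List.eq_replicate_iff]
        refine ⟨rfl, fun b hb => ?_⟩
        cases b with
        | false => rfl
        | true => exact absurd hb hw
      rw [e, RR_zs]
      exact depth_one_zero (hins false) hal w.length 0
  · intro w; exact lie_reverse hL w
  · intro w
    rw [coeff_sub, coeff_sub, coeff_dual, coeff_dual, dualWord_dualWord]; ring

/-- Sum of `c` over the words matching a pattern (`none` matches both letters). -/
def pev : List (Option Bool) → (List Bool → ℚ) → ℚ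
  | [], c => c []
  | some b :: p, c => pev p (fun w => c (b :: w))
  | none :: p, c => pev p (fun w => c (false :: w)) + pev p (fun w => c (true :: w))

lemma pev_add (p : List (Option Bool)) : ∀ c c' : List Bool → ℚ,
    pev p (fun w => c w + c' w) = pev p c + pev p c' := by
  induction p with
  | nil => intro c c'; simp [pev]
  | cons b p ih =>
    intro c c'
    cases b with
    | none => simp only [pev, ih]; ring
    | some b => simp only [pev, ih]

/-- The number of prescribed letters of a pattern. -/
def nsome : List (Option Bool) → ℕ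
  | [] => 0
  | some _ :: p => nsome p + 1
  | none :: p => nsome p

lemma pev_zero (p : List (Option Bool)) : ∀ (k : ℕ) (c : List Bool → ℚ),
    (∀ u : List Bool, u.count false ≤ k → tev u c = 0) → nsome p ≤ k → pev p c = 0 := by
  induction p with
  | nil => intro k c h _; exact h [] (by simp)
  | cons b p ih =>
    intro k c h hk
    cases b with
    | none =>
      have e : pev (none :: p) c = pev p (fun w => c (false :: w) + c (true :: w)) := by
        rw [pev_add]; rfl
      rw [e]
      refine ih k _ (fun u hu => ?_) hk
      rw [← tev_true]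
      exact h _ (by simpa using hu)
    | some b =>
      simp only [nsome] at hk
      obtain ⟨k, rfl⟩ : ∃ k', k = k' + 1 := ⟨k - 1, by omega⟩
      simp only [pev]
      refine ih k _ (fun u hu => ?_) (by omega)
      have h1 := h (false :: u) (by simp; omega)
      have h2 := h (true :: u) (by simp; omega)
      simp only [tev] at h1 h2
      cases b with
      | false => exact h1
      | true => linarith

open Classical in
lemma pev_eq_sum (n : ℕ) : ∀ (q : Fin n → Option Bool) (c : List Bool → ℚ),
    ∑ w : Fin n → Bool, (if ∀ i b, q i = some b → w i = b then c (List.ofFn w) else 0) =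
      pev (List.ofFn q) c := by
  induction n with
  | zero =>
    intro q c
    simp [pev]
  | succ n ih =>
    intro q c
    rw [← (Fin.consEquiv (fun _ : Fin (n + 1) => Bool)).sum_comp, Fintype.sum_prod_type]
    simp only [Fin.consEquiv_apply, List.ofFn_succ, Fin.cons_zero, Fin.cons_succ, Fin.forall_fin_succ]
    rw [Fintype.sum_bool]
    have key : ∀ b : Bool, ∑ x : Fin n → Bool,
        (if (∀ b', q 0 = some b' → b = b') ∧ ∀ (i : Fin n) b', q i.succ = some b' → x i = b' then
          c (b :: List.ofFn x) else 0) =
        if (∀ b', q 0 = some b' → b = b') then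
          pev (List.ofFn fun i => q i.succ) (fun w => c (b :: w)) else 0 := by
      intro b
      rw [← ih]
      by_cases hb : ∀ b', q 0 = some b' → b = b'
      · rw [if_pos hb]
        apply Finset.sum_congr rfl
        intro x _
        simp only [and_iff_right hb]
      · rw [if_neg hb]
        apply Finset.sum_eq_zero
        intro x _
        rw [if_neg]
        rintro ⟨h1, _⟩
        exact hb h1
    rw [key, key]
    rcases hq : q 0 with _ | b
    · simp [pev]; ring
    · cases b <;> simp [pev]

open Classical in
lemma nsome_ofFn (n : ℕ) : ∀ (P : Finset (Fin n)) (a : Fin n → Bool),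
    nsome (List.ofFn fun i => if i ∈ P then some (a i) else none) = P.card := by
  induction n with
  | zero => intro P a; simp [nsome, Finset.eq_empty_of_isEmpty]
  | succ n ih =>
    intro P a
    rw [List.ofFn_succ]
    have h1 := ih (Finset.univ.filter fun i : Fin n => i.succ ∈ P) (fun i => a i.succ)
    have h1' : (fun i : Fin n => if i ∈ Finset.univ.filter (fun i : Fin n => i.succ ∈ P) then
        some (a i.succ) else none) = fun i => if i.succ ∈ P then some (a i.succ) else none := by
      funext i
      simp
    rw [h1'] at h1
    have h2 : P.card = (if (0 : Fin (n + 1)) ∈ P then 1 else 0) +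
        (Finset.univ.filter fun i : Fin n => i.succ ∈ P).card := by
      have : P = Finset.univ.filter (fun i => i ∈ P) := by ext; simp
      conv_lhs => rw [this]
      rw [Fin.card_filter_univ_succ]
      by_cases h0 : (0 : Fin (n + 1)) ∈ P
      · rw [if_pos h0, if_pos h0, add_comm]
      · rw [if_neg h0, if_neg h0, zero_add]
    by_cases h0 : (0 : Fin (n + 1)) ∈ P
    · rw [if_pos h0] at h2
      rw [if_pos h0, nsome, h1, h2]; ring
    · rw [if_neg h0] at h2
      rw [if_neg h0, nsome, h1, h2]; ring

/-- Duality holds after summation over all letters except at most four prescribed ones. -/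
theorem average_duality {ψ : QX} (h : ψ ∈ DS1) (N : ℕ) (P : Finset (Fin N)) (hP : P.card ≤ 4)
    (a : Fin N → Bool) :
    ∑ w : Fin N → Bool with ∀ i ∈ P, w i = a i, coeff ψ (List.ofFn w) =
      ∑ w : Fin N → Bool with ∀ i ∈ P, w i = a i, coeff ψ (dualWord (List.ofFn w)) := by
  classical
  have H := anti_of_DS1 h
  rw [← sub_eq_zero, ← Finset.sum_sub_distrib, Finset.sum_filter]
  have h1 := pev_eq_sum N (fun i => if i ∈ P then some (a i) else none) (coeff (ψ - dual ψ))
  rw [pev_zero _ 4 _ (fun u hu => H.low_five u (by omega)) (by rw [nsome_ofFn]; exact hP)] at h1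
  refine Eq.trans ?_ h1
  apply Finset.sum_congr rfl
  intro w _
  have h2 : (∀ i ∈ P, w i = a i) ↔
      ∀ i b, (if i ∈ P then some (a i) else none) = some b → w i = b := by
    constructor
    · intro h i b hb
      by_cases hi : i ∈ P
      · simp only [hi, if_true, Option.some.injEq] at hb
        rw [h i hi, hb]
      · simp [hi] at hb
    · intro h i hi
      exact h i (a i) (by simp [hi])
  simp only [h2]
  rw [coeff_sub, coeff_dual]

end Pool.Agent.MP_a57f33_nt
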