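import Pool.Agent.Lib.MP_a57f33_nt.Coeff

/-!
Primitive elements for the stuffle coproduct satisfy the stuffle relations.
-/

namespace Pool.Agent.MP_a57f33_nt

open TensorProduct

/-- The stuffle product of two words in the letters `y_n`, as the list (with multiplicity) of
the words that occur in it. -/
def stuffle : List ℕ+ → List ℕ+ → List (List ℕ+)
  | [], v => [v]
  | u, [] => [u]
  | a :: u, b :: v =>
    (stuffle u (b :: v)).map (a :: ·) ++ (stuffle (a :: u) v).map (b :: ·) ++
      (stuffle u v).map ((a + b) :: ·)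
termination_by u v => u.length + v.length

lemma stuffle_one_sum (n : ℕ+) (u : List ℕ+) : ∀ f : List ℕ+ → ℚ,
    ((stuffleOne n u).map f).sum = ((stuffle [n] u).map f).sum := by
  induction u with
  | nil => intro f; simp [stuffleOne, stuffle]
  | cons b v ih =>
    intro f
    rw [stuffleOne, stuffle]
    simp only [List.map_cons, List.sum_cons, List.map_append, List.sum_append, List.map_map,
      stuffle, List.map_nil, List.sum_nil]
    rw [ih]
    simp only [add_zero]
    ring

/-- The coefficient of `u ⊗ v`. -/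
noncomputable def cc (u v : List ℕ+) : QY ⊗[ℚ] QY →ₗ[ℚ] ℚ :=
  (LinearMap.mul' ℚ ℚ).comp (TensorProduct.map (coeffL u) (coeffL v))

lemma cc_tmul (u v : List ℕ+) (a b : QY) : cc u v (a ⊗ₜ[ℚ] b) = coeff a u * coeff b v := by
  simp [cc, coeffL_apply]

lemma coeff_yy_zero (q : QY) (u : List ℕ+) : coeff (yy 0 * q) u = coeff q u := by
  simp [yy]

lemma coeff_yy_nil (i : ℕ) (hi : i ≠ 0) (q : QY) : coeff (yy i * q) [] = 0 := by
  obtain ⟨k, rfl⟩ := Nat.exists_eq_succ_of_ne_zero hi
  exact coeff_iota_mul_nil _ _

lemma coeff_yy_cons (i : ℕ) (hi : i ≠ 0) (a : ℕ+) (q : QY) (u : List ℕ+) :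
    coeff (yy i * q) (a :: u) = if i = (a : ℕ) then coeff q u else 0 := by
  obtain ⟨k, rfl⟩ := Nat.exists_eq_succ_of_ne_zero hi
  have : coeff (yy (k + 1) * q) (a :: u) = if a = k.succPNat then coeff q u else 0 :=
    coeff_iota_mul_cons _ _ _ _
  rw [this]
  have h2 : a = k.succPNat ↔ k.succ = (a : ℕ) := by
    constructor
    · rintro rfl; rfl
    · intro h; apply PNat.eq; exact h.symm
  simp only [h2]

lemma cc_mul_cons_cons (i j : ℕ) (hij : i + j ≠ 0) (a b : ℕ+) (u v : List ℕ+)
    (T : QY ⊗[ℚ] QY) :
    cc (a :: u) (b :: v) ((yy i ⊗ₜ[ℚ] yy j) * T) =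
      (if (i, j) = ((a : ℕ), 0) then cc u (b :: v) T else 0) +
      (if (i, j) = (0, (b : ℕ)) then cc (a :: u) v T else 0) +
      (if (i, j) = ((a : ℕ), (b : ℕ)) then cc u v T else 0) := by
  have ha := a.pos
  have hb := b.pos
  have key : (cc (a :: u) (b :: v)).comp (LinearMap.mulLeft ℚ (yy i ⊗ₜ[ℚ] yy j)) =
      (if (i, j) = ((a : ℕ), 0) then (1 : ℚ) else 0) • cc u (b :: v) +
      (if (i, j) = (0, (b : ℕ)) then (1 : ℚ) else 0) • cc (a :: u) v +
      (if (i, j) = ((a : ℕ), (b : ℕ)) then (1 : ℚ) else 0) • cc u v := by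
    apply TensorProduct.ext'
    intro x y
    simp only [LinearMap.comp_apply, LinearMap.mulLeft_apply, LinearMap.add_apply,
      LinearMap.smul_apply, Algebra.TensorProduct.tmul_mul_tmul, cc_tmul, smul_eq_mul,
      Prod.mk.injEq]
    by_cases hi : i = 0
    · subst hi
      have hj : j ≠ 0 := by omega
      rw [coeff_yy_zero, coeff_yy_cons j hj]
      have h1 : ¬ ((0 : ℕ) = (a : ℕ)) := by omega
      simp only [h1, false_and, if_false, true_and]
      split_ifs <;> ring
    · rw [coeff_yy_cons i hi]
      by_cases hj : j = 0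
      · subst hj
        rw [coeff_yy_zero]
        have h1 : ¬ ((0 : ℕ) = (b : ℕ)) := by omega
        simp only [h1, and_false, and_true, if_false]
        split_ifs <;> ring
      · rw [coeff_yy_cons j hj]
        simp only [hi, hj, and_false, false_and, if_false]
        by_cases h1 : i = (a : ℕ)
        · by_cases h2 : j = (b : ℕ)
          · simp [h1, h2]
          · simp [h1, h2]
        · simp [h1]
  have h2 := LinearMap.congr_fun key T
  simp only [LinearMap.comp_apply, LinearMap.mulLeft_apply, LinearMap.add_apply,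
    LinearMap.smul_apply, smul_eq_mul] at h2
  rw [h2]
  congr 1
  · congr 1 <;> split_ifs <;> simp
  · split_ifs <;> simp

lemma cc_mul_cons_nil (i j : ℕ) (hij : i + j ≠ 0) (a : ℕ+) (u : List ℕ+)
    (T : QY ⊗[ℚ] QY) :
    cc (a :: u) [] ((yy i ⊗ₜ[ℚ] yy j) * T) =
      (if (i, j) = ((a : ℕ), 0) then cc u [] T else 0) := by
  have ha := a.pos
  have key : (cc (a :: u) []).comp (LinearMap.mulLeft ℚ (yy i ⊗ₜ[ℚ] yy j)) =
      (if (i, j) = ((a : ℕ), 0) then (1 : ℚ) else 0) • cc u [] := by
    apply TensorProduct.ext'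
    intro x y
    simp only [LinearMap.comp_apply, LinearMap.mulLeft_apply,
      LinearMap.smul_apply, Algebra.TensorProduct.tmul_mul_tmul, cc_tmul, smul_eq_mul,
      Prod.mk.injEq]
    by_cases hj : j = 0
    · subst hj
      have hi : i ≠ 0 := by omega
      rw [coeff_yy_zero, coeff_yy_cons i hi]
      simp only [and_true]
      split_ifs <;> ring
    · rw [coeff_yy_nil j hj]
      simp [hj]
  have h2 := LinearMap.congr_fun key T
  simp only [LinearMap.comp_apply, LinearMap.mulLeft_apply,
    LinearMap.smul_apply, smul_eq_mul] at h2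
  rw [h2]
  split_ifs <;> simp

lemma cc_mul_nil_cons (i j : ℕ) (hij : i + j ≠ 0) (b : ℕ+) (v : List ℕ+)
    (T : QY ⊗[ℚ] QY) :
    cc [] (b :: v) ((yy i ⊗ₜ[ℚ] yy j) * T) =
      (if (i, j) = (0, (b : ℕ)) then cc [] v T else 0) := by
  have hb := b.pos
  have key : (cc [] (b :: v)).comp (LinearMap.mulLeft ℚ (yy i ⊗ₜ[ℚ] yy j)) =
      (if (i, j) = (0, (b : ℕ)) then (1 : ℚ) else 0) • cc [] v := by
    apply TensorProduct.ext'
    intro x y
    simp only [LinearMap.comp_apply, LinearMap.mulLeft_apply,
      LinearMap.smul_apply, Algebra.TensorProduct.tmul_mul_tmul, cc_tmul, smul_eq_mul,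
      Prod.mk.injEq]
    by_cases hi : i = 0
    · subst hi
      have hj : j ≠ 0 := by omega
      rw [coeff_yy_zero, coeff_yy_cons j hj]
      simp only [true_and]
      split_ifs <;> ring
    · rw [coeff_yy_nil i hi]
      simp [hi]
  have h2 := LinearMap.congr_fun key T
  simp only [LinearMap.comp_apply, LinearMap.mulLeft_apply,
    LinearMap.smul_apply, smul_eq_mul] at h2
  rw [h2]
  split_ifs <;> simp

lemma cc_mul_nil_nil (i j : ℕ) (hij : i + j ≠ 0) (T : QY ⊗[ℚ] QY) :
    cc [] [] ((yy i ⊗ₜ[ℚ] yy j) * T) = 0 := by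
  have key : (cc [] []).comp (LinearMap.mulLeft ℚ (yy i ⊗ₜ[ℚ] yy j)) = 0 := by
    apply TensorProduct.ext'
    intro x y
    simp only [LinearMap.comp_apply, LinearMap.mulLeft_apply, LinearMap.zero_apply,
      Algebra.TensorProduct.tmul_mul_tmul, cc_tmul]
    by_cases hi : i = 0
    · subst hi
      have hj : j ≠ 0 := by omega
      rw [coeff_yy_nil j hj]; ring
    · rw [coeff_yy_nil i hi]; ring
  exact LinearMap.congr_fun key T

lemma Delta_iota_mul (n : ℕ+) (q : QY) :
    Delta (FreeAlgebra.ι ℚ n * q) =
      ∑ ij ∈ Finset.HasAntidiagonal.antidiagonal (n : ℕ), (yy ij.1 ⊗ₜ[ℚ] yy ij.2) * Delta q := by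
  rw [map_mul, ← Finset.sum_mul]
  congr 1
  simp [Delta]

lemma sum_antidiagonal_ite (n p q : ℕ) (x : ℚ) :
    ∑ ij ∈ Finset.HasAntidiagonal.antidiagonal n, (if (ij.1, ij.2) = (p, q) then x else 0) =
      if p + q = n then x else 0 := by
  simp only [Prod.mk.eta]
  rw [Finset.sum_ite_eq']
  simp [Finset.HasAntidiagonal.mem_antidiagonal]

lemma sum_map_cons_coeff (n a : ℕ+) (q : QY) (l : List (List ℕ+)) :
    ((l.map (a :: ·)).map (coeff (FreeAlgebra.ι ℚ n * q))).sum =
      if (a : ℕ) = n then (l.map (coeff q)).sum else 0 := by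
  rw [List.map_map]
  induction l with
  | nil => simp
  | cons w l ih =>
    simp only [List.map_cons, List.sum_cons, Function.comp_apply] at ih ⊢
    rw [ih, coeff_iota_mul_cons]
    have : (a = n) ↔ ((a : ℕ) = n) := by
      constructor
      · rintro rfl; rfl
      · intro h; exact PNat.eq h
    simp only [this]
    split_ifs <;> simp

lemma cc_Delta_word (w : List ℕ+) : ∀ u v : List ℕ+,
    cc u v (Delta (word w)) = ((stuffle u v).map (coeff (word w))).sum := by
  induction w with
  | nil =>
    intro u v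
    rw [word_nil, map_one, Algebra.TensorProduct.one_def, cc_tmul]
    have h1 : ∀ u : List ℕ+, coeff (1 : QY) u = if u = [] then 1 else 0 := by
      intro u
      rw [← word_nil, coeff_word]
      cases u <;> simp
    have h2 : ∀ (a : ℕ+) (l : List (List ℕ+)),
        ((l.map (a :: ·)).map (coeff (1 : QY))).sum = 0 := by
      intro a l
      induction l with
      | nil => simp
      | cons w l ih =>
        simp only [List.map_cons, List.sum_cons, ih, h1]; simp
    cases u with
    | nil =>
      simp [stuffle, h1]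
    | cons a u =>
      cases v with
      | nil => simp [stuffle, h1]
      | cons b v =>
        rw [stuffle, List.map_append, List.map_append, List.sum_append, List.sum_append,
          h2, h2, h2, h1, h1]
        simp
  | cons n w ih =>
    intro u v
    rw [word_cons, Delta_iota_mul, map_sum]
    have hne : ∀ ij ∈ Finset.HasAntidiagonal.antidiagonal (n : ℕ), ij.1 + ij.2 ≠ 0 := by
      intro ij hij
      rw [Finset.HasAntidiagonal.mem_antidiagonal] at hij
      have := n.pos
      omega
    cases u with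
    | nil =>
      cases v with
      | nil =>
        rw [Finset.sum_congr rfl fun ij hij => cc_mul_nil_nil ij.1 ij.2 (hne ij hij) _]
        simp [stuffle, coeff_iota_mul_nil]
      | cons b v =>
        rw [Finset.sum_congr rfl fun ij hij => cc_mul_nil_cons ij.1 ij.2 (hne ij hij) b v _,
          sum_antidiagonal_ite, ih]
        have : (stuffle [] (b :: v)) = (stuffle [] v).map (b :: ·) := by
          simp [stuffle]
        rw [this, sum_map_cons_coeff]
        simp
    | cons a u =>
      cases v with
      | nil =>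
        rw [Finset.sum_congr rfl fun ij hij => cc_mul_cons_nil ij.1 ij.2 (hne ij hij) a u _,
          sum_antidiagonal_ite, ih]
        have : (stuffle (a :: u) []) = (stuffle u []).map (a :: ·) := by
          cases u <;> simp [stuffle]
        rw [this, sum_map_cons_coeff]
        simp
      | cons b v =>
        rw [Finset.sum_congr rfl fun ij hij =>
          cc_mul_cons_cons ij.1 ij.2 (hne ij hij) a b u v _]
        rw [Finset.sum_add_distrib, Finset.sum_add_distrib, sum_antidiagonal_ite,
          sum_antidiagonal_ite, sum_antidiagonal_ite, ih, ih, ih]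
        rw [stuffle, List.map_append, List.map_append, List.sum_append, List.sum_append,
          sum_map_cons_coeff, sum_map_cons_coeff, sum_map_cons_coeff]
        simp only [add_zero, zero_add, PNat.add_coe]
        rfl

/-- The coefficient of `u ⊗ v` in `Δ(p)` is `(p | u * v)`. -/
lemma cc_Delta (p : QY) (u v : List ℕ+) :
    cc u v (Delta p) = ((stuffle u v).map (coeff p)).sum := by
  let F : QY →ₗ[ℚ] ℚ :=
    { toFun := fun p => ((stuffle u v).map (coeff p)).sum
      map_add' := by
        intro x y
        rw [← List.sum_map_add]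
        congr 1
        apply List.map_congr_left
        intro t _; exact coeff_add _ _ _
      map_smul' := by
        intro r x
        simp only [RingHom.id_apply, smul_eq_mul]
        rw [← List.sum_map_mul_left]
        congr 1
        apply List.map_congr_left
        intro t _; exact coeff_smul _ _ _ }
  have : (cc u v).comp Delta.toLinearMap = F := by
    apply linear_ext
    intro w
    exact cc_Delta_word w u v
  exact LinearMap.congr_fun this p

lemma primitive_stuffle {p : QY} (hp : Delta p = p ⊗ₜ[ℚ] 1 + 1 ⊗ₜ[ℚ] p) {u v : List ℕ+}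
    (hu : u ≠ []) (hv : v ≠ []) : ((stuffle u v).map (coeff p)).sum = 0 := by
  rw [← cc_Delta, hp, map_add, cc_tmul, cc_tmul]
  have h1 : ∀ u : List ℕ+, u ≠ [] → coeff (1 : QY) u = 0 := by
    intro u hu
    rw [← word_nil, coeff_word]
    simp [hu.symm]
  rw [h1 u hu, h1 v hv]; ring

/-- Elements of `dm0` satisfy all regularised stuffle relations. -/
lemma dm0_stuffle {ψ : QX} (h : ψ ∈ dm0) {u v : List ℕ+} (hu : u ≠ []) (hv : v ≠ []) :
    ((stuffle u v).map (starCoeff ψ)).sum = 0 := by
  obtain ⟨_, _, _, _, p, hp, hprim⟩ := h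
  have : starCoeff ψ = coeff p := by
    funext u; exact (hp u).symm
  rw [this]
  exact primitive_stuffle hprim hu hv

lemma dm0_subset_DS1 : dm0 ⊆ DS1 := by
  intro ψ h
  refine ⟨h.1, h.2.1, h.2.2.1, h.2.2.2.1, fun n u hu => ?_⟩
  rw [stuffle_one_sum]
  exact dm0_stuffle h (by simp) hu

end Pool.Agent.MP_a57f33_nt
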