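import Pool.Agent.Lib.MP_a57f33_nt.IharaLemmas
import Pool.Agent.Lib.MP_a57f33_nt.AverageMain

/-!
The parts of an element of `DS1` with at most three letters `x₀`.
-/

namespace Pool.Agent.MP_a57f33_nt

attribute [local instance 100] LieRing.ofAssociativeRing

lemma starCoeff_add (ψ φ : QX) (u : List ℕ+) :
    starCoeff (ψ + φ) u = starCoeff ψ u + starCoeff φ u := by
  unfold starCoeff
  simp only [coeff_add]
  split_ifs <;> ring

lemma starCoeff_smul (r : ℚ) (ψ : QX) (u : List ℕ+) :
    starCoeff (r • ψ) u = r * starCoeff ψ u := by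
  unfold starCoeff
  simp only [coeff_smul]
  split_ifs <;> ring

lemma DS1_add {ψ φ : QX} (h : ψ ∈ DS1) (k : φ ∈ DS1) : ψ + φ ∈ DS1 := by
  obtain ⟨h1, h2, h3, h4, h5⟩ := h
  obtain ⟨k1, k2, k3, k4, k5⟩ := k
  refine ⟨add_mem h1 k1, ?_, ?_, ?_, fun n u hu => ?_⟩
  · rw [coeff_add, h2, k2, add_zero]
  · rw [coeff_add, h3, k3, add_zero]
  · rw [coeff_add, h4, k4, add_zero]
  · have e : starCoeff (ψ + φ) = fun v => starCoeff ψ v + starCoeff φ v := by
      funext v; exact starCoeff_add _ _ _
    rw [e, List.sum_map_add, h5 n u hu, k5 n u hu, add_zero]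

lemma DS1_smul (r : ℚ) {ψ : QX} (h : ψ ∈ DS1) : r • ψ ∈ DS1 := by
  obtain ⟨h1, h2, h3, h4, h5⟩ := h
  refine ⟨LieX.smul_mem r h1, ?_, ?_, ?_, fun n u hu => ?_⟩
  · rw [coeff_smul, h2, mul_zero]
  · rw [coeff_smul, h3, mul_zero]
  · rw [coeff_smul, h4, mul_zero]
  · have e : starCoeff (r • ψ) = fun v => r * starCoeff ψ v := by
      funext v; exact starCoeff_smul _ _ _
    rw [e, List.sum_map_mul_left, h5 n u hu, mul_zero]

lemma DS1_sub {ψ φ : QX} (h : ψ ∈ DS1) (k : φ ∈ DS1) : ψ - φ ∈ DS1 := by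
  have : ψ - φ = ψ + (-1 : ℚ) • φ := by simp [sub_eq_add_neg]
  rw [this]
  exact DS1_add h (DS1_smul _ k)

lemma coeff_ts {ψ : QX} (h : ψ ∈ DS1) (n : ℕ) : coeff ψ (ts n) = 0 := by
  rcases n with _ | _ | n
  · exact (lie_ins h.1).1
  · exact h.2.2.1
  · have h1 := (lie_ins h.1).2 true (ts (n + 1)) (by simp [List.replicate_succ])
    rw [ins_tail_true] at h1
    have h2 : (((n + 1 : ℕ) : ℚ) + 1) ≠ 0 := by positivity
    exact (mul_eq_zero.mp h1).resolve_left h2

lemma Ev1_zero {ψ : QX} (h : ψ ∈ DS1) {N : ℕ} (hN : IsHom N ψ) (u : ℚ) : Ev [u] ψ = 0 := by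
  have := hom_ext (Ev [u]) (u ^ N • coeffL (ts N)) hN (by
    intro w hw
    rw [Ev_word, mon_one_ts, hw, LinearMap.smul_apply, coeffL_apply, coeff_word]
    split_ifs <;> simp)
  rw [this, LinearMap.smul_apply, coeffL_apply, coeff_ts h, smul_zero]

lemma al_dual {ψ : QX} (h : ψ ∈ DS1) (n : ℕ) : al (coeff (dual ψ)) n = al (coeff ψ) n := by
  rcases n with _ | n
  · have e1 : al (coeff (dual ψ)) 0 = 0 := (dual_mem_DS1 h).2.2.1
    have e2 : al (coeff ψ) 0 = 0 := h.2.2.1
    rw [e1, e2]
  · rw [← DS1_dual_depth_one h (n + 1) (by omega)]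
    unfold al
    rw [coeff_dual]
    simp [dualWord]

lemma depth2_rel {ψ : QX} (h : ψ ∈ DS1) (m p : ℕ) (hmp : m + p ≠ 0) :
    coeff ψ (zs m ++ true :: (zs p ++ [true])) + coeff ψ (zs p ++ true :: (zs m ++ [true])) +
      al (coeff ψ) (m + p + 1) = 0 := by
  have h1 := DS1_RR h m (zs p ++ [true]) (by simp)
  rw [RR_block] at h1
  have h2 : RR m [] (fun s => coeff ψ (zs p ++ true :: s)) =
      coeff ψ (zs p ++ true :: (zs m ++ [true])) := by
    simp [RR, aft, bef]
  rw [h2] at h1
  have h3 : target (coeff ψ) m (zs p ++ [true]) = 0 := by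
    unfold target
    rw [if_neg]
    rintro ⟨rfl, h4⟩
    apply h4
    have : p ≠ 0 := by omega
    simp [this]
  rw [h3] at h1
  unfold al
  rw [show m + p + 1 = p + (m + 1) by ring]
  exact h1

lemma swap_rel {ψ : QX} (h : ψ ∈ DS1) (m p : ℕ) (hmp : m + p ≠ 0) :
    coeff ψ (false :: (ts p ++ false :: ts m)) + coeff ψ (false :: (ts m ++ false :: ts p)) +
      al (coeff ψ) (m + p + 1) = 0 := by
  have h1 := depth2_rel (dual_mem_DS1 h) m p hmp
  rw [al_dual h, coeff_dual, coeff_dual] at h1
  simpa [dualWord] using h1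

open Finset.HasAntidiagonal in
lemma D_swap {ψ : QX} (h : ψ ∈ DS1) {m : ℕ} (hm : m ≠ 0) (hN : IsHom (m + 2) ψ) (x y : ℚ) :
    Ev [0, x, y] ψ + Ev [0, y, x] ψ =
      - al (coeff ψ) (m + 1) * ∑ p ∈ antidiagonal m, x ^ p.1 * y ^ p.2 := by
  rw [Ev_left hN, Ev_left hN, ← Finset.Nat.sum_antidiagonal_swap (n := m)
    (f := fun p => coeff ψ (false :: (ts p.1 ++ false :: ts p.2)) * (y ^ p.1 * x ^ p.2)),
    ← Finset.sum_add_distrib, Finset.mul_sum]
  apply Finset.sum_congr rfl
  intro p hp
  rw [mem_antidiagonal] at hp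
  have h1 := swap_rel h p.1 p.2 (by omega)
  rw [hp] at h1
  simp only [Prod.fst_swap, Prod.snd_swap]
  have h2 : al (coeff ψ) (m + 1) = - (coeff ψ (false :: (ts p.2 ++ false :: ts p.1)) +
    coeff ψ (false :: (ts p.1 ++ false :: ts p.2))) := by linarith
  rw [h2]; ring

lemma coeff_rev {ψ : QX} (h : ψ ∈ LieX) (w : List Bool) :
    coeff ψ w = (-1) ^ (w.length + 1) * coeff ψ w.reverse := by
  have := lie_reverse h w.reverse
  simpa using this

lemma Ev_reverse {ψ : QX} (h : ψ ∈ LieX) {m : ℕ} (hN : IsHom (m + 2) ψ) (x y : ℚ) :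
    Ev [y, x, 0] ψ = (-1) ^ (m + 1) * Ev [0, x, y] ψ := by
  rw [Ev_left hN, Ev_right hN, ← Finset.Nat.sum_antidiagonal_swap (n := m)
    (f := fun p => coeff ψ (ts p.1 ++ false :: (ts p.2 ++ [false])) * (y ^ p.1 * x ^ p.2)),
    Finset.mul_sum]
  apply Finset.sum_congr rfl
  intro p hp
  rw [Finset.HasAntidiagonal.mem_antidiagonal] at hp
  simp only [Prod.fst_swap, Prod.snd_swap]
  rw [coeff_rev h]
  have e1 : (ts p.2 ++ false :: (ts p.1 ++ [false])).length + 1 = m + 3 := by
    simp; omega
  have e2 : (ts p.2 ++ false :: (ts p.1 ++ [false])).reverse =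
      false :: (ts p.1 ++ false :: ts p.2) := by simp
  rw [e1, e2]
  ring

lemma Ev_even {ψ : QX} {m : ℕ} (hm : Even m) (hN : IsHom (m + 2) ψ) (x y : ℚ) :
    Ev [0, -x, -y] ψ = Ev [0, x, y] ψ := by
  rw [Ev_left hN, Ev_left hN]
  apply Finset.sum_congr rfl
  intro p hp
  rw [Finset.HasAntidiagonal.mem_antidiagonal] at hp
  have : (-x) ^ p.1 * (-y) ^ p.2 = x ^ p.1 * y ^ p.2 := by
    rw [neg_pow x, neg_pow y]
    have h1 : ((-1 : ℚ) ^ p.1) * (-1) ^ p.2 = 1 := by
      rw [← pow_add, hp]; exact hm.neg_one_pow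
    calc (-1 : ℚ) ^ p.1 * x ^ p.1 * ((-1) ^ p.2 * y ^ p.2) =
        ((-1 : ℚ) ^ p.1 * (-1) ^ p.2) * (x ^ p.1 * y ^ p.2) := by ring
      _ = _ := by rw [h1, one_mul]
  rw [this]

/-- The depth one coefficients vanish in even weight. -/
lemma al_even {ψ : QX} (h : ψ ∈ DS1) {m : ℕ} (hm : Even m) (hN : IsHom (m + 2) ψ) :
    al (coeff ψ) (m + 1) = 0 := by
  rcases Nat.eq_zero_or_pos m with h0 | h0
  · subst h0
    exact h.2.2.2.1
  have hT := (Ev_translate h.1)
  have hneg : (-1 : ℚ) ^ (m + 1) = -1 := by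
    rw [pow_succ, hm.neg_one_pow]; ring
  -- D(1,2) = 0
  have e1 : Ev [0, 1, 2] ψ = 0 := by
    have h1 : Ev [0, 1, 2] ψ = Ev [-1, 0, 1] ψ := by
      have := (hT (-1)).2.2 0 1 2
      norm_num at this
      exact this.symm
    have h2 : Ev [-2, -1, 0] ψ = - Ev [0, -1, -2] ψ := by
      rw [Ev_reverse h.1 hN, hneg]; ring
    have h3 : Ev [-2, -1, 0] ψ = Ev [-1, 0, 1] ψ := by
      have := (hT 1).2.2 (-2) (-1) 0
      norm_num at this
      exact this.symm
    have h4 : Ev [0, -1, -2] ψ = Ev [0, 1, 2] ψ := Ev_even hm hN 1 2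
    linarith
  have e2 : Ev [0, 2, 1] ψ = - Ev [0, 1, -1] ψ := by
    have h1 : Ev [0, 2, 1] ψ = Ev [-1, 1, 0] ψ := by
      have := (hT (-1)).2.2 0 2 1
      norm_num at this
      exact this.symm
    rw [h1, Ev_reverse h.1 hN, hneg]; ring
  have e3 := D_swap h h0.ne' hN 1 (-1)
  have e4 : Ev [0, -1, 1] ψ = Ev [0, 1, -1] ψ := by
    have := Ev_even hm hN 1 (-1)
    norm_num at this
    exact this
  have e5 : ∑ p ∈ Finset.HasAntidiagonal.antidiagonal m, (1 : ℚ) ^ p.1 * (-1) ^ p.2 = 1 := by
    rw [← Finset.Nat.sum_antidiagonal_swap, Finset.Nat.sum_antidiagonal_eq_sum_range_succ_mk]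
    simp only [Prod.fst_swap, Prod.snd_swap, one_pow, one_mul]
    rw [neg_one_geom_sum]
    have : ¬ Even m.succ := by
      rw [Nat.succ_eq_add_one, Nat.even_add_one]
      simpa using hm
    rw [if_neg this]
  have e6 := D_swap h h0.ne' hN 1 2
  have e7 : 0 ≤ ∑ p ∈ Finset.HasAntidiagonal.antidiagonal m, (1 : ℚ) ^ p.1 * 2 ^ p.2 := by
    apply Finset.sum_nonneg
    intro p _
    positivity
  rw [e5, e4] at e3
  rw [e1, e2] at e6
  set S := ∑ p ∈ Finset.HasAntidiagonal.antidiagonal m, (1 : ℚ) ^ p.1 * 2 ^ p.2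
  have e8 : al (coeff ψ) (m + 1) * (1 / 2 + S) = 0 := by linarith
  have e9 : (1 / 2 + S) ≠ 0 := by positivity
  exact (mul_eq_zero.mp e8).resolve_right e9

lemma al_hom {ψ : QX} {N : ℕ} (hN : IsHom (N + 1) ψ) (h : al (coeff ψ) N = 0) (n : ℕ) :
    al (coeff ψ) n = 0 := by
  by_cases hn : n = N
  · rw [hn, h]
  · apply hN
    simp
    exact hn

/-- Homogeneous elements of `DS1` without depth one part. -/
structure Base (ψ : QX) (N : ℕ) : Prop where
  mem : ψ ∈ DS1
  hom : IsHom N ψ
  alz : ∀ n, al (coeff ψ) n = 0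

lemma exists_ts (w : List Bool) (k : ℕ) (h : w.count false = k + 1) :
    ∃ b t, w = ts b ++ false :: t ∧ t.count false = k := by
  induction w with
  | nil => simp at h
  | cons d w ih =>
    cases d with
    | false => exact ⟨0, w, rfl, by simpa using h⟩
    | true =>
      obtain ⟨b, t, rfl, ht⟩ := ih (by simpa using h)
      exact ⟨b + 1, t, by simp [List.replicate_succ], ht⟩

lemma vanish_of_first {c : List Bool → ℚ} (hins : ∀ w, w ≠ [] → ins true w c = 0) {k : ℕ}
    (h0 : ∀ t : List Bool, t.count false = k → c (false :: t) = 0) :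
    ∀ w : List Bool, w.count false = k + 1 → c w = 0 := by
  have key : ∀ b (t : List Bool), t.count false = k → c (ts b ++ false :: t) = 0 := by
    intro b
    induction b with
    | zero => intro t ht; exact h0 t ht
    | succ b ih =>
      intro t ht
      have h1 := hins (ts b ++ false :: t) (by simp)
      rw [ins_block_true, ins_count t (g := fun s => c (ts b ++ false :: s))
        (fun s hs => ih s (hs.trans ht))] at h1
      have h2 : ((b : ℚ) + 1) ≠ 0 := by positivity
      have h3 : ((b : ℚ) + 1) * c (ts (b + 1) ++ false :: t) = 0 := by linarith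
      exact (mul_eq_zero.mp h3).resolve_left h2
  intro w hw
  obtain ⟨b, t, rfl, ht⟩ := exists_ts w k hw
  exact key b t ht

lemma rot_of {c : List Bool → ℚ} (rr : ∀ w, RR 0 w c = 0)
    (rev : ∀ w : List Bool, c w.reverse = (-1) ^ (w.length + 1) * c w) (w : List Bool) :
    c (true :: w) + c (false :: w) = c (w ++ [true]) + c (w ++ [false]) := by
  have h1 := rr w
  have h2 := rr w.reverse
  have e0 : ∀ t : List Bool, t.length = w.length + 1 →
      c t.reverse = (-1) ^ w.length * c t := by
    intro t ht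
    rw [rev, ht, pow_succ, pow_succ]; ring
  have e1 : c (true :: w.reverse) = (-1) ^ w.length * c (w ++ [true]) := by
    rw [← e0 _ (by simp)]; simp
  have e2 : aft true [true] w.reverse c = (-1) ^ w.length * bef true [true] w c := by
    have h := bef_rev true [true] w c
    simp only [List.reverse_singleton] at h
    rw [← h, ← bef_mul]
    apply bef_congr
    intro t ht
    exact e0 t (by simpa using ht)
  have e3 : bef true [false] w.reverse c = (-1) ^ w.length * aft true [false] w c := by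
    have h := aft_rev true [false] w c
    simp only [List.reverse_singleton] at h
    rw [← h, ← aft_mul]
    apply aft_congr
    intro t ht
    exact e0 t (by simpa using ht)
  simp only [RR, List.replicate_zero, List.nil_append, zero_add, List.replicate_one] at h1 h2
  rw [e1, e2, e3] at h2
  have h3 : (-1 : ℚ) ^ w.length ≠ 0 := pow_ne_zero _ (by norm_num)
  have h4 : c (w ++ [true]) + bef true [true] w c + aft true [false] w c = 0 := by
    have : (-1 : ℚ) ^ w.length * (c (w ++ [true]) + bef true [true] w c +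
        aft true [false] w c) = 0 := by rw [← h2]; ring
    exact (mul_eq_zero.mp this).resolve_left h3
  have h5 := bef_sub_aft w c
  rw [aft_true_eq_bef_true] at h1
  linarith

namespace Base

variable {ψ : QX} {N : ℕ} (B : Base ψ N)

include B

lemma insT : ∀ w, w ≠ [] → ins true w (coeff ψ) = 0 := (lie_ins B.mem.1).2 true

lemma rr (m : ℕ) (w : List Bool) (hw : true ∈ w) : RR m w (coeff ψ) = 0 := by
  rw [DS1_RR B.mem m w hw]
  unfold target
  rw [B.alz]; simp

lemma rr0 (w : List Bool) : RR 0 w (coeff ψ) = 0 := by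
  by_cases hw : true ∈ w
  · exact B.rr 0 w hw
  · have e : w = zs w.length := by
      rw [List.eq_replicate_iff]
      refine ⟨rfl, fun b hb => ?_⟩
      cases b with
      | false => rfl
      | true => exact absurd hb hw
    rw [e, RR_zs]
    exact depth_one_zero ((lie_ins B.mem.1).2 false) B.alz w.length 0

lemma rot (w : List Bool) : coeff ψ (true :: w) + coeff ψ (false :: w) =
    coeff ψ (w ++ [true]) + coeff ψ (w ++ [false]) :=
  rot_of B.rr0 (lie_reverse B.mem.1) w

/-- The dual element. -/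
lemma dual : Base (dual ψ) N := by
  refine ⟨dual_mem_DS1 B.mem, fun w hw => ?_, fun n => ?_⟩
  · rw [coeff_dual]
    apply B.hom
    rwa [dualWord_length]
  · rw [al_dual B.mem]; exact B.alz n

lemma sub {φ : QX} (C : Base φ N) : Base (ψ - φ) N := by
  refine ⟨DS1_sub B.mem C.mem, B.hom.sub C.hom, fun n => ?_⟩
  have h1 := B.alz n
  have h2 := C.alz n
  unfold al at h1 h2 ⊢
  rw [coeff_sub, h1, h2, sub_zero]

lemma cod0 (w : List Bool) (hw : w.count false = 0) : coeff ψ w = 0 := by
  obtain ⟨b, l, rfl, hl⟩ := exists_enc w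
  have : l = [] := List.length_eq_zero_iff.mp (by omega)
  subst this
  exact coeff_ts B.mem b

lemma cod1 (w : List Bool) (hw : w.count false ≤ 1) : coeff ψ w = 0 := by
  rcases Nat.lt_or_ge (w.count false) 1 with h | h
  · exact B.cod0 w (by omega)
  refine vanish_of_first (k := 0) B.insT ?_ w (by omega)
  intro t ht
  obtain ⟨b, l, rfl, hl⟩ := exists_enc t
  have : l = [] := List.length_eq_zero_iff.mp (by omega)
  subst this
  simp only [enc]
  rcases b with _ | b
  · exact B.mem.2.1
  · rw [DS1_dual_depth_one B.mem (b + 1) (by omega)]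
    exact B.alz _

/-- Cyclic invariance of the lowest part. -/
lemma cyc {k : ℕ} (hk : ∀ w : List Bool, w.count false ≤ k → coeff ψ w = 0) (w : List Bool)
    (hw : w.count false = k) : coeff ψ (false :: w) = coeff ψ (w ++ [false]) := by
  have h1 := B.rot w
  rw [hk (true :: w) (by simp [hw]), hk (w ++ [true]) (by simp [hw])] at h1
  linarith

/-- Antisymmetry of the part with two letters `x₀`. -/
lemma swap (p m : ℕ) : coeff ψ (false :: (ts p ++ false :: ts m)) +
    coeff ψ (false :: (ts m ++ false :: ts p)) = 0 := by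
  have h1 := B.dual.rr m (zs p ++ [true]) (by simp)
  rw [RR_block] at h1
  have h2 : RR m [] (fun s => coeff (MP_a57f33_nt.dual ψ) (zs p ++ true :: s)) =
      coeff (MP_a57f33_nt.dual ψ) (zs p ++ true :: (zs m ++ [true])) := by
    simp [RR, aft, bef]
  rw [h2] at h1
  have h3 : coeff (MP_a57f33_nt.dual ψ) (zs (p + (m + 1)) ++ [true]) = 0 := B.dual.alz _
  rw [h3, coeff_dual, coeff_dual] at h1
  simp only [dualWord, List.map_append, List.map_cons, List.map_replicate, List.map_nil,
    Bool.not_false, Bool.not_true, List.reverse_append, List.reverse_cons, List.reverse_replicate,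
    List.reverse_nil, List.nil_append, List.cons_append, List.append_assoc] at h1
  linarith

lemma cod2_odd (hN : Odd N) (w : List Bool) (hw : w.count false ≤ 2) : coeff ψ w = 0 := by
  rcases Nat.lt_or_ge (w.count false) 2 with h | h
  · exact B.cod1 w (by omega)
  refine vanish_of_first (k := 1) B.insT ?_ w (by omega)
  intro t ht
  obtain ⟨p, l, rfl, hl⟩ := exists_enc t
  obtain ⟨m, rfl⟩ : ∃ m, l = [m] := List.length_eq_one_iff.mp (by omega)
  simp only [enc]
  by_cases hlen : (false :: (ts p ++ false :: ts m)).length = N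
  · have h1 := B.cyc B.cod1 (ts p ++ false :: ts m) (by simpa [enc] using ht)
    have h2 := coeff_rev B.mem.1 (ts p ++ false :: ts m ++ [false])
    have e1 : (ts p ++ false :: ts m ++ [false]).length + 1 = N + 1 := by
      rw [← hlen]; simp; omega
    have e2 : (ts p ++ false :: ts m ++ [false]).reverse =
      false :: (ts m ++ false :: ts p) := by simp
    rw [e1, e2, hN.add_one.neg_one_pow, one_mul] at h2
    have h3 := B.swap p m
    linarith
  · exact B.hom _ hlen

lemma cod3_even (hN : Even N) (h2 : ∀ w : List Bool, w.count false ≤ 2 → coeff ψ w = 0)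
    (w : List Bool) (hw : w.count false ≤ 3) : coeff ψ w = 0 := by
  rcases Nat.lt_or_ge (w.count false) 3 with h | h
  · exact h2 w (by omega)
  refine vanish_of_first (k := 2) B.insT ?_ w (by omega)
  intro t ht
  obtain ⟨x, l, rfl, hl⟩ := exists_enc t
  obtain ⟨y, z, rfl⟩ : ∃ y z, l = [y, z] := List.length_eq_two.mp (by omega)
  simp only [enc]
  set g : ℕ → ℕ → ℕ → ℚ := fun x y z =>
    coeff ψ (false :: (ts x ++ false :: (ts y ++ false :: ts z))) with hg
  have R : ∀ a b m, g b a m + g b m a + g m b a = 0 := by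
    intro a b m
    have h1 := B.dual.rr m (zs a ++ true :: (zs b ++ [true])) (by simp)
    rw [RR_block, RR_block] at h1
    have e2 : RR m [] (fun s => coeff (MP_a57f33_nt.dual ψ) (zs a ++ true :: (zs b ++ true :: s))) =
        coeff (MP_a57f33_nt.dual ψ) (zs a ++ true :: (zs b ++ true :: (zs m ++ [true]))) := by
      simp [RR, aft, bef]
    rw [e2] at h1
    simp only [coeff_dual] at h1
    have e3 : coeff ψ (dualWord (zs (a + (m + 1)) ++ true :: (zs b ++ [true]))) = 0 := by
      apply h2
      simp [dualWord, List.count_replicate]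
    have e4 : coeff ψ (dualWord (zs a ++ true :: (zs (b + (m + 1)) ++ [true]))) = 0 := by
      apply h2
      simp [dualWord, List.count_replicate]
    rw [e3, e4] at h1
    simp only [dualWord, List.map_append, List.map_cons, List.map_replicate, List.map_nil,
      Bool.not_false, Bool.not_true, List.reverse_append, List.reverse_cons, List.reverse_replicate,
      List.reverse_nil, List.nil_append, List.cons_append, List.append_assoc] at h1
    simp only [hg]
    linarith
  have Rrev : g x y z = g z y x := by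
    have r1 := R y x z
    have r2 := R x y z
    have r3 := R z x y
    have r4 := R x z y
    have r5 := R z y x
    have r6 := R y z x
    linarith
  by_cases hlen : (false :: (ts x ++ false :: (ts y ++ false :: ts z))).length = N
  · have h1 := B.cyc h2 (ts x ++ false :: (ts y ++ false :: ts z)) (by simpa [enc] using ht)
    have h3 := coeff_rev B.mem.1 (ts x ++ false :: (ts y ++ false :: ts z) ++ [false])
    have e1 : (ts x ++ false :: (ts y ++ false :: ts z) ++ [false]).length + 1 = N + 1 := by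
      rw [← hlen]; simp; omega
    have e2 : (ts x ++ false :: (ts y ++ false :: ts z) ++ [false]).reverse =
      false :: (ts z ++ false :: (ts y ++ false :: ts x)) := by simp
    rw [e1, e2, hN.add_one.neg_one_pow] at h3
    simp only [hg] at Rrev
    linarith
  · exact B.hom _ hlen

end Base

end Pool.Agent.MP_a57f33_nt
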