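import Pool.Agent.Lib.MP_a57f33_nt.Codepth

/-!
`dm0` modulo words with at least three letters `x₀`.
-/

namespace Pool.Agent.MP_a57f33_nt

/-- Alternating sum over the permutations of `x, y, -x-y`. -/
def altL : (ℚ → ℚ → ℚ) →ₗ[ℚ] (ℚ → ℚ → ℚ) where
  toFun P := fun x y => P x y - P y x + P y (-x - y) - P (-x - y) y + P (-x - y) x - P x (-x - y)
  map_add' P Q := by funext x y; simp only [Pi.add_apply]; ring
  map_smul' r P := by
    funext x y
    simp only [Pi.smul_apply, smul_eq_mul, RingHom.id_apply]; ring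

lemma altL_apply (P : ℚ → ℚ → ℚ) (x y : ℚ) : altL P x y =
    P x y - P y x + P y (-x - y) - P (-x - y) y + P (-x - y) x - P x (-x - y) := rfl

/-- The monomial function `x^i y^j`. -/
def mn (i j : ℕ) : ℚ → ℚ → ℚ := fun x y => x ^ i * y ^ j

/-- The span of the alternations of the monomials with positive even exponents. -/
def WW (m : ℕ) : Submodule ℚ (ℚ → ℚ → ℚ) :=
  Submodule.span ℚ {P | ∃ a b : ℕ, Even a ∧ Even b ∧ 2 ≤ a ∧ 2 ≤ b ∧ a + b = m ∧ P = altL (mn a b)}

lemma altL_even_mem {m i j : ℕ} (hi : Even i) (hj : Even j) (h : i + j = m) :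
    altL (mn i j) ∈ WW m := by
  rcases Nat.eq_zero_or_pos i with h0 | h0
  · subst h0
    have : altL (mn 0 j) = 0 := by
      funext x y
      rw [altL_apply]; simp only [mn, Pi.zero_apply]; ring
    rw [this]; exact zero_mem _
  rcases Nat.eq_zero_or_pos j with h1 | h1
  · subst h1
    have : altL (mn i 0) = 0 := by
      funext x y
      rw [altL_apply]; simp only [mn, Pi.zero_apply]; ring
    rw [this]; exact zero_mem _
  apply Submodule.subset_span
  refine ⟨i, j, hi, hj, ?_, ?_, h, rfl⟩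
  · obtain ⟨k, rfl⟩ := hi; omega
  · obtain ⟨k, rfl⟩ := hj; omega

lemma altL_comp (Q : ℚ → ℚ → ℚ) : altL (fun x y => Q (-x - y) y) = - altL Q := by
  funext x y
  rw [Pi.neg_apply, Pi.neg_apply, altL_apply, altL_apply]
  have e1 : -y - x = -x - y := by ring
  have e2 : -y - (-x - y) = x := by ring
  have e3 : -(-x - y) - y = x := by ring
  have e4 : -(-x - y) - x = y := by ring
  have e5 : -x - (-x - y) = y := by ring
  simp only [e1, e2, e3, e4, e5]
  ring

lemma altL_mem {m : ℕ} (hm : Even m) (i : ℕ) : ∀ j, i + j = m → altL (mn i j) ∈ WW m := by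
  induction i using Nat.strong_induction_on with
  | _ i ih =>
    intro j hij
    rcases Nat.even_or_odd i with hi | hi
    · have hj : Even j := by
        rw [← hij, Nat.even_add] at hm
        exact hm.mp hi
      exact altL_even_mem hi hj hij
    · have hj : Odd j := by
        rw [← hij, Nat.even_add] at hm
        rw [← Nat.not_even_iff_odd] at hi ⊢
        exact fun h => hi (hm.mpr h)
      obtain ⟨j, rfl⟩ : ∃ j', j = j' + 1 := ⟨j - 1, by rcases hj with ⟨k, hk⟩; omega⟩
      have hi1 : Even (i + 1) := hi.add_one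
      have hj1 : Even j := by
        rw [Nat.odd_add_one, Nat.not_odd_iff_even] at hj
        exact hj
      have hQ : altL (mn (i + 1) j) ∈ WW m := altL_even_mem hi1 hj1 (by omega)
      have hexp : (fun x y => mn (i + 1) j (-x - y) y) =
          ∑ k ∈ Finset.range (i + 2), ((i + 1).choose k : ℚ) • mn k (m - k) := by
        funext x y
        rw [Finset.sum_apply, Finset.sum_apply]
        simp only [mn, Pi.smul_apply, smul_eq_mul]
        have : (-x - y) ^ (i + 1) = (x + y) ^ (i + 1) := by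
          rw [show -x - y = -(x + y) by ring, hi1.neg_pow]
        rw [this, add_pow, Finset.sum_mul]
        apply Finset.sum_congr rfl
        intro k hk
        rw [Finset.mem_range] at hk
        have : m - k = (i + 1 - k) + j := by omega
        rw [this, pow_add]; ring
      have h1 := altL_comp (mn (i + 1) j)
      rw [hexp, map_sum, Finset.sum_range_succ, Finset.sum_range_succ] at h1
      simp only [map_smul] at h1
      rw [Nat.choose_self, Nat.choose_succ_self_right] at h1
      have e1 : m - (i + 1) = j := by omega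
      have e2 : m - i = j + 1 := by omega
      rw [e1, e2] at h1
      have h2 : ∑ k ∈ Finset.range i, ((i + 1).choose k : ℚ) • altL (mn k (m - k)) ∈ WW m := by
        apply Submodule.sum_mem
        intro k hk
        rw [Finset.mem_range] at hk
        exact (WW m).smul_mem _ (ih k hk (m - k) (by omega))
      have h3 : ((i + 1 : ℕ) : ℚ) • altL (mn i (j + 1)) ∈ WW m := by
        have : ((i + 1 : ℕ) : ℚ) • altL (mn i (j + 1)) =
            - altL (mn (i + 1) j) - ((1 : ℕ) : ℚ) • altL (mn (i + 1) j) -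
              ∑ k ∈ Finset.range i, ((i + 1).choose k : ℚ) • altL (mn k (m - k)) := by
          rw [← h1]; abel
        rw [this]
        exact sub_mem (sub_mem (neg_mem hQ) ((WW m).smul_mem _ hQ)) h2
      have h4 : (((i + 1 : ℕ) : ℚ)) ≠ 0 := by positivity
      have h5 := (WW m).smul_mem (((i + 1 : ℕ) : ℚ)⁻¹) h3
      rwa [smul_smul, inv_mul_cancel₀ h4, one_smul] at h5

lemma poly_zero {m : ℕ} (d : ℕ × ℕ → ℚ)
    (h : ∀ x y : ℚ, ∑ p ∈ Finset.HasAntidiagonal.antidiagonal m, d p * (x ^ p.1 * y ^ p.2) = 0) :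
    ∀ p ∈ Finset.HasAntidiagonal.antidiagonal m, d p = 0 := by
  intro p hp
  rw [Finset.HasAntidiagonal.mem_antidiagonal] at hp
  set f : Polynomial ℚ := ∑ i ∈ Finset.range (m + 1), Polynomial.C (d (i, m - i)) * Polynomial.X ^ i
    with hf
  have h1 : f = 0 := by
    apply Polynomial.funext
    intro x
    have h2 := h x 1
    rw [Finset.Nat.sum_antidiagonal_eq_sum_range_succ_mk] at h2
    rw [hf, Polynomial.eval_finsetSum, Polynomial.eval_zero, ← h2]
    apply Finset.sum_congr rfl
    intro i _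
    simp
  have h3 : f.coeff p.1 = d (p.1, m - p.1) := by
    rw [hf, Polynomial.finsetSum_coeff]
    simp only [Polynomial.coeff_C_mul, Polynomial.coeff_X_pow, mul_ite, mul_one, mul_zero]
    rw [Finset.sum_ite_eq]
    rw [if_pos]
    rw [Finset.mem_range]; omega
  rw [h1, Polynomial.coeff_zero] at h3
  have : p = (p.1, m - p.1) := by
    ext
    · rfl
    · simp; omega
  rw [this]; exact h3.symm

/-- The part with two letters `x₀`, as a function of `x = V₀ - V₁` and `y = V₁ - V₂`. -/
noncomputable def PP (ψ : QX) : ℚ → ℚ → ℚ := fun x y => Ev [0, -x, -x - y] ψ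

namespace Base

variable {ψ : QX} {m : ℕ} (B : Base ψ (m + 2))

include B

lemma anti2 (x y : ℚ) : Ev [0, y, x] ψ = - Ev [0, x, y] ψ := by
  rw [Ev_left B.hom, Ev_left B.hom, ← Finset.Nat.sum_antidiagonal_swap (n := m)
    (f := fun p => coeff ψ (false :: (ts p.1 ++ false :: ts p.2)) * (y ^ p.1 * x ^ p.2)),
    ← Finset.sum_neg_distrib]
  apply Finset.sum_congr rfl
  intro p _
  simp only [Prod.fst_swap, Prod.snd_swap]
  have := B.swap p.1 p.2
  have h2 : coeff ψ (false :: (ts p.2 ++ false :: ts p.1)) =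
    - coeff ψ (false :: (ts p.1 ++ false :: ts p.2)) := by linarith
  rw [h2]; ring

lemma cyc2 (x y : ℚ) : Ev [x, y, 0] ψ = Ev [0, x, y] ψ := by
  rw [Ev_left B.hom, Ev_right B.hom]
  apply Finset.sum_congr rfl
  intro p _
  have := B.cyc B.cod1 (ts p.1 ++ false :: ts p.2) (by simp [List.count_replicate])
  rw [this]
  simp

lemma PP_swap (hm : Even m) (x y : ℚ) : PP ψ y x = - PP ψ x y := by
  unfold PP
  have h1 : Ev [0, -y, -y - x] ψ = Ev [x + y, x, 0] ψ := by
    have := (Ev_translate B.mem.1 (x + y)).2.2 0 (-y) (-y - x)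
    rw [← this]
    rw [show (0 : ℚ) + (x + y) = x + y by ring, show -y + (x + y) = x by ring,
      show -y - x + (x + y) = 0 by ring]
  have h2 := Ev_even hm B.hom x (x + y)
  rw [show -(x + y) = -x - y by ring] at h2
  rw [h1, B.cyc2, B.anti2 x (x + y), h2]

lemma PP_tri (hm : Even m) (x y : ℚ) : PP ψ (-x - y) y = - PP ψ x y := by
  unfold PP
  have e : -(-x - y) - y = x := by ring
  have e1 : -(-x - y) = x + y := by ring
  have h2 := Ev_even hm B.hom (x + y) x
  rw [show -(x + y) = -x - y by ring] at h2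
  rw [e, e1, ← h2, B.anti2 (-x) (-x - y)]

lemma PP_alt (hm : Even m) : altL (PP ψ) = (6 : ℚ) • PP ψ := by
  funext x y
  rw [altL_apply, Pi.smul_apply, Pi.smul_apply, smul_eq_mul]
  have h1 := B.PP_swap hm x y
  have h2 := B.PP_tri hm x y
  have h3 := B.PP_swap hm (-x - y) y
  have h4 := B.PP_tri hm y x
  have e : -y - x = -x - y := by ring
  rw [e] at h4
  have h5 := B.PP_swap hm (-x - y) x
  linarith

lemma PP_mem (hm : Even m) : PP ψ ∈ WW m := by
  have h1 := B.PP_alt hm
  have h2 : PP ψ = ∑ p ∈ Finset.HasAntidiagonal.antidiagonal m,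
      (coeff ψ (false :: (ts p.1 ++ false :: ts p.2)) * (-1) ^ p.1) •
        (fun x y => mn p.1 p.2 x (-x - y)) := by
    funext x y
    rw [Finset.sum_apply, Finset.sum_apply]
    unfold PP
    rw [Ev_left B.hom]
    apply Finset.sum_congr rfl
    intro p _
    simp only [mn, Pi.smul_apply, smul_eq_mul]
    rw [neg_pow x]; ring
  have h3 : ∀ Q : ℚ → ℚ → ℚ, altL (fun x y => Q x (-x - y)) = - altL Q := by
    intro Q
    funext x y
    rw [Pi.neg_apply, Pi.neg_apply, altL_apply, altL_apply]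
    have e1 : -y - x = -x - y := by ring
    have e2 : -y - (-x - y) = x := by ring
    have e3 : -(-x - y) - y = x := by ring
    have e4 : -(-x - y) - x = y := by ring
    have e5 : -x - (-x - y) = y := by ring
    simp only [e1, e2, e3, e4, e5]
    ring
  have h4 : altL (PP ψ) ∈ WW m := by
    rw [h2, map_sum]
    apply Submodule.sum_mem
    intro p hp
    rw [Finset.HasAntidiagonal.mem_antidiagonal] at hp
    rw [map_smul, h3]
    exact (WW m).smul_mem _ (neg_mem (altL_mem hm p.1 p.2 hp))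
  rw [h1] at h4
  have h5 := (WW m).smul_mem ((6 : ℚ)⁻¹) h4
  rwa [smul_smul, inv_mul_cancel₀ (by norm_num), one_smul] at h5

lemma cod2_even (h : PP ψ = 0) (w : List Bool) (hw : w.count false ≤ 2) : coeff ψ w = 0 := by
  rcases Nat.lt_or_ge (w.count false) 2 with h' | h'
  · exact B.cod1 w (by omega)
  have h1 : ∀ x y, Ev [0, x, y] ψ = 0 := by
    intro x y
    have := congrFun (congrFun h (-x)) (x - y)
    unfold PP at this
    simp only [Pi.zero_apply, neg_neg] at this
    have e : x - (x - y) = y := by ring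
    rwa [e] at this
  have h2 := poly_zero (m := m) (fun p => coeff ψ (false :: (ts p.1 ++ false :: ts p.2)))
    (fun x y => by rw [← Ev_left B.hom]; exact h1 x y)
  refine vanish_of_first (k := 1) B.insT ?_ w (by omega)
  intro t ht
  obtain ⟨p, l, rfl, hl⟩ := exists_enc t
  obtain ⟨q, rfl⟩ : ∃ m, l = [m] := List.length_eq_one_iff.mp (by omega)
  simp only [enc]
  by_cases hlen : (false :: (ts p ++ false :: ts q)).length = m + 2
  · refine h2 (p, q) ?_
    rw [Finset.HasAntidiagonal.mem_antidiagonal]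
    simp at hlen
    simp
    omega
  · exact B.hom _ hlen

end Base

lemma Ev_pair {ψ : QX} (h : ψ ∈ DS1) {n : ℕ} (hN : IsHom (n + 1) ψ) (u v : ℚ) :
    Ev [u, v] ψ = coeff ψ (ts n ++ [false]) * (u - v) ^ n := by
  have h1 := (Ev_translate h.1 v).2.1 (u - v) 0
  rw [zero_add, sub_add_cancel] at h1
  rw [h1, Ev_two hN]

lemma PP_ihara {ψ φ : QX} (h : ψ ∈ DS1) (k : φ ∈ DS1) {a b : ℕ} (ha : Even a) (hb : Even b)
    (hψ : IsHom (a + 1) ψ) (hφ : IsHom (b + 1) φ) :
    PP (ihara ψ φ) = -(coeff ψ (ts a ++ [false]) * coeff φ (ts b ++ [false])) • altL (mn a b) := by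
  funext x y
  unfold PP
  rw [Ev_ihara (Ev1_zero h hψ) (Ev1_zero k hφ)]
  simp only [Ev_pair h hψ, Ev_pair k hφ]
  rw [Pi.smul_apply, Pi.smul_apply, altL_apply]
  simp only [mn, smul_eq_mul]
  have e1 : (0 : ℚ) - -x = x := by ring
  have e2 : -x - (-x - y) = y := by ring
  have e3 : (0 : ℚ) - (-x - y) = x + y := by ring
  have e4 : (-x - y) ^ a = (x + y) ^ a := by rw [show -x - y = -(x + y) by ring, ha.neg_pow]
  have e5 : (-x - y) ^ b = (x + y) ^ b := by rw [show -x - y = -(x + y) by ring, hb.neg_pow]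
  rw [e1, e2, e3, e4, e5]
  ring

lemma coeff_ts_false {ψ : QX} (h : ψ ∈ DS1) {a : ℕ} (ha : Even a) (ha2 : 2 ≤ a) :
    coeff ψ (ts a ++ [false]) = al (coeff ψ) a := by
  rw [coeff_rev h.1]
  have e1 : (ts a ++ [false]).length + 1 = a + 2 := by simp
  have e2 : (ts a ++ [false]).reverse = false :: ts a := by simp
  rw [e1, e2, DS1_dual_depth_one h a (by omega), pow_add, ha.neg_one_pow]
  ring

/-- `dm0` and a Lie subalgebra containing generators in odd weights agree modulo words with at
least three letters `x₀`, and modulo words with at least four letters `x₀` in even weights. -/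
theorem codepth_two (𝔤 : Submodule ℚ QX) (hdm : ∀ ψ ∈ 𝔤, ψ ∈ dm0)
    (hbr : ∀ ψ ∈ 𝔤, ∀ φ ∈ 𝔤, ihara ψ φ ∈ 𝔤)
    (hgen : ∀ n, Odd n → 3 ≤ n → ∃ σ ∈ 𝔤, IsHom n σ ∧
      coeff σ (List.replicate (n - 1) false ++ [true]) ≠ 0)
    {N : ℕ} {ψ : QX} (hψ : ψ ∈ DS1) (hN : IsHom N ψ) :
    ∃ φ ∈ 𝔤, IsHom N φ ∧ (∀ w : List Bool, w.count false ≤ 2 → coeff ψ w = coeff φ w) ∧
      (Even N → ∀ w : List Bool, w.count false ≤ 3 → coeff ψ w = coeff φ w) := by
  have hDS : ∀ ψ ∈ 𝔤, ψ ∈ DS1 := fun ψ h => dm0_subset_DS1 (hdm ψ h)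
  rcases Nat.even_or_odd N with hE | hO
  · rcases Nat.eq_zero_or_pos N with h0 | h0
    · subst h0
      have : ∀ w, coeff ψ w = 0 := by
        intro w
        rcases w with _ | ⟨b, w⟩
        · exact (lie_ins hψ.1).1
        · exact hN _ (by simp)
      exact ⟨0, zero_mem _, isHom_zero 0, fun w _ => by rw [this, coeff_zero],
        fun _ w _ => by rw [this, coeff_zero]⟩
    obtain ⟨m, rfl⟩ : ∃ m, N = m + 2 := ⟨N - 2, by obtain ⟨k, rfl⟩ := hE; omega⟩
    have hm : Even m := by
      rw [Nat.even_add] at hE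
      exact hE.mpr even_two
    have base : ∀ χ ∈ DS1, IsHom (m + 2) χ → Base χ (m + 2) := fun χ h1 h2 =>
      ⟨h1, h2, al_hom (N := m + 1) h2 (al_even h1 hm h2)⟩
    have B := base ψ hψ hN
    have key : ∀ P ∈ WW m, ∃ χ ∈ 𝔤, IsHom (m + 2) χ ∧ PP χ = P := by
      intro P hP
      induction hP using Submodule.span_induction with
      | mem P hP =>
        obtain ⟨a, b, ha, hb, ha2, hb2, hab, rfl⟩ := hP
        obtain ⟨σ, hσ, hσN, hσc⟩ := hgen (a + 1) ha.add_one (by omega)
        obtain ⟨τ, hτ, hτN, hτc⟩ := hgen (b + 1) hb.add_one (by omega)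
        have h1 := PP_ihara (hDS σ hσ) (hDS τ hτ) ha hb hσN hτN
        rw [coeff_ts_false (hDS σ hσ) ha ha2, coeff_ts_false (hDS τ hτ) hb hb2] at h1
        simp only [Nat.add_sub_cancel] at hσc hτc
        set r : ℚ := al (coeff σ) a * al (coeff τ) b with hr
        have hr0 : r ≠ 0 := mul_ne_zero hσc hτc
        refine ⟨(-r)⁻¹ • ihara σ τ, 𝔤.smul_mem _ (hbr σ hσ τ hτ), ?_, ?_⟩
        · apply IsHom.smul
          have := isHom_ihara hσN hτN
          rwa [show a + 1 + (b + 1) = m + 2 by omega] at this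
        · have : PP ((-r)⁻¹ • ihara σ τ) = (-r)⁻¹ • PP (ihara σ τ) := by
            funext x y
            simp [PP]
          rw [this, h1, smul_smul, inv_mul_cancel₀ (neg_ne_zero.mpr hr0), one_smul]
      | zero =>
        exact ⟨0, zero_mem _, isHom_zero _, by funext x y; simp [PP]⟩
      | add P Q _ _ h1 h2 =>
        obtain ⟨χ, a1, a2, a3⟩ := h1
        obtain ⟨ξ, b1, b2, b3⟩ := h2
        refine ⟨χ + ξ, add_mem a1 b1, a2.add b2, ?_⟩
        rw [← a3, ← b3]
        funext x y
        simp [PP]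
      | smul r P _ h1 =>
        obtain ⟨χ, a1, a2, a3⟩ := h1
        refine ⟨r • χ, 𝔤.smul_mem _ a1, a2.smul r, ?_⟩
        rw [← a3]
        funext x y
        simp [PP]
    obtain ⟨φ, h1, h2, h3⟩ := key _ (B.PP_mem hm)
    have C := B.sub (base φ (hDS φ h1) h2)
    have hPP : PP (ψ - φ) = 0 := by
      funext x y
      have := congrFun (congrFun h3 x) y
      simp only [PP, map_sub, Pi.zero_apply] at this ⊢
      rw [this, sub_self]
    have h4 := C.cod2_even hPP
    have h5 := C.cod3_even hE h4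
    refine ⟨φ, h1, h2, fun w hw => ?_, fun _ w hw => ?_⟩
    · have := h4 w hw
      rw [coeff_sub] at this
      linarith
    · have := h5 w hw
      rw [coeff_sub] at this
      linarith
  · have hE : ¬ Even N := by rwa [Nat.not_even_iff_odd]
    obtain ⟨n, rfl⟩ : ∃ n, N = n + 1 := ⟨N - 1, by obtain ⟨k, rfl⟩ := hO; omega⟩
    obtain ⟨φ, h1, h2, h3⟩ : ∃ φ ∈ 𝔤, IsHom (n + 1) φ ∧ al (coeff (ψ - φ)) n = 0 := by
      rcases Nat.eq_zero_or_pos n with h0 | h0
      · subst h0
        refine ⟨0, zero_mem _, isHom_zero _, ?_⟩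
        rw [sub_zero]
        exact hψ.2.2.1
      · obtain ⟨σ, hσ, hσN, hσc⟩ := hgen (n + 1) hO (by obtain ⟨k, hk⟩ := hO; omega)
        simp only [Nat.add_sub_cancel] at hσc
        refine ⟨(al (coeff ψ) n / al (coeff σ) n) • σ, 𝔤.smul_mem _ hσ, hσN.smul _, ?_⟩
        unfold al
        rw [coeff_sub, coeff_smul, div_mul_cancel₀ _ hσc, sub_self]
    have B : Base (ψ - φ) (n + 1) := ⟨DS1_sub hψ (hDS φ h1), hN.sub h2, al_hom (hN.sub h2) h3⟩
    refine ⟨φ, h1, h2, fun w hw => ?_, fun h => absurd h hE⟩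
    have := B.cod2_odd hO w hw
    rw [coeff_sub] at this
    linarith

end Pool.Agent.MP_a57f33_nt
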