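import Pool.Agent.Lib.MP_a57f33_nt.Defs

/-!
Coefficients of elements of free algebras.
-/

namespace Pool.Agent.MP_a57f33_nt

attribute [local instance 100] LieRing.ofAssociativeRing

variable {X : Type}

/-- The monomial of a word. -/
noncomputable def word (w : List X) : FreeAlgebra ℚ X := (w.map (FreeAlgebra.ι ℚ)).prod

@[simp] lemma word_nil : word ([] : List X) = 1 := rfl

@[simp] lemma word_cons (a : X) (w : List X) :
    word (a :: w) = FreeAlgebra.ι ℚ a * word w := by
  simp [word]

lemma word_append (v w : List X) : word (v ++ w) = word v * word w := by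
  simp [word]

lemma basis_apply (w : List X) :
    FreeAlgebra.basisFreeMonoid ℚ X (FreeMonoid.ofList w) = word w := by
  have h : ∀ w : List X, FreeAlgebra.equivMonoidAlgebraFreeMonoid (R := ℚ) (X := X) (word w) =
      MonoidAlgebra.single (FreeMonoid.ofList w) 1 := by
    intro w
    induction w with
    | nil => simp [MonoidAlgebra.one_def]
    | cons a w ih =>
      rw [word_cons, map_mul, ih]
      have : FreeAlgebra.equivMonoidAlgebraFreeMonoid (R := ℚ) (X := X) (FreeAlgebra.ι ℚ a) =
          MonoidAlgebra.single (FreeMonoid.of a) 1 := by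
        simp [FreeAlgebra.equivMonoidAlgebraFreeMonoid]
      rw [this, MonoidAlgebra.single_mul_single]
      simp
  have h2 := h w
  unfold FreeAlgebra.basisFreeMonoid
  rw [← AlgEquiv.eq_symm_apply] at h2
  rw [h2]
  simp

/-- The coefficient as a linear map. -/
noncomputable def coeffL (w : List X) : FreeAlgebra ℚ X →ₗ[ℚ] ℚ :=
  (FreeAlgebra.basisFreeMonoid ℚ X).coord (FreeMonoid.ofList w)

lemma coeffL_apply (w : List X) (ψ : FreeAlgebra ℚ X) : coeffL w ψ = coeff ψ w := rfl

lemma coeff_add (ψ φ : FreeAlgebra ℚ X) (w : List X) :
    coeff (ψ + φ) w = coeff ψ w + coeff φ w := by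
  simp only [← coeffL_apply, map_add]

lemma coeff_sub (ψ φ : FreeAlgebra ℚ X) (w : List X) :
    coeff (ψ - φ) w = coeff ψ w - coeff φ w := by
  simp only [← coeffL_apply, map_sub]

lemma coeff_smul (r : ℚ) (ψ : FreeAlgebra ℚ X) (w : List X) :
    coeff (r • ψ) w = r * coeff ψ w := by
  simp only [← coeffL_apply, map_smul, smul_eq_mul]

lemma coeff_zero (w : List X) : coeff (0 : FreeAlgebra ℚ X) w = 0 := by
  simp only [← coeffL_apply, map_zero]

lemma coeff_word [DecidableEq X] (v w : List X) :
    coeff (word v) w = if v = w then 1 else 0 := by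
  classical
  unfold coeff
  rw [← basis_apply, Module.Basis.repr_self]
  rw [Finsupp.single_apply]
  by_cases h : v = w
  · simp [h]
  · have h' : ¬ FreeMonoid.ofList v = FreeMonoid.ofList w :=
      fun e => h (FreeMonoid.ofList.injective e)
    simp [h, h']

/-- Two linear maps agreeing on words are equal. -/
lemma linear_ext {M : Type*} [AddCommMonoid M] [Module ℚ M] {f g : FreeAlgebra ℚ X →ₗ[ℚ] M}
    (h : ∀ w, f (word w) = g (word w)) : f = g := by
  refine (FreeAlgebra.basisFreeMonoid ℚ X).ext fun w => ?_
  have := basis_apply (X := X) w.toList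
  rw [FreeMonoid.ofList_toList] at this
  rw [this]
  exact h _

lemma ext_coeff {ψ φ : FreeAlgebra ℚ X} (h : ∀ w, coeff ψ w = coeff φ w) : ψ = φ := by
  apply (FreeAlgebra.basisFreeMonoid ℚ X).repr.injective
  ext w
  exact h w.toList

lemma coeff_iota_mul_nil (a : X) (q : FreeAlgebra ℚ X) :
    coeff (FreeAlgebra.ι ℚ a * q) [] = 0 := by
  classical
  have : (coeffL ([] : List X)).comp (LinearMap.mulLeft ℚ (FreeAlgebra.ι ℚ a)) = 0 := by
    apply linear_ext
    intro w
    simp only [LinearMap.comp_apply, LinearMap.mulLeft_apply, LinearMap.zero_apply,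
      coeffL_apply, ← word_cons, coeff_word]
    simp
  exact LinearMap.congr_fun this q

lemma coeff_iota_mul_cons [DecidableEq X] (a b : X) (q : FreeAlgebra ℚ X) (u : List X) :
    coeff (FreeAlgebra.ι ℚ a * q) (b :: u) = if b = a then coeff q u else 0 := by
  have : (coeffL (b :: u)).comp (LinearMap.mulLeft ℚ (FreeAlgebra.ι ℚ a)) =
      (if b = a then (1 : ℚ) else 0) • coeffL u := by
    apply linear_ext
    intro w
    simp only [LinearMap.comp_apply, LinearMap.mulLeft_apply, LinearMap.smul_apply,
      coeffL_apply, ← word_cons, coeff_word, List.cons.injEq]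
    by_cases h : b = a
    · subst h; simp
    · have h' : ¬ a = b := fun e => h e.symm
      simp [h, h']
  have h2 := LinearMap.congr_fun this q
  simp only [LinearMap.comp_apply, LinearMap.mulLeft_apply, LinearMap.smul_apply,
      coeffL_apply] at h2
  rw [h2]
  split_ifs <;> simp

/-- Convolution of functions on words. -/
def conv : List X → (List X → ℚ) → (List X → ℚ) → ℚ
  | [], f, g => f [] * g []
  | b :: w, f, g => f [] * g (b :: w) + conv w (fun t => f (b :: t)) g

lemma conv_add_left (w : List X) : ∀ f f' g : List X → ℚ,
    conv w (fun t => f t + f' t) g = conv w f g + conv w f' g := by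
  induction w with
  | nil => intro f f' g; simp only [conv]; ring
  | cons b w ih => intro f f' g; simp only [conv, ih]; ring

lemma conv_smul_left (w : List X) : ∀ (r : ℚ) (f g : List X → ℚ),
    conv w (fun t => r * f t) g = r * conv w f g := by
  induction w with
  | nil => intro r f g; simp only [conv]; ring
  | cons b w ih => intro r f g; simp only [conv, ih]; ring

lemma conv_zero_left (w : List X) : ∀ (g : List X → ℚ), conv w (fun _ => 0) g = 0 := by
  induction w with
  | nil => intro g; simp only [conv]; ring
  | cons b w ih => intro g; simp only [conv, ih]; ring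

lemma conv_add_right (w : List X) : ∀ f g g' : List X → ℚ,
    conv w f (fun t => g t + g' t) = conv w f g + conv w f g' := by
  induction w with
  | nil => intro f f' g; simp only [conv]; ring
  | cons b w ih => intro f f' g; simp only [conv, ih]; ring

lemma conv_zero_right (w : List X) : ∀ (f : List X → ℚ), conv w f (fun _ => 0) = 0 := by
  induction w with
  | nil => intro g; simp only [conv]; ring
  | cons b w ih => intro g; simp only [conv, ih]; ring

/-- A function concentrated on the empty word, on the left. -/
lemma conv_delta_left (w : List X) (r : ℚ) (f g : List X → ℚ) (h0 : f [] = r)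
    (h : ∀ t, t ≠ [] → f t = 0) : conv w f g = r * g w := by
  cases w with
  | nil => simp [conv, h0]
  | cons b w =>
    have : (fun t => f (b :: t)) = fun _ => 0 := by
      funext t; exact h _ (by simp)
    simp [conv, h0, this, conv_zero_left]

/-- A function concentrated on the empty word, on the right. -/
lemma conv_delta_right (w : List X) (r : ℚ) : ∀ (f g : List X → ℚ) (_ : g [] = r)
    (_ : ∀ t, t ≠ [] → g t = 0), conv w f g = r * f w := by
  induction w with
  | nil => intro f g h0 h; simp only [conv, h0]; ring
  | cons b w ih =>
    intro f g h0 h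
    simp only [conv]
    rw [ih _ _ h0 h, h (b :: w) (by simp)]
    ring

lemma coeff_mul (ψ φ : FreeAlgebra ℚ X) (w : List X) :
    coeff (ψ * φ) w = conv w (coeff ψ) (coeff φ) := by
  classical
  have key : ∀ (v w : List X), coeff (word v * φ) w = conv w (coeff (word v)) (coeff φ) := by
    intro v
    induction v with
    | nil =>
      intro w
      rw [word_nil, one_mul, conv_delta_left w 1, one_mul]
      · rw [← word_nil, coeff_word]; simp
      · intro t ht; rw [← word_nil, coeff_word]; simp [ht.symm]
    | cons a v ih =>
      intro w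
      cases w with
      | nil =>
        rw [word_cons, mul_assoc, coeff_iota_mul_nil]
        simp only [conv]
        rw [coeff_iota_mul_nil]; ring
      | cons b w =>
        rw [word_cons, mul_assoc, coeff_iota_mul_cons]
        simp only [conv]
        rw [coeff_iota_mul_nil]
        have : (fun t => coeff (FreeAlgebra.ι ℚ a * word v) (b :: t)) =
            fun t => (if b = a then (1 : ℚ) else 0) * coeff (word v) t := by
          funext t; rw [coeff_iota_mul_cons]; split_ifs <;> simp
        rw [this, conv_smul_left, ← ih w]
        split_ifs <;> simp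
  let F : FreeAlgebra ℚ X →ₗ[ℚ] ℚ :=
    { toFun := fun ψ => conv w (coeff ψ) (coeff φ)
      map_add' := by
        intro x y
        rw [← conv_add_left]
        congr 1
        funext t; exact coeff_add _ _ _
      map_smul' := by
        intro r x
        simp only [RingHom.id_apply, smul_eq_mul]
        rw [← conv_smul_left]
        congr 1
        funext t; exact coeff_smul _ _ _ }
  have : (coeffL w).comp (LinearMap.mulRight ℚ φ) = F := by
    apply linear_ext
    intro v
    simp only [LinearMap.comp_apply, LinearMap.mulRight_apply, coeffL_apply]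
    exact key v w
  exact LinearMap.congr_fun this ψ

lemma coeff_iota [DecidableEq X] (a : X) (w : List X) :
    coeff (FreeAlgebra.ι ℚ a) w = if w = [a] then 1 else 0 := by
  have h : FreeAlgebra.ι ℚ a = word [a] := by simp
  rw [h, coeff_word]
  by_cases h2 : w = [a]
  · simp [h2]
  · have : ¬ [a] = w := fun e => h2 e.symm
    simp [h2, this]

end Pool.Agent.MP_a57f33_nt
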