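import Pool.Agent.Lib.MP_a57f33_nt.CycHoff

/-!
The cyclic sum formula follows from the regularised double shuffle relations.
-/

namespace Pool.Agent.MP_a57f33_nt.Cyc

variable {k : Type*} [CommRing k]

lemma star_eq (Z : List Bool → k) (u : List ℕ+) : ∀ γ : ℕ → k,
    star γ Z u = st γ (fun v => Z (toX v)) u := by
  induction u with
  | nil => intro γ; simp [star, st]
  | cons b v ih =>
    intro γ
    unfold star at ih ⊢
    rw [List.length_cons, Finset.sum_range_succ']
    simp only [st, List.take_succ_cons, List.drop_succ_cons, List.take_zero, List.drop_zero,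
      List.replicate_succ, List.cons.injEq, List.replicate_zero, if_true]
    by_cases hb : b = 1
    · simp only [hb, true_and, if_true]
      rw [← ih]
      ring
    · simp [hb]

lemma zz_append (n m : ℕ) (w : List Bool) : zz n ++ (zz m ++ w) = zz (n + m) ++ w := by
  rw [← List.append_assoc, List.replicate_append_replicate]

lemma aftK_zz (v : List Bool) (n : ℕ) (w : List Bool) : ∀ c : List Bool → k,
    aftK true v (zz n ++ w) c = aftK true v w (fun t => c (zz n ++ t)) := by
  induction n with
  | zero => intro c; simp
  | succ n ih =>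
    intro c
    simp only [List.replicate_succ, List.cons_append, aftK]
    rw [ih]; simp

lemma befK_zz (v : List Bool) (n : ℕ) (w : List Bool) : ∀ c : List Bool → k,
    befK true v (zz n ++ w) c = befK true v w (fun t => c (zz n ++ t)) := by
  induction n with
  | zero => intro c; simp
  | succ n ih =>
    intro c
    simp only [List.replicate_succ, List.cons_append, befK]
    rw [ih]; simp

lemma RK_block (m n : ℕ) (t : List Bool) (c : List Bool → k) :
    RK m (zz n ++ true :: t) c =
      c (zz m ++ true :: (zz n ++ true :: t)) + RK m t (fun s => c (zz n ++ true :: s)) +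
        c (zz (n + (m + 1)) ++ true :: t) := by
  unfold RK
  rw [aftK_zz, befK_zz]
  simp only [aftK, befK, if_true]
  rw [zz_append]
  simp only [List.append_assoc, List.cons_append, List.nil_append]
  ring

lemma so_toX (n : ℕ+) (u : List ℕ+) : ∀ c : List Bool → k,
    so n u (fun v => c (toX v)) = RK ((n : ℕ) - 1) (toX u) c := by
  induction u with
  | nil =>
    intro c
    simp [so, toX, RK, aftK, befK]
  | cons b v ih =>
    intro c
    have hn := n.pos
    have hb := b.pos
    have h1 : (fun v => c (toX (b :: v))) =
        fun v => (fun s => c (zz ((b : ℕ) - 1) ++ true :: s)) (toX v) := by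
      funext v; rfl
    rw [so, h1, ih (fun s => c (zz ((b : ℕ) - 1) ++ true :: s))]
    rw [show toX (b :: v) = zz ((b : ℕ) - 1) ++ true :: toX v from rfl, RK_block]
    have h2 : ((n + b : ℕ+) : ℕ) - 1 = (b : ℕ) - 1 + ((n : ℕ) - 1 + 1) := by
      rw [PNat.add_coe]; omega
    simp only [toX, h2]
    ring

lemma conv_pw_toX (Z : List Bool → k) (u : List ℕ+) : ∀ g : ℕ → k,
    conv (pw true g) Z (toX u) = st g (fun v => Z (toX v)) u := by
  induction u with
  | nil => intro g; simp [conv, cut, st, pw, toX]
  | cons b v ih =>
    intro g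
    by_cases hb : b = 1
    · subst hb
      have h1 : toX (1 :: v) = true :: toX v := by simp [toX]
      have h2 : conv (pw true g) Z (true :: toX v) = pw true g [] * Z (true :: toX v) +
          conv (fun t => pw true g (true :: t)) Z (toX v) := rfl
      have h3 : (fun t => pw true g (true :: t)) = pw true (fun n => g (n + 1)) := by
        funext t; exact pw_cons true g t
      rw [h1, h2, h3, ih, pw_nil]
      simp [st, h1]
    · obtain ⟨n, hn⟩ : ∃ n, (b : ℕ) - 1 = n + 1 := by
        have h1 := b.pos
        have h2 : (b : ℕ) ≠ 1 := by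
          intro e; apply hb; apply PNat.eq; simpa using e
        exact ⟨(b : ℕ) - 2, by omega⟩
      have h1 : toX (b :: v) = false :: (zz n ++ true :: toX v) := by
        simp [toX, hn, List.replicate_succ]
      have h2 : conv (pw true g) Z (false :: (zz n ++ true :: toX v)) =
          pw true g [] * Z (false :: (zz n ++ true :: toX v)) +
            cut (zz n ++ true :: toX v) (fun p q => pw true g (false :: p) * Z q) := rfl
      have h3 : cut (zz n ++ true :: toX v) (fun p q => pw true g (false :: p) * Z q) = 0 := by
        refine (cut_congr _ ?_).trans (cut_zero (zz n ++ true :: toX v))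
        intro p q _
        rw [pw_mem _ _ _ (by simp)]; ring
      rw [h1, h2, h3, pw_nil]
      simp [st, hb, h1]

/-- `(-1)^j binom(m+j, m) Z(x₀^(m+j) x₁)`. -/
def hseq (Z : List Bool → k) (m j : ℕ) : k :=
  (-1) ^ j * ((m + j).choose m : k) * Z (zz (m + j) ++ [true])

/-- The sequence `g_j = (-1)^j Z(x₀^j x₁)`. -/
def gseq (Z : List Bool → k) (j : ℕ) : k := (-1) ^ j * Z (zz j ++ [true])

/-- The defect of the extended relations. -/
def EE (Z : List Bool → k) (m : ℕ) (w : List Bool) : k :=
  RK m w Z - (conv Z (pw false (hseq Z m)) w -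
    (if m = 0 then 1 else 0) * conv (pw true (gseq Z)) Z w)

lemma hseq_rel (Z : List Bool → k) (m n : ℕ) :
    ((n : k) + 1) * hseq Z m (n + 1) = - (((m : k) + 1) * hseq Z (m + 1) n) := by
  unfold hseq
  have h1 := Nat.choose_succ_right_eq (m + n + 1) m
  have h2 : m + n + 1 - m = n + 1 := by omega
  rw [h2] at h1
  have h3 : (((m + n + 1).choose (m + 1) : ℕ) : k) * ((m : k) + 1) =
      ((m + n + 1).choose m : k) * ((n : k) + 1) := by
    have := congrArg (fun x : ℕ => (x : k)) h1
    push_cast at this
    exact this
  have e1 : m + (n + 1) = m + n + 1 := by ring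
  have e2 : m + 1 + n = m + n + 1 := by ring
  rw [e1, e2, pow_succ]
  linear_combination (-(-1) ^ n * Z (zz (m + n + 1) ++ [true])) * (-h3)

lemma conv_no_tail (F : List Bool → k) (f : ℕ → k) (w : List Bool)
    (hw : w = [] ∨ ∃ v, w = v ++ [true]) : conv F (pw false f) w = F w * f 0 := by
  rcases hw with rfl | ⟨v, rfl⟩
  · simp [conv, cut, pw]
  · unfold conv
    rw [cut_snoc]
    have : cut v (fun p q => F p * pw false f (q ++ [true])) = 0 := by
      refine (cut_congr v ?_).trans (cut_zero v)
      intro p q _
      rw [pw_mem _ _ _ (by simp)]; ring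
    rw [this, pw_nil]; ring

section
variable {γ : ℕ → k} {Z : List Bool → k} (h : RegDS γ Z)

include h

lemma RegDS.isChar : IsChar Z := ⟨h.one, h.shuffle_rel⟩

lemma RegDS.ins_zero (w : List Bool) : insK false w Z = 0 := by
  rw [← sh_insK, h.isChar.mul, h.x0]; ring

lemma RegDS.ins_one (w : List Bool) : insK true w Z = 0 := by
  rw [← sh_insK, h.isChar.mul, h.x1]; ring

lemma RegDS.so (n : ℕ+) (u : List ℕ+) :
    so n u (st γ (fun v => Z (toX v))) =
      st γ (fun v => Z (toX v)) [n] * st γ (fun v => Z (toX v)) u := by
  have h1 := h.stuffle_rel [n] u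
  have h2 : star γ Z = st γ (fun v => Z (toX v)) := by
    funext u; exact star_eq Z u γ
  rw [h2, so_eq] at h1
  exact h1

lemma RegDS.so_one (u : List ℕ+) :
    Cyc.so 1 u (fun v => Z (toX v)) = - st (gseq Z) (fun v => Z (toX v)) u := by
  have key : ∀ u, st γ (fun v => Cyc.so 1 v (fun v => Z (toX v))) u =
      st γ (fun u => (-1) * st (gseq Z) (fun v => Z (toX v)) u) u := by
    intro u
    have h1 := h.so 1 u
    rw [so_st_one] at h1
    have h2 : γ 1 = 0 := by
      have := h.gamma_succ 0
      simpa [h.x1] using this
    have h3 : st γ (fun v => Z (toX v)) [1] = 0 := by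
      simp [st, toX, h.x1, h2]
    have h4 : (fun i : ℕ => ((i : k) + 1) * γ (i + 1)) =
        fun n => ∑ ij ∈ Finset.HasAntidiagonal.antidiagonal n, γ ij.1 * gseq Z ij.2 := by
      funext n; exact h.gamma_succ n
    rw [h3, h4, ← st_conv] at h1
    rw [st_mul]
    linear_combination h1
  have := (st_inj h.gamma_zero key u).1
  rw [this]; ring

lemma RegDS.so_ne (n : ℕ+) (hn : n ≠ 1) (u : List ℕ+) :
    Cyc.so n u (fun v => Z (toX v)) = Z (toX [n]) * Z (toX u) := by
  have key : ∀ u, st γ (fun v => Cyc.so n v (fun v => Z (toX v))) u =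
      st γ (fun u => Z (toX [n]) * Z (toX u)) u := by
    intro u
    have h1 := h.so n u
    rw [so_st n hn] at h1
    have h3 : st γ (fun v => Z (toX v)) [n] = Z (toX [n]) := by
      simp [st, hn, h.gamma_zero]
    rw [h3] at h1
    rw [st_mul]
    exact h1
  exact (st_inj h.gamma_zero key u).1

lemma RegDS.EE_toX (m : ℕ) (u : List ℕ+) : EE Z m (toX u) = 0 := by
  have hw : toX u = [] ∨ ∃ v, toX u = v ++ [true] := by
    by_cases hu : u = []
    · left; subst hu; rfl
    · right
      clear h
      induction u with
      | nil => exact absurd rfl hu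
      | cons b r ih =>
        cases r with
        | nil => exact ⟨zz ((b : ℕ) - 1), by simp [toX]⟩
        | cons b' r' =>
          obtain ⟨v, hv⟩ := ih (by simp)
          refine ⟨zz ((b : ℕ) - 1) ++ true :: v, ?_⟩
          rw [toX, hv]; simp
  have h0 : ((m.succPNat : ℕ+) : ℕ) - 1 = m := by simp
  have h1 := so_toX m.succPNat u Z
  rw [h0] at h1
  unfold EE
  rw [conv_no_tail Z _ _ hw, conv_pw_toX, ← h1]
  by_cases hm : m = 0
  · subst hm
    have h2 : Nat.succPNat 0 = 1 := rfl
    rw [h2, h.so_one]
    simp [hseq, h.x1]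
  · have h2 : m.succPNat ≠ 1 := by
      intro e
      have := congrArg (fun x : ℕ+ => (x : ℕ)) e
      simp at this
      exact hm this
    rw [h.so_ne _ h2]
    simp [hseq, hm, toX]
    ring

lemma RegDS.EE_rec (m : ℕ) (w : List Bool) :
    insK false w (EE Z m) + ((m : k) + 1) * EE Z (m + 1) w = 0 := by
  have h1 := comm_RK m w Z
  have h2 : (fun t => insK false t Z) = fun _ => 0 := by
    funext t; exact h.ins_zero t
  rw [h2, RK_zero] at h1
  have h3 : insK false w (conv Z (pw false (hseq Z m))) =
      - (((m : k) + 1) * conv Z (pw false (hseq Z (m + 1))) w) := by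
    rw [insK_conv, h2]
    have e1 : (fun t => insK false t (pw false (hseq Z m))) =
        fun t => (-((m : k) + 1)) * pw false (hseq Z (m + 1)) t := by
      funext t
      rw [ins_pw_false]
      unfold pw
      split_ifs
      · have := hseq_rel Z m t.length
        linear_combination this
      · ring
    have e2 : conv (fun _ => (0 : k)) (pw false (hseq Z m)) w = 0 := by
      refine (cut_congr w ?_).trans (cut_zero w)
      intro p q _; ring
    rw [e1, conv_mul_right, e2]
    ring
  have h4 : insK false w (conv (pw true (gseq Z)) Z) = 0 := by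
    rw [insK_conv, h2]
    have e1 : (fun t => insK false t (pw true (gseq Z))) = fun _ => (0 : k) := by
      funext t; exact ins_pw_true _ t
    rw [e1]
    unfold conv
    rw [← cut_add]
    refine (cut_congr w ?_).trans (cut_zero w)
    intro p q _; ring
  have h5 : insK false w (EE Z m) = insK false w (fun t => RK m t Z) -
      (insK false w (conv Z (pw false (hseq Z m))) - (if m = 0 then 1 else 0) *
        insK false w (conv (pw true (gseq Z)) Z)) := by
    have : EE Z m = fun t => (fun t => RK m t Z) t - (fun t => conv Z (pw false (hseq Z m)) t -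
      (fun t => (if m = 0 then 1 else 0) * conv (pw true (gseq Z)) Z t) t) t := rfl
    rw [this, insK_sub, insK_sub, insK_mul]
  rw [h5, h3, h4]
  unfold EE
  rw [if_neg (Nat.succ_ne_zero m)]
  linear_combination -h1

end

lemma vanish [Algebra ℚ k] {E : ℕ → List Bool → k}
    (hrec : ∀ m w, insK false w (E m) + ((m : k) + 1) * E (m + 1) w = 0)
    (h0 : ∀ m, E m [] = 0) (h1 : ∀ m v, E m (v ++ [true]) = 0) (m : ℕ) (w : List Bool) :
    E m w = 0 := by
  have hdiv : ∀ (n : ℕ) (x : k), ((n : k) + 1) * x = 0 → x = 0 := by
    intro n x hx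
    have h2 : algebraMap ℚ k (((n : ℚ) + 1)⁻¹) * ((n : k) + 1) = 1 := by
      have h3 : ((n : k) + 1) = algebraMap ℚ k ((n : ℚ) + 1) := by simp
      rw [h3, ← map_mul, inv_mul_cancel₀ (by positivity), map_one]
    calc x = (algebraMap ℚ k (((n : ℚ) + 1)⁻¹) * ((n : k) + 1)) * x := by rw [h2, one_mul]
      _ = algebraMap ℚ k (((n : ℚ) + 1)⁻¹) * (((n : k) + 1) * x) := by ring
      _ = 0 := by rw [hx, mul_zero]
  have key1 : ∀ a m, E m (zz a) = 0 := by
    intro a
    induction a with
    | zero => intro m; exact h0 m
    | succ a ih =>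
      intro m
      have := hrec m (zz a)
      rw [insK_tail, ih (m + 1)] at this
      apply hdiv a
      linear_combination this
  have key2 : ∀ a m v, E m (v ++ true :: zz a) = 0 := by
    intro a
    induction a with
    | zero => intro m v; exact h1 m v
    | succ a ih =>
      intro m v
      have := hrec m (v ++ true :: zz a)
      rw [insK_append_true, insK_tail, ih (m + 1)] at this
      have h2 : insK false v (fun s => E m (s ++ true :: zz a)) = 0 := by
        apply insK_eq_zero
        intro p q _
        exact ih m _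
      rw [h2] at this
      apply hdiv a
      linear_combination this
  have split : ∀ w : List Bool, (∃ a, w = zz a) ∨ ∃ v a, w = v ++ true :: zz a := by
    intro w
    induction w with
    | nil => left; exact ⟨0, rfl⟩
    | cons d w ih =>
      rcases ih with ⟨a, rfl⟩ | ⟨v, a, rfl⟩
      · cases d with
        | false => left; exact ⟨a + 1, by rw [zz, zz, List.replicate_succ]⟩
        | true => right; exact ⟨[], a, rfl⟩
      · right; exact ⟨d :: v, a, rfl⟩
  rcases split w with ⟨a, rfl⟩ | ⟨v, a, rfl⟩
  · exact key1 a m
  · exact key2 a m v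

lemma toX_surj (v : List Bool) : ∃ u : List ℕ+, toX u = v ++ [true] := by
  have key : ∃ u : List ℕ+, u ≠ [] ∧ toX u = v ++ [true] := by
    induction v with
    | nil => exact ⟨[1], by simp, by simp [toX]⟩
    | cons a v ih =>
      obtain ⟨u, hu, h⟩ := ih
      cases a with
      | true => exact ⟨1 :: u, by simp, by simp [toX, h]⟩
      | false =>
        cases u with
        | nil => exact absurd rfl hu
        | cons m r =>
          refine ⟨(m + 1) :: r, by simp, ?_⟩
          have hm := m.pos
          have h2 : ((m + 1 : ℕ+) : ℕ) - 1 = ((m : ℕ) - 1) + 1 := by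
            rw [PNat.add_coe, PNat.one_coe]; omega
          rw [toX] at h ⊢
          rw [h2, List.replicate_succ, List.cons_append, h]
          simp
  obtain ⟨u, _, hu⟩ := key
  exact ⟨u, hu⟩

lemma MM_eq (w : List Bool) : ∀ c : List Bool → k,
    MM c w = aftK false [true] w c - befK true [false] w c := by
  induction w with
  | nil => intro c; simp [MM, pos, aftK, befK]
  | cons d w ih =>
    intro c
    have h1 : MM c (d :: w) = sg d * c (false :: true :: w) + MM (fun t => c (d :: t)) w := rfl
    rw [h1, ih]
    cases d <;> simp [sg, aftK, befK] <;> ring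

theorem RegDS.MM [Algebra ℚ k] {γ : ℕ → k} {Z : List Bool → k} (h : RegDS γ Z)
    (w : List Bool) : MM Z w = conv (pw true (gseq Z)) Z w - conv Z (pw false (gseq Z)) w := by
  have hE : EE Z 0 w = 0 := by
    apply vanish (E := EE Z) h.EE_rec
    · intro m
      exact h.EE_toX m []
    · intro m v
      obtain ⟨u, hu⟩ := toX_surj v
      rw [← hu]
      exact h.EE_toX m u
  have h1 := aftK_sum w Z
  rw [h.ins_one] at h1
  rw [MM_eq]
  have h2 : hseq Z 0 = gseq Z := by
    funext j; simp [hseq, gseq]
  unfold EE at hE
  rw [h2, if_pos rfl] at hE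
  have h3 : RK 0 w Z = Z (true :: w) + aftK true [true] w Z + befK true [false] w Z := by
    simp [RK]
  rw [h3] at hE
  linear_combination h1 - hE

/-- The cyclic sum formula follows from the regularised double shuffle relations. -/
theorem RegDS.cyc [Algebra ℚ k] {γ : ℕ → k} {Z : List Bool → k} (h : RegDS γ Z)
    (C : List Bool) (h0 : false ∈ C) (h1 : true ∈ C) : cyc Z C = 0 :=
  cyc_zero h.isChar (gseq Z) h.MM C h0 h1

end Pool.Agent.MP_a57f33_nt.Cyc
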