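import Pool.Agent.Lib.MP_a57f33_nt.Defs

/-!
The regularised double shuffle relations and the cyclic sum.
-/

namespace Pool.Agent.MP_a57f33_nt.Cyc

/-- The shuffle product of two words, as the list (with multiplicity) of the words that occur in
it. -/
def shuffle {α : Type} : List α → List α → List (List α)
  | [], v => [v]
  | a :: u, [] => [a :: u]
  | a :: u, b :: v => (shuffle u (b :: v)).map (a :: ·) ++ (shuffle (a :: u) v).map (b :: ·)
termination_by u v => u.length + v.length

/-- The stuffle product of two words in the letters `y_n`, as the list (with multiplicity) of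
the words that occur in it. -/
def stuffle : List ℕ+ → List ℕ+ → List (List ℕ+)
  | [], v => [v]
  | a :: u, [] => [a :: u]
  | a :: u, b :: v =>
    (stuffle u (b :: v)).map (a :: ·) ++ (stuffle (a :: u) v).map (b :: ·) ++
      (stuffle u v).map ((a + b) :: ·)
termination_by u v => u.length + v.length

/-- For a function `Z` on the words in `x₀, x₁`, with generating series `Φ = ∑_w Z(w) w`, the
coefficient of the word `u` in the letters `y_n` in `(∑_i γ_i y₁^i) π_Y(Φ)`: the sum of
`γ_i Z(u_i)` over all `i` such that `u = y₁^i u_i`. -/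
def star {k : Type*} [CommRing k] (γ : ℕ → k) (Z : List Bool → k) (u : List ℕ+) : k :=
  ∑ i ∈ Finset.range (u.length + 1),
    if u.take i = List.replicate i 1 then γ i * Z (toX (u.drop i)) else 0

/-- The regularised double shuffle relations for a function `Z` on the words in `x₀, x₁` with
`Z(1) = 1`, `Z(x₀) = Z(x₁) = 0`: the shuffle product formula for `Z`, and the stuffle product
formula for `Z_* = star γ Z`, where `γ` is given by
`∑ γ_n t^n = exp (∑_{n ≥ 2} ((-1)^(n-1) / n) Z(x₀^(n-1) x₁) t^n)`, that is by `γ_0 = 1` and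
`(n + 1) γ_{n+1} = ∑_{i+j=n} γ_i (-1)^j Z(x₀^j x₁)`. -/
structure RegDS {k : Type*} [CommRing k] (γ : ℕ → k) (Z : List Bool → k) : Prop where
  one : Z [] = 1
  x0 : Z [false] = 0
  x1 : Z [true] = 0
  shuffle_rel : ∀ u v : List Bool, ((shuffle u v).map Z).sum = Z u * Z v
  gamma_zero : γ 0 = 1
  gamma_succ : ∀ n : ℕ, ((n : k) + 1) * γ (n + 1) =
    ∑ ij ∈ Finset.HasAntidiagonal.antidiagonal n,
      γ ij.1 * ((-1) ^ ij.2 * Z (List.replicate ij.2 false ++ [true]))
  stuffle_rel : ∀ u v : List ℕ+, ((stuffle u v).map (star γ Z)).sum = star γ Z u * star γ Z v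

/-- The cyclic sum `∑_a sgn(a) Z(x₀ C_a x₁)` over the letters `a` of the cyclic word `C`, where
`sgn(x₀) = 1`, `sgn(x₁) = -1` and `C_a` is the linear word obtained from the cyclic word `C` by
removing the letter `a` and cutting there. -/
def cyc {k : Type*} [CommRing k] (Z : List Bool → k) (C : List Bool) : k :=
  ∑ i : Fin C.length, (if C.get i then -1 else 1) *
    Z (false :: (C.drop (i + 1) ++ C.take i ++ [true]))

end Pool.Agent.MP_a57f33_nt.Cyc
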