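import Pool.Agent.Lib.MP_a57f33_nt.CycMain

/-!
The regularised double shuffle relations imply the extended Hoffman relation.
-/

namespace Pool.Agent.MP_a57f33_nt.Cyc

variable {k : Type*} [CommRing k]

/-! ### Insertion operators -/

/-- Sum of `c` over all insertions of the letter `a` in a word. -/
def insK (a : Bool) : List Bool → (List Bool → k) → k
  | [], c => c [a]
  | b :: w, c => c (a :: b :: w) + insK a w (fun t => c (b :: t))

/-- Sum of `c` over all insertions of the word `v` right after a letter `b`. -/
def aftK (b : Bool) (v : List Bool) : List Bool → (List Bool → k) → k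
  | [], _ => 0
  | d :: w, c => (if d = b then c (d :: (v ++ w)) else 0) + aftK b v w (fun t => c (d :: t))

/-- Sum of `c` over all insertions of the word `v` right before a letter `b`. -/
def befK (b : Bool) (v : List Bool) : List Bool → (List Bool → k) → k
  | [], _ => 0
  | d :: w, c => (if d = b then c (v ++ d :: w) else 0) + befK b v w (fun t => c (d :: t))

/-- `x₀^m`. -/
abbrev zz (m : ℕ) : List Bool := List.replicate m false

/-- The stuffle by `y_{m+1}`. -/
def RK (m : ℕ) (w : List Bool) (c : List Bool → k) : k :=
  c (zz m ++ true :: w) + aftK true (zz m ++ [true]) w c + befK true (zz (m + 1)) w c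

lemma insK_add (a : Bool) (w : List Bool) : ∀ c c' : List Bool → k,
    insK a w (fun t => c t + c' t) = insK a w c + insK a w c' := by
  induction w with
  | nil => intro c c'; simp only [insK]
  | cons b w ih => intro c c'; simp only [insK, ih]; ring

lemma insK_mul (a : Bool) (w : List Bool) : ∀ (r : k) (c : List Bool → k),
    insK a w (fun t => r * c t) = r * insK a w c := by
  induction w with
  | nil => intro c c'; simp only [insK]
  | cons b w ih => intro c c'; simp only [insK, ih]; ring

lemma insK_zero (a : Bool) (w : List Bool) : insK a w (fun _ => (0 : k)) = 0 := by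
  have := insK_mul a w (0 : k) (fun _ => 0)
  simpa using this

lemma insK_sub (a : Bool) (w : List Bool) (c c' : List Bool → k) :
    insK a w (fun t => c t - c' t) = insK a w c - insK a w c' := by
  have h1 : (fun t => c t - c' t) = fun t => c t + (-1) * c' t := by funext t; ring
  rw [h1, insK_add, insK_mul]; ring

lemma insK_congr (a : Bool) (w : List Bool) : ∀ {c c' : List Bool → k},
    (∀ p q, p ++ q = w → c (p ++ a :: q) = c' (p ++ a :: q)) → insK a w c = insK a w c' := by
  induction w with
  | nil => intro c c' h; exact h [] [] rfl
  | cons b w ih =>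
    intro c c' h
    simp only [insK]
    have h0 : c (a :: b :: w) = c' (a :: b :: w) := h [] (b :: w) rfl
    rw [h0]
    congr 1
    apply ih
    intro p q hpq
    exact h (b :: p) q (by simp [hpq])

lemma insK_eq_zero (a : Bool) (w : List Bool) {c : List Bool → k}
    (h : ∀ p q, p ++ q = w → c (p ++ a :: q) = 0) : insK a w c = 0 := by
  rw [insK_congr a w (c' := fun _ => 0) h, insK_zero]

lemma aftK_add (b : Bool) (v w : List Bool) : ∀ c c' : List Bool → k,
    aftK b v w (fun t => c t + c' t) = aftK b v w c + aftK b v w c' := by
  induction w with
  | nil => intro c c'; simp only [aftK]; ring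
  | cons d w ih => intro c c'; simp only [aftK, ih]; split_ifs <;> ring

lemma befK_add (b : Bool) (v w : List Bool) : ∀ c c' : List Bool → k,
    befK b v w (fun t => c t + c' t) = befK b v w c + befK b v w c' := by
  induction w with
  | nil => intro c c'; simp only [befK]; ring
  | cons d w ih => intro c c'; simp only [befK, ih]; split_ifs <;> ring

lemma aftK_zero (b : Bool) (v w : List Bool) : aftK b v w (fun _ => (0 : k)) = 0 := by
  induction w with
  | nil => simp only [aftK]
  | cons d w ih => simp only [aftK, ih]; split_ifs <;> ring

lemma befK_zero (b : Bool) (v w : List Bool) : befK b v w (fun _ => (0 : k)) = 0 := by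
  induction w with
  | nil => simp only [befK]
  | cons d w ih => simp only [befK, ih]; split_ifs <;> ring

lemma insK_block (m : ℕ) (w : List Bool) : ∀ f : List Bool → k,
    insK false (zz m ++ true :: w) f =
      (m + 1) * f (zz (m + 1) ++ true :: w) + insK false w (fun t => f (zz m ++ true :: t)) := by
  induction m with
  | zero => intro f; simp [insK, List.replicate_succ]
  | succ m ih =>
    intro f
    have h1 : zz (m + 1) ++ true :: w = false :: (zz m ++ true :: w) := by
      simp [List.replicate_succ]
    rw [h1, insK, ih]
    simp only [List.replicate_succ, List.cons_append]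
    push_cast
    ring

lemma comm_aftK (m : ℕ) (w : List Bool) : ∀ c : List Bool → k,
    aftK true (zz m ++ [true]) w (fun t => insK false t c) =
      insK false w (fun t => aftK true (zz m ++ [true]) t c) +
        (m + 1) * aftK true (zz (m + 1) ++ [true]) w c := by
  induction w with
  | nil => intro c; simp [aftK, insK]
  | cons d w ih =>
    intro c
    have e1 : ∀ t, insK false (d :: t) c = c (false :: d :: t) +
        insK false t (fun s => c (d :: s)) := fun t => rfl
    rw [show insK false (d :: w) (fun t => aftK true (zz m ++ [true]) t c) =
      aftK true (zz m ++ [true]) (false :: d :: w) c +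
        insK false w (fun t => aftK true (zz m ++ [true]) (d :: t) c) from rfl]
    simp only [aftK]
    rw [insK_add]
    simp only [e1]
    rw [aftK_add, ih]
    cases d with
    | false => simp [insK_zero]; ring
    | true =>
      simp only [if_true, List.append_assoc, List.cons_append, List.nil_append]
      rw [insK_block m w]
      simp
      ring

lemma comm_befK (n : ℕ) (w : List Bool) : ∀ c : List Bool → k,
    befK true (zz n) w (fun t => insK false t c) =
      insK false w (fun t => befK true (zz n) t c) + n * befK true (zz (n + 1)) w c := by
  induction w with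
  | nil => intro c; simp [befK, insK]
  | cons d w ih =>
    intro c
    have e1 : ∀ t, insK false (d :: t) c = c (false :: d :: t) +
        insK false t (fun s => c (d :: s)) := fun t => rfl
    rw [show insK false (d :: w) (fun t => befK true (zz n) t c) =
      befK true (zz n) (false :: d :: w) c +
        insK false w (fun t => befK true (zz n) (d :: t) c) from rfl]
    simp only [befK]
    rw [insK_add]
    simp only [e1]
    rw [befK_add, ih]
    cases d with
    | false => simp [insK_zero]; ring
    | true =>
      simp only [if_true]
      rw [insK_block n w]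
      simp [List.replicate_succ]
      ring

lemma comm_RK (m : ℕ) (w : List Bool) (c : List Bool → k) :
    RK m w (fun t => insK false t c) =
      insK false w (fun t => RK m t c) + (m + 1) * RK (m + 1) w c := by
  unfold RK
  beta_reduce
  rw [comm_aftK, comm_befK, insK_add, insK_add, insK_block]
  push_cast
  ring

lemma RK_zero (m : ℕ) (w : List Bool) : RK m w (fun _ => (0 : k)) = 0 := by
  unfold RK
  rw [aftK_zero, befK_zero]; ring

lemma aftK_sum (w : List Bool) : ∀ c : List Bool → k,
    c (true :: w) + aftK true [true] w c + aftK false [true] w c = insK true w c := by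
  induction w with
  | nil => intro c; simp [aftK, insK]
  | cons d w ih =>
    intro c
    have := ih (fun t => c (d :: t))
    simp only [aftK, insK]
    cases d <;> simp at this ⊢ <;> linear_combination this

lemma sh_insK (a : Bool) (w : List Bool) : ∀ c : List Bool → k, sh [a] w c = insK a w c := by
  induction w with
  | nil => intro c; simp [sh_nil_right, insK]
  | cons b w ih => intro c; rw [sh_cons_cons, sh_nil_left, ih]; rfl

lemma insK_tail (n : ℕ) : ∀ (f : List Bool → k),
    insK false (zz n) f = (n + 1) * f (zz (n + 1)) := by
  induction n with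
  | zero => intro f; simp [insK]
  | succ n ih =>
    intro f
    have h0 : zz (n + 1) = false :: zz n := List.replicate_succ
    rw [h0, insK, ih]
    simp only [List.replicate_succ]
    push_cast
    ring

lemma insK_append_true (a : Bool) (v : List Bool) (t : List Bool) : ∀ f : List Bool → k,
    insK a (v ++ true :: t) f =
      insK a v (fun s => f (s ++ true :: t)) + insK a t (fun s => f (v ++ true :: s)) := by
  induction v with
  | nil => intro f; simp [insK]
  | cons d v ih =>
    intro f
    simp only [List.cons_append, insK, ih]
    ring

lemma insK_conv (a : Bool) (w : List Bool) : ∀ f g : List Bool → k,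
    insK a w (conv f g) =
      conv (fun t => insK a t f) g w + conv f (fun t => insK a t g) w := by
  induction w with
  | nil => intro f g; simp only [insK, conv, cut]; ring
  | cons b w ih =>
    intro f g
    have h1 : (fun t => conv f g (b :: t)) =
        fun t => f [] * g (b :: t) + conv (fun s => f (b :: s)) g t := by
      funext t; rfl
    simp only [insK]
    rw [h1, insK_add, insK_mul, ih]
    have h2 : conv (fun t => insK a t f) g (b :: w) = insK a [] f * g (b :: w) +
        conv (fun t => insK a (b :: t) f) g w := rfl
    have h3 : conv f (fun t => insK a t g) (b :: w) = f [] * insK a (b :: w) g +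
        conv (fun s => f (b :: s)) (fun t => insK a t g) w := rfl
    have h4 : conv f g (a :: b :: w) = f [] * g (a :: b :: w) + (f [a] * g (b :: w) +
        conv (fun s => f (a :: b :: s)) g w) := rfl
    have h5 : (fun t => insK a (b :: t) f) =
        fun t => f (a :: b :: t) + insK a t (fun s => f (b :: s)) := by
      funext t; rfl
    rw [h2, h3, h4, h5, conv_add_left]
    simp only [insK]
    ring

/-! ### Powers of a letter -/

lemma pw_cons (b : Bool) (g : ℕ → k) (t : List Bool) :
    pw b g (b :: t) = pw b (fun n => g (n + 1)) t := by
  unfold pw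
  simp only [List.length_cons, List.replicate_succ, List.cons.injEq, true_and]

lemma pw_nil (b : Bool) (g : ℕ → k) : pw b g [] = g 0 := by simp [pw]

lemma pw_mem (b : Bool) (g : ℕ → k) (t : List Bool) (h : (!b) ∈ t) : pw b g t = 0 := by
  unfold pw
  rw [if_neg]
  intro e
  rw [e] at h
  have := (List.mem_replicate.mp h).2
  simp at this

lemma ins_pw_true (g : ℕ → k) (w : List Bool) : insK false w (pw true g) = 0 := by
  apply insK_eq_zero
  intro p q _
  apply pw_mem
  simp

lemma ins_pw_false (g : ℕ → k) (w : List Bool) :
    insK false w (pw false g) = pw false (fun n => (n + 1) * g (n + 1)) w := by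
  by_cases hw : true ∈ w
  · rw [pw_mem _ _ _ (by simpa using hw)]
    apply insK_eq_zero
    intro p q hpq
    apply pw_mem
    rw [← hpq] at hw
    simp only [Bool.not_false, List.mem_append, List.mem_cons] at hw ⊢
    tauto
  · have e : w = zz w.length := by
      rw [List.eq_replicate_iff]
      refine ⟨rfl, fun b hb => ?_⟩
      cases b with
      | false => rfl
      | true => exact absurd hb hw
    rw [e, insK_tail]
    simp [pw]

/-! ### Sums over the initial letters `y₁` -/

/-- `∑_i γ_i F(u_i)`, the sum over the `i` such that `u = y₁^i u_i`. -/
def st (γ : ℕ → k) (F : List ℕ+ → k) : List ℕ+ → k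
  | [] => γ 0 * F []
  | b :: v => γ 0 * F (b :: v) + if b = 1 then st (fun i => γ (i + 1)) F v else 0

lemma st_add_seq (F : List ℕ+ → k) (u : List ℕ+) : ∀ γ δ : ℕ → k,
    st (fun i => γ i + δ i) F u = st γ F u + st δ F u := by
  induction u with
  | nil => intro γ δ; simp only [st]; ring
  | cons b v ih => intro γ δ; simp only [st, ih]; split_ifs <;> ring

lemma st_mul (r : k) (F : List ℕ+ → k) (u : List ℕ+) : ∀ γ : ℕ → k,
    st γ (fun t => r * F t) u = r * st γ F u := by
  induction u with
  | nil => intro γ; simp only [st]; ring
  | cons b v ih => intro γ; simp only [st, ih]; split_ifs <;> ring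

lemma st_inj {γ : ℕ → k} (h0 : γ 0 = 1) {F G : List ℕ+ → k} (h : ∀ u, st γ F u = st γ G u)
    (u : List ℕ+) : F u = G u ∧ ∀ δ : ℕ → k, st δ F u = st δ G u := by
  induction u with
  | nil =>
    have h1 : F [] = G [] := by
      have := h []
      simpa [st, h0] using this
    exact ⟨h1, fun δ => by simp only [st, h1]⟩
  | cons b v ih =>
    have h1 : F (b :: v) = G (b :: v) := by
      have := h (b :: v)
      simp only [st, h0, one_mul, ih.2] at this
      exact add_right_cancel this
    exact ⟨h1, fun δ => by simp only [st, h1, ih.2]⟩

lemma st_conv (g : ℕ → k) (F : List ℕ+ → k) (u : List ℕ+) : ∀ γ : ℕ → k,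
    st γ (st g F) u =
      st (fun n => ∑ ij ∈ Finset.HasAntidiagonal.antidiagonal n, γ ij.1 * g ij.2) F u := by
  induction u generalizing g with
  | nil => intro γ; simp [st]; ring
  | cons b v ih =>
    intro γ
    have h1 : (fun n => ∑ ij ∈ Finset.HasAntidiagonal.antidiagonal (n + 1), γ ij.1 * g ij.2) =
        fun n => γ 0 * g (n + 1) +
          ∑ ij ∈ Finset.HasAntidiagonal.antidiagonal n, γ (ij.1 + 1) * g ij.2 := by
      funext n
      rw [Finset.Nat.antidiagonal_succ]
      simp
    have h2 : ∀ n : ℕ → k, st (fun i => γ 0 * n i) F v = γ 0 * st n F v := by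
      intro n
      have key : ∀ (v : List ℕ+) (r : k) (n : ℕ → k), st (fun i => r * n i) F v =
          r * st n F v := by
        intro v
        induction v with
        | nil => intro r n; simp only [st]; ring
        | cons b v ih => intro r n; simp only [st, ih]; split_ifs <;> ring
      exact key v _ n
    simp only [st]
    rw [h1, ih g, st_add_seq, h2]
    simp only [Finset.HasAntidiagonal.antidiagonal]
    split_ifs <;> simp <;> ring

/-- Sum of `f` over the words of the stuffle `y_n * u`. -/
def so (n : ℕ+) : List ℕ+ → (List ℕ+ → k) → k
  | [], f => f [n]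
  | b :: v, f => f (n :: b :: v) + f ((n + b) :: v) + so n v (fun t => f (b :: t))

lemma so_eq (n : ℕ+) (u : List ℕ+) : ∀ f : List ℕ+ → k,
    ((stuffle [n] u).map f).sum = so n u f := by
  induction u with
  | nil => intro f; simp [so, stuffle]
  | cons b v ih =>
    intro f
    rw [so, ← ih, stuffle]
    simp only [List.map_cons, List.sum_cons, List.map_append, List.sum_append, List.map_map,
      stuffle, List.map_nil, List.sum_nil]
    simp only [add_zero]
    rw [show (f ∘ fun x => b :: x) = fun t => f (b :: t) from rfl]
    ring

lemma so_add (n : ℕ+) (u : List ℕ+) : ∀ f g : List ℕ+ → k,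
    so n u (fun t => f t + g t) = so n u f + so n u g := by
  induction u with
  | nil => intro f g; simp only [so]
  | cons b v ih => intro f g; simp only [so, ih]; ring

lemma so_mul (n : ℕ+) (u : List ℕ+) : ∀ (r : k) (f : List ℕ+ → k),
    so n u (fun t => r * f t) = r * so n u f := by
  induction u with
  | nil => intro f g; simp only [so]
  | cons b v ih => intro f g; simp only [so, ih]; ring

lemma so_zero (n : ℕ+) (u : List ℕ+) : so n u (fun _ => (0 : k)) = 0 := by
  have := so_mul n u (0 : k) (fun _ => 0)
  simpa using this

lemma pnat_add_ne (n b : ℕ+) : n + b ≠ 1 := by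
  intro e
  have h3 := congrArg (fun x : ℕ+ => (x : ℕ)) e
  have hn := n.pos
  have hb := b.pos
  simp only [PNat.add_coe, PNat.one_coe] at h3
  omega

lemma so_st_one (F : List ℕ+ → k) (u : List ℕ+) : ∀ γ : ℕ → k,
    so 1 u (st γ F) = st γ (fun v => so 1 v F) u + st (fun i => (i + 1) * γ (i + 1)) F u := by
  induction u with
  | nil => intro γ; simp [so, st]
  | cons b v ih =>
    intro γ
    have h1 : (fun t => st γ F (b :: t)) = fun t => γ 0 * F (b :: t) +
        if b = 1 then st (fun i => γ (i + 1)) F t else 0 := rfl
    simp only [so]
    rw [h1, so_add, so_mul]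
    by_cases hb : b = 1
    · subst hb
      simp only [if_true, ih]
      have h2 : st (fun i : ℕ => ((i : k) + 1) * γ (i + 1)) F (1 :: v) =
          γ 1 * F (1 :: v) + st (fun i : ℕ => ((i : k) + 1 + 1) * γ (i + 1 + 1)) F v := by
        simp [st]
      have h3 : st (fun i : ℕ => ((i : k) + 1 + 1) * γ (i + 1 + 1)) F v =
          st (fun i : ℕ => ((i : k) + 1) * γ (i + 1 + 1)) F v +
            st (fun i : ℕ => γ (i + 1 + 1)) F v := by
        rw [← st_add_seq]
        congr 1
        funext i; ring
      rw [h2, h3]
      simp only [st, so, if_true, pnat_add_ne 1 1, if_false]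
      ring
    · simp only [hb, if_false]
      rw [so_zero]
      simp only [st, so, if_true, hb, pnat_add_ne 1 b, if_false]
      push_cast
      ring

lemma so_st (n : ℕ+) (hn : n ≠ 1) (F : List ℕ+ → k) (u : List ℕ+) : ∀ γ : ℕ → k,
    so n u (st γ F) = st γ (fun v => so n v F) u := by
  induction u with
  | nil => intro γ; simp [so, st, hn]
  | cons b v ih =>
    intro γ
    have h1 : (fun t => st γ F (b :: t)) = fun t => γ 0 * F (b :: t) +
        if b = 1 then st (fun i => γ (i + 1)) F t else 0 := rfl
    simp only [so]
    rw [h1, so_add, so_mul]
    by_cases hb : b = 1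
    · subst hb
      simp only [if_true, ih]
      simp only [st, so, if_true, pnat_add_ne n 1, hn, if_false]
      ring
    · simp only [hb, if_false]
      rw [so_zero]
      simp only [st, so, hb, hn, pnat_add_ne n b, if_false]
      ring

end Pool.Agent.MP_a57f33_nt.Cyc
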