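import Pool.Agent.Lib.MP_a57f33_nt.LieFacts
import Pool.Agent.Lib.MP_a57f33_nt.Bridge

/-!
The relations `(ψ_* | y_n * u) = 0` in terms of insertion operators, and their extension to
all words containing `x₁`.
-/

namespace Pool.Agent.MP_a57f33_nt

lemma aft_zs (v : List Bool) (k : ℕ) (w : List Bool) : ∀ c : List Bool → ℚ,
    aft true v (zs k ++ w) c = aft true v w (fun t => c (zs k ++ t)) := by
  induction k with
  | zero => intro c; simp
  | succ k ih =>
    intro c
    simp only [List.replicate_succ, List.cons_append, aft]
    rw [ih]; simp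

lemma bef_zs (v : List Bool) (k : ℕ) (w : List Bool) : ∀ c : List Bool → ℚ,
    bef true v (zs k ++ w) c = bef true v w (fun t => c (zs k ++ t)) := by
  induction k with
  | zero => intro c; simp
  | succ k ih =>
    intro c
    simp only [List.replicate_succ, List.cons_append, bef]
    rw [ih]; simp

lemma zs_append (k m : ℕ) (w : List Bool) : zs k ++ (zs m ++ w) = zs (k + m) ++ w := by
  rw [← List.append_assoc, List.replicate_append_replicate]

lemma RR_block (m k : ℕ) (t : List Bool) (c : List Bool → ℚ) :
    RR m (zs k ++ true :: t) c =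
      c (zs m ++ true :: (zs k ++ true :: t)) + RR m t (fun s => c (zs k ++ true :: s)) +
        c (zs (k + (m + 1)) ++ true :: t) := by
  unfold RR
  rw [aft_zs, bef_zs]
  simp only [aft, bef, if_true]
  rw [zs_append]
  simp only [List.append_assoc, List.cons_append, List.nil_append]
  ring

lemma stuffle_toX (n : ℕ+) (u : List ℕ+) : ∀ c : List Bool → ℚ,
    ((stuffle [n] u).map (fun v => c (toX v))).sum = RR ((n : ℕ) - 1) (toX u) c := by
  induction u with
  | nil =>
    intro c
    simp [stuffle, toX, RR, aft, bef]
  | cons b v ih =>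
    intro c
    have hn := n.pos
    have hb := b.pos
    rw [stuffle, List.map_append, List.map_append, List.sum_append, List.sum_append]
    rw [List.map_map, List.map_map, List.map_map]
    have h1 : (fun v => c (toX v)) ∘ (fun x => b :: x) =
        fun v => (fun s => c (zs ((b : ℕ) - 1) ++ true :: s)) (toX v) := by
      funext v; rfl
    rw [h1, ih (fun s => c (zs ((b : ℕ) - 1) ++ true :: s))]
    rw [show toX (b :: v) = zs ((b : ℕ) - 1) ++ true :: toX v from rfl, RR_block]
    have h2 : ((n + b : ℕ+) : ℕ) - 1 = (b : ℕ) - 1 + ((n : ℕ) - 1 + 1) := by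
      rw [PNat.add_coe]; omega
    simp only [stuffle, List.map_cons, List.map_nil, List.sum_cons, List.sum_nil,
      Function.comp_apply, toX, h2, add_zero]

/-- `α_{m+1}`, the coefficient of `x₀^m x₁`. -/
def al (c : List Bool → ℚ) (m : ℕ) : ℚ := c (zs m ++ [true])

lemma stuffle_allOne (n : ℕ+) (u : List ℕ+) : ∀ φ : ℕ → ℚ,
    ((stuffle [n] u).map (fun w => if w = List.replicate w.length 1 then φ w.length else 0)).sum =
      if n = 1 ∧ u = List.replicate u.length 1 then (u.length + 1) * φ (u.length + 1) else 0 := by
  induction u with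
  | nil =>
    intro φ
    simp [stuffle]
  | cons b v ih =>
    intro φ
    rw [stuffle, List.map_append, List.map_append, List.sum_append, List.sum_append]
    rw [List.map_map, List.map_map, List.map_map]
    have h1 : (fun w : List ℕ+ => if w = List.replicate w.length 1 then φ w.length else 0) ∘
        (fun x => b :: x) =
        fun w => if w = List.replicate w.length 1 then (fun l => if b = 1 then φ (l + 1) else 0)
          w.length else 0 := by
      funext w
      simp only [Function.comp_apply, List.length_cons, List.replicate_succ, List.cons.injEq]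
      by_cases hb : b = 1 <;> simp [hb]
    have h2 : n + b ≠ 1 := by
      intro e
      have h3 := congrArg (fun x : ℕ+ => (x : ℕ)) e
      have hn := n.pos
      have hb := b.pos
      simp only [PNat.add_coe, PNat.one_coe] at h3
      omega
    rw [h1, ih (fun l => if b = 1 then φ (l + 1) else 0)]
    simp only [stuffle, List.map_cons, List.map_nil, List.sum_cons, List.sum_nil,
      Function.comp_apply, List.length_cons, List.replicate_succ, List.cons.injEq, h2, false_and,
      if_false, add_zero]
    by_cases hn : n = 1
    · by_cases hb : b = 1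
      · by_cases hv : v = List.replicate v.length 1
        · simp only [hn, hb, true_and, if_true, ← hv]
          push_cast
          ring
        · simp only [hn, hb, hv, if_false, and_false]
          ring
      · simp only [hb, false_and, and_false, if_false]
        simp
    · simp [hn]

lemma toX_replicate (l : ℕ) : toX (List.replicate l 1) = List.replicate l true := by
  induction l with
  | zero => rfl
  | succ l ih => simp [List.replicate_succ, toX, ih]

lemma false_notMem_toX (u : List ℕ+) : false ∉ toX u ↔ u = List.replicate u.length 1 := by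
  induction u with
  | nil => simp [toX]
  | cons b v ih =>
    have hb := b.pos
    simp only [toX, List.mem_append, List.mem_cons, List.length_cons, List.replicate_succ,
      List.cons.injEq, not_or, ← ih]
    constructor
    · rintro ⟨h1, _, h3⟩
      refine ⟨?_, h3⟩
      apply PNat.eq
      by_contra hne
      apply h1
      rw [List.mem_replicate]
      refine ⟨?_, rfl⟩
      intro h0
      apply hne
      rw [PNat.one_coe]
      omega
    · rintro ⟨rfl, h3⟩
      simp [h3]

lemma exists_toX (v : List Bool) : ∃ u : List ℕ+, u ≠ [] ∧ toX u = v ++ [true] := by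
  induction v with
  | nil => exact ⟨[1], by simp, by simp [toX]⟩
  | cons a v ih =>
    obtain ⟨u, hu, h⟩ := ih
    cases a with
    | true => exact ⟨1 :: u, by simp, by simp [toX, h]⟩
    | false =>
      cases u with
      | nil => exact absurd rfl hu
      | cons m r =>
        refine ⟨(m + 1) :: r, by simp, ?_⟩
        have hm := m.pos
        have h2 : ((m + 1 : ℕ+) : ℕ) - 1 = ((m : ℕ) - 1) + 1 := by
          rw [PNat.add_coe, PNat.one_coe]; omega
        rw [toX] at h ⊢
        rw [h2, List.replicate_succ, List.cons_append, h]
        simp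

lemma toX_ends (u : List ℕ+) (hu : u ≠ []) : ∃ v, toX u = v ++ [true] := by
  induction u with
  | nil => exact absurd rfl hu
  | cons b r ih =>
    cases r with
    | nil => exact ⟨zs ((b : ℕ) - 1), by simp [toX]⟩
    | cons b' r' =>
      obtain ⟨v, hv⟩ := ih (by simp)
      refine ⟨zs ((b : ℕ) - 1) ++ true :: v, ?_⟩
      rw [toX, hv]; simp

/-- The value which `RR m w c` should have. -/
def target (c : List Bool → ℚ) (m : ℕ) (w : List Bool) : ℚ :=
  if m = 0 ∧ false ∉ w then (-1) ^ (w.length + 1) * al c w.length else 0

lemma starCoeff_eq (ψ : QX) (u : List ℕ+) :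
    starCoeff ψ u = (fun v => coeff ψ (toX v)) u +
      (fun w : List ℕ+ => if w = List.replicate w.length 1 then
        (fun l : ℕ => if 2 ≤ l then (-1) ^ (l - 1) / (l : ℚ) * al (coeff ψ) (l - 1) else 0)
          w.length else 0) u := by
  unfold starCoeff al
  by_cases h1 : 2 ≤ u.length
  · by_cases h2 : u = List.replicate u.length 1
    · simp only [h1, true_and, if_true, ← h2]
    · simp only [h2, and_false, if_false]
  · simp only [h1, false_and, if_false]
    simp

lemma star_sum (ψ : QX) (n : ℕ+) (u : List ℕ+) (hu : u ≠ []) :
    ((stuffleOne n u).map (starCoeff ψ)).sum =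
      RR ((n : ℕ) - 1) (toX u) (coeff ψ) - target (coeff ψ) ((n : ℕ) - 1) (toX u) := by
  rw [stuffle_one_sum]
  have h0 : starCoeff ψ = fun u => (fun v => coeff ψ (toX v)) u +
      (fun w : List ℕ+ => if w = List.replicate w.length 1 then
        (fun l : ℕ => if 2 ≤ l then (-1) ^ (l - 1) / (l : ℚ) * al (coeff ψ) (l - 1) else 0)
          w.length else 0) u := by
    funext u; exact starCoeff_eq ψ u
  rw [h0, List.sum_map_add, stuffle_toX n u (coeff ψ), stuffle_allOne n u
    (fun l : ℕ => if 2 ≤ l then (-1) ^ (l - 1) / (l : ℚ) * al (coeff ψ) (l - 1) else 0)]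
  have hlen : 1 ≤ u.length := List.length_pos_iff.mpr hu
  have hn := n.pos
  unfold target
  simp only [false_notMem_toX]
  have h1 : ((n : ℕ) - 1 = 0) ↔ n = 1 := by
    constructor
    · intro h; apply PNat.eq; rw [PNat.one_coe]; omega
    · rintro rfl; rfl
  simp only [h1]
  by_cases hc : n = 1 ∧ u = List.replicate u.length 1
  · have h2 : 2 ≤ u.length + 1 := by omega
    rw [if_pos hc, if_pos hc, if_pos h2]
    have h3 : (toX u).length = u.length := by
      conv_lhs => rw [hc.2, toX_replicate]
      simp
    rw [h3]
    have h4 : ((u.length : ℚ) + 1) ≠ 0 := by positivity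
    have h5 : u.length + 1 - 1 = u.length := by omega
    rw [h5]
    push_cast
    field_simp
    ring
  · rw [if_neg hc, if_neg hc]; ring

lemma DS1_iff (ψ : QX) :
    (∀ (n : ℕ+) (u : List ℕ+), u ≠ [] → ((stuffleOne n u).map (starCoeff ψ)).sum = 0) ↔
      ∀ (m : ℕ) (v : List Bool),
        RR m (v ++ [true]) (coeff ψ) = target (coeff ψ) m (v ++ [true]) := by
  constructor
  · intro h m v
    obtain ⟨u, hu, he⟩ := exists_toX v
    have h1 := h m.succPNat u hu
    rw [star_sum ψ _ u hu, he] at h1
    have h2 : ((m.succPNat : ℕ+) : ℕ) - 1 = m := by simp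
    rw [h2] at h1
    linarith
  · intro h n u hu
    obtain ⟨v, hv⟩ := toX_ends u hu
    rw [star_sum ψ n u hu, hv, h]
    ring

/-- Sum over insertions of `x₀` in a word `v x₁ x₀^n`. -/
lemma ins_tail (n : ℕ) : ∀ (f : List Bool → ℚ), ins false (zs n) f = (n + 1) * f (zs (n + 1)) := by
  induction n with
  | zero => intro f; simp [ins]
  | succ n ih =>
    intro f
    have h0 : zs (n + 1) = false :: zs n := List.replicate_succ
    rw [h0, ins, ih]
    simp only [List.replicate_succ]
    push_cast
    ring

lemma ins_append_true (a : Bool) (v : List Bool) (t : List Bool) : ∀ f : List Bool → ℚ,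
    ins a (v ++ true :: t) f =
      ins a v (fun s => f (s ++ true :: t)) + ins a t (fun s => f (v ++ true :: s)) := by
  induction v with
  | nil => intro f; simp [ins]
  | cons d v ih =>
    intro f
    simp only [List.cons_append, ins, ih]
    ring

lemma RR_ins_zero {c : List Bool → ℚ} (hins : ∀ w, w ≠ [] → ins false w c = 0) (m : ℕ)
    (w : List Bool) : RR m w (fun t => ins false t c) = 0 := by
  unfold RR
  have h1 : ins false (zs m ++ true :: w) c = 0 := hins _ (by simp)
  have haft : ∀ (w p v : List Bool), aft true v w (fun t => ins false (p ++ t) c) = 0 := by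
    intro w
    induction w with
    | nil => intro p v; rfl
    | cons d w ih =>
      intro p v
      simp only [aft]
      have e : (fun t => ins false (p ++ d :: t) c) =
          fun t => ins false ((p ++ [d]) ++ t) c := by
        funext t; simp
      rw [e, ih]
      split_ifs
      · rw [hins _ (by simp)]; ring
      · ring
  have hbef : ∀ (w p v : List Bool), bef true v w (fun t => ins false (p ++ t) c) = 0 := by
    intro w
    induction w with
    | nil => intro p v; rfl
    | cons d w ih =>
      intro p v
      simp only [bef]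
      have e : (fun t => ins false (p ++ d :: t) c) =
          fun t => ins false ((p ++ [d]) ++ t) c := by
        funext t; simp
      rw [e, ih]
      split_ifs
      · rw [hins _ (by simp)]; ring
      · ring
  have h3 := haft w [] (zs m ++ [true])
  have h4 := hbef w [] (zs (m + 1))
  simp only [List.nil_append] at h3 h4
  beta_reduce
  rw [h3, h4, h1]; ring

/-- The extension lemma. -/
lemma extend {c : List Bool → ℚ} (hins : ∀ w, w ≠ [] → ins false w c = 0)
    (h : ∀ (m : ℕ) (v : List Bool), RR m (v ++ [true]) c = target c m (v ++ [true])) (a : ℕ) :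
    ∀ (m : ℕ) (v : List Bool), RR m (v ++ true :: zs a) c = target c m (v ++ true :: zs a) := by
  have hRzero : ∀ m w, RR m w (fun t => ins false t c) = 0 := RR_ins_zero hins
  induction a with
  | zero => intro m v; exact h m v
  | succ a ih =>
    intro m v
    have h1 := comm_RR m (v ++ true :: zs a) c
    rw [hRzero, ins_append_true, ins_tail] at h1
    have h2 : ins false v (fun s => RR m (s ++ true :: zs a) c) = 0 := by
      apply ins_eq_zero
      intro p q _
      rw [ih]
      unfold target
      rw [if_neg]
      rintro ⟨_, hh⟩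
      apply hh
      simp
    have h3 : RR (m + 1) (v ++ true :: zs a) c = 0 := by
      rw [ih]
      unfold target
      rw [if_neg]
      rintro ⟨hh, _⟩
      omega
    rw [h2, h3] at h1
    have h4 : target c m (v ++ true :: zs (a + 1)) = 0 := by
      unfold target
      rw [if_neg]
      rintro ⟨_, hh⟩
      apply hh
      simp [List.replicate_succ]
    rw [h4]
    have h5 : ((a : ℚ) + 1) ≠ 0 := by positivity
    have h6 : ((a : ℚ) + 1) * RR m (v ++ true :: zs (a + 1)) c = 0 := by linarith
    exact (mul_eq_zero.mp h6).resolve_left h5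

lemma true_split (w : List Bool) (h : true ∈ w) : ∃ v a, w = v ++ true :: zs a := by
  induction w with
  | nil => simp at h
  | cons d w ih =>
    by_cases hw : true ∈ w
    · obtain ⟨v, a, e⟩ := ih hw
      exact ⟨d :: v, a, by simp [e]⟩
    · have hd : d = true := by
        rcases List.mem_cons.mp h with h | h
        · exact h.symm
        · exact absurd h hw
      refine ⟨[], w.length, ?_⟩
      subst hd
      simp only [List.nil_append, List.cons.injEq, true_and]
      rw [List.eq_replicate_iff]
      refine ⟨rfl, fun b hb => ?_⟩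
      cases b with
      | false => rfl
      | true => exact absurd hb hw

lemma DS1_RR {ψ : QX} (h : ψ ∈ DS1) (m : ℕ) (w : List Bool) (hw : true ∈ w) :
    RR m w (coeff ψ) = target (coeff ψ) m w := by
  obtain ⟨v, a, rfl⟩ := true_split w hw
  exact extend (fun w hw => (lie_ins h.1).2 false w hw) ((DS1_iff ψ).mp h.2.2.2.2) a m v

lemma aft_false_of_notMem (v w : List Bool) (hw : false ∉ w) : ∀ c : List Bool → ℚ,
    aft false v w c = 0 := by
  induction w with
  | nil => intro c; rfl
  | cons d w ih =>
    intro c
    have h1 : d ≠ false := by rintro rfl; simp at hw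
    have h2 : false ∉ w := fun h => hw (List.mem_cons_of_mem _ h)
    simp [aft, h1, ih h2]

lemma bef_false_of_notMem (v w : List Bool) (hw : false ∉ w) : ∀ c : List Bool → ℚ,
    bef false v w c = 0 := by
  induction w with
  | nil => intro c; rfl
  | cons d w ih =>
    intro c
    have h1 : d ≠ false := by rintro rfl; simp at hw
    have h2 : false ∉ w := fun h => hw (List.mem_cons_of_mem _ h)
    simp [bef, h1, ih h2]

lemma RR_zs (m n : ℕ) (c : List Bool → ℚ) : RR m (zs n) c = c (zs m ++ true :: zs n) := by
  unfold RR
  have h1 := aft_zs (zs m ++ [true]) n [] c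
  have h2 := bef_zs (zs (m + 1)) n [] c
  simp only [List.append_nil, aft, bef] at h1 h2
  rw [h1, h2]; ring

lemma coeff_true_zs {ψ : QX} (h : ψ ∈ LieX) (n : ℕ) :
    coeff ψ (true :: zs n) = (-1) ^ n * al (coeff ψ) n := by
  have h1 := lie_reverse h (zs n ++ [true])
  rw [List.reverse_append, List.reverse_replicate] at h1
  simp only [List.reverse_cons, List.reverse_nil, List.nil_append, List.cons_append] at h1
  rw [h1]
  unfold al
  have h2 : (zs n ++ [true]).length + 1 = n + 2 := by simp
  rw [h2]
  congr 1
  ring

/-- For `ψ ∈ DS1`, the coefficients of `x₀ x₁^n` and `x₀^n x₁` agree. -/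
lemma DS1_dual_depth_one {ψ : QX} (h : ψ ∈ DS1) (n : ℕ) (hn : 1 ≤ n) :
    coeff ψ (false :: List.replicate n true) = al (coeff ψ) n := by
  have hmem : true ∈ List.replicate n true := by
    rw [List.mem_replicate]; exact ⟨by omega, rfl⟩
  have hnot : false ∉ List.replicate n true := by
    rw [List.mem_replicate]; simp
  have hne : List.replicate n true ≠ [] := by
    intro e; rw [e] at hmem; simp at hmem
  have h1 := DS1_RR h 0 (List.replicate n true) hmem
  have h2 := aft_sum (List.replicate n true) (coeff ψ)
  have h3 := bef_sum (List.replicate n true) (coeff ψ)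
  rw [aft_false_of_notMem _ _ hnot, (lie_ins h.1).2 _ _ hne] at h2
  rw [bef_false_of_notMem _ _ hnot, (lie_ins h.1).2 _ _ hne] at h3
  unfold target at h1
  rw [if_pos ⟨rfl, hnot⟩] at h1
  have h4 : RR 0 (List.replicate n true) (coeff ψ) =
      coeff ψ (true :: List.replicate n true) +
        aft true [true] (List.replicate n true) (coeff ψ) +
        bef true [false] (List.replicate n true) (coeff ψ) := by
    simp [RR]
  have h5 := lie_reverse h.1 (false :: List.replicate n true)
  rw [List.reverse_cons, List.reverse_replicate] at h5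
  simp only [List.length_cons, List.length_replicate] at h5 h1
  rw [h4] at h1
  have h6 : ((-1 : ℚ) ^ n) * (-1) ^ n = 1 := by
    rw [← mul_pow]; simp
  have h7 : (-1 : ℚ) ^ (n + 1) * al (coeff ψ) n =
      -((-1) ^ (n + 1 + 1) * coeff ψ (false :: List.replicate n true)) := by
    rw [← h5, ← h1]; linarith
  have h8 : (-1 : ℚ) ^ n * al (coeff ψ) n =
      (-1) ^ n * coeff ψ (false :: List.replicate n true) := by
    rw [pow_succ, pow_succ, pow_succ] at h7
    linarith
  have h9 : (-1 : ℚ) ^ n ≠ 0 := by
    intro h0; rw [h0] at h6; simp at h6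
  exact (mul_left_cancel₀ h9 h8).symm

lemma eq_replicate_of_notMem {w : List Bool} (h : false ∉ w) :
    w = List.replicate w.length true := by
  rw [List.eq_replicate_iff]
  refine ⟨rfl, fun b hb => ?_⟩
  cases b with
  | false => exact absurd hb h
  | true => rfl

/-- `DS1` is stable under duality. -/
theorem dual_mem_DS1 {ψ : QX} (h : ψ ∈ DS1) : dual ψ ∈ DS1 := by
  have hL : dual ψ ∈ LieX := dual_mem_LieX h.1
  have hc : coeff (dual ψ) = fun t => coeff ψ (dualWord t) := by
    funext t; exact coeff_dual ψ t
  have hR1 : ∀ w, w ≠ [] → RR 0 w (coeff (dual ψ)) = - RR 0 (dualWord w) (coeff ψ) := by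
    intro w hw
    have h1 := RR_add_RB w (coeff (dual ψ))
    rw [(lie_ins hL).2 _ _ hw, (lie_ins hL).2 _ _ hw] at h1
    have h2 : RB w (coeff (dual ψ)) = RR 0 (dualWord w) (coeff ψ) := by
      rw [hc]; exact RB_dual w (coeff ψ)
    rw [h2] at h1
    linarith
  have hal : ∀ n, 1 ≤ n → al (coeff (dual ψ)) n = al (coeff ψ) n := by
    intro n hn
    rw [← DS1_dual_depth_one h n hn]
    unfold al
    rw [coeff_dual]
    simp [dualWord]
  have h0 : ∀ w, true ∈ w → RR 0 w (coeff (dual ψ)) = target (coeff (dual ψ)) 0 w := by
    intro w hw
    have hne : w ≠ [] := by rintro rfl; simp at hw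
    rw [hR1 w hne]
    unfold target
    by_cases hf : false ∈ w
    · rw [if_neg (by rintro ⟨_, h2⟩; exact h2 hf)]
      have h1 : true ∈ dualWord w := by rw [mem_dualWord]; exact hf
      rw [DS1_RR h 0 _ h1]
      unfold target
      rw [if_neg]
      · ring
      · rintro ⟨_, h2⟩
        apply h2
        rw [mem_dualWord]; exact hw
    · rw [if_pos ⟨rfl, hf⟩]
      have hlen : 1 ≤ w.length := List.length_pos_iff.mpr hne
      rw [hal _ hlen]
      have h1 : dualWord w = zs w.length := by
        conv_lhs => rw [eq_replicate_of_notMem hf]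
        simp [dualWord]
      rw [h1, RR_zs]
      have h2 : zs 0 ++ true :: zs w.length = true :: zs w.length := rfl
      rw [h2, coeff_true_zs h.1]
      ring
  have hall : ∀ m w, true ∈ w → RR m w (coeff (dual ψ)) = target (coeff (dual ψ)) m w := by
    intro m
    induction m with
    | zero => exact h0
    | succ m ih =>
      intro w hw
      have h1 := comm_RR m w (coeff (dual ψ))
      rw [RR_ins_zero (fun w hw => (lie_ins hL).2 _ w hw)] at h1
      have h2 : ins false w (fun t => RR m t (coeff (dual ψ))) = 0 := by
        apply ins_eq_zero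
        intro p q hpq
        have h3 : true ∈ p ++ false :: q := by
          rw [← hpq] at hw
          simp only [List.mem_append, List.mem_cons] at hw ⊢
          tauto
        rw [ih _ h3]
        unfold target
        rw [if_neg]
        rintro ⟨_, h4⟩
        apply h4
        simp
      rw [h2] at h1
      have h5 : ((m : ℚ) + 1) ≠ 0 := by positivity
      have h6 : ((m : ℚ) + 1) * RR (m + 1) w (coeff (dual ψ)) = 0 := by linarith
      rw [(mul_eq_zero.mp h6).resolve_left h5]
      unfold target
      rw [if_neg]
      rintro ⟨h7, _⟩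
      omega
  refine ⟨hL, ?_, ?_, ?_, ?_⟩
  · rw [coeff_dual]; exact h.2.2.1
  · rw [coeff_dual]; exact h.2.1
  · rw [coeff_dual]; exact h.2.2.2.1
  · rw [DS1_iff]
    intro m v
    exact hall m _ (by simp)

end Pool.Agent.MP_a57f33_nt
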