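import Pool.Agent.Lib.MP_a57f33_nt.CycDS
import Pool.Agent.Lib.MP_a57f33_nt.DepthOne

/-!
The cyclic sum formula on `dm₀`.
-/

namespace Pool.Agent.MP_a57f33_nt.Cyc

attribute [local instance 100] LieRing.ofAssociativeRing

section
variable {α : Type} {k : Type*} [CommRing k]

lemma sh_add (n : ℕ) : ∀ u v : List α, u.length + v.length = n → ∀ f g : List α → k,
    sh u v (fun t => f t + g t) = sh u v f + sh u v g := by
  intro u v _ f g
  unfold sh
  rw [← List.sum_map_add]

lemma sh_mul (u v : List α) (r : k) (f : List α → k) :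
    sh u v (fun t => r * f t) = r * sh u v f := by
  unfold sh
  rw [List.sum_map_mul_left]

lemma sh_conv (n : ℕ) : ∀ u v : List α, u.length + v.length = n → ∀ f g : List α → k,
    sh u v (conv f g) = cut u (fun u1 u2 => cut v (fun v1 v2 => sh u1 v1 f * sh u2 v2 g)) := by
  induction n using Nat.strong_induction_on with
  | _ n ih =>
    intro u v hn f g
    cases u with
    | nil =>
      simp only [cut, sh_nil_left]
      rfl
    | cons a u =>
      cases v with
      | nil =>
        simp only [cut, sh_nil_right]
        rfl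
      | cons b v =>
        have e1 : ∀ c : α, (fun t => conv f g (c :: t)) =
            fun t => (f [] * g (c :: t)) + conv (fun s => f (c :: s)) g t := by
          intro c; funext t; rfl
        have hl : u.length + v.length + 2 = n := by simp at hn; omega
        rw [sh_cons_cons, e1, e1, sh_add _ _ _ rfl, sh_add _ _ _ rfl, sh_mul, sh_mul,
          ih (u.length + v.length + 1) (by omega) u (b :: v) (by simp; omega),
          ih (u.length + v.length + 1) (by omega) (a :: u) v (by simp; omega)]
        have e2 : f [] * sh u (b :: v) (fun t => g (a :: t)) +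
            f [] * sh (a :: u) v (fun t => g (b :: t)) = f [] * sh (a :: u) (b :: v) g := by
          rw [sh_cons_cons]; ring
        simp only [cut, sh_nil_left, sh_nil_right]
        have e3 : cut u (fun p q => f (a :: p) * sh q (b :: v) g +
            cut v (fun p_1 q_1 => sh (a :: p) (b :: p_1) f * sh q q_1 g)) =
            cut u (fun u1 u2 => f (a :: u1) * sh u2 (b :: v) g +
              cut v (fun p q => sh u1 (b :: p) (fun s => f (a :: s)) * sh u2 q g)) +
            cut u (fun u1 u2 => cut v (fun v1 v2 =>
              sh (a :: u1) v1 (fun s => f (b :: s)) * sh u2 v2 g)) := by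
          rw [← cut_add]
          apply cut_congr
          intro u1 u2 _
          rw [add_assoc, ← cut_add]
          congr 1
          apply cut_congr
          intro v1 v2 _
          rw [sh_cons_cons]; ring
        rw [e3]
        linear_combination e2

/-- A cut whose inner terms vanish. -/
lemma cut_ends {c : List α} (hc : c ≠ []) {F : List α → List α → k}
    (h : ∀ p q, p ≠ [] → q ≠ [] → p ++ q = c → F p q = 0) : cut c F = F [] c + F c [] := by
  cases c with
  | nil => exact absurd rfl hc
  | cons e c =>
    rcases List.eq_nil_or_concat c with rfl | ⟨c2, z, rfl⟩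
    · simp [cut]
    · rw [List.concat_eq_append] at h ⊢
      simp only [cut]
      rw [cut_snoc]
      have : cut c2 (fun p q => F (e :: p) (q ++ [z])) = 0 := by
        refine (cut_congr c2 ?_).trans (cut_zero c2)
        intro p q hpq
        exact h _ _ (by simp) (by simp) (by simp [← hpq])
      rw [this]; ring

/-- Functionals vanishing on the empty word and on all proper shuffles. -/
def IsPrim (f : List α → k) : Prop :=
  f [] = 0 ∧ ∀ u v : List α, u ≠ [] → v ≠ [] → sh u v f = 0

lemma IsPrim.sh_conv {f g : List α → k} (hf : IsPrim f) (hg : IsPrim g) {u v : List α}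
    (hu : u ≠ []) (hv : v ≠ []) : sh u v (conv f g) = f u * g v + f v * g u := by
  rw [Cyc.sh_conv _ u v rfl f g, cut_ends hu]
  · rw [cut_ends hv, cut_ends hv]
    · simp only [sh_nil_left, sh_nil_right, hf.1, hg.1, hf.2 u v hu hv, hg.2 u v hu hv]
      ring
    · intro p q hp _ _
      rw [hf.2 u p hu hp]; ring
    · intro p q _ hq _
      rw [hg.2 u q hu hq]; ring
  · intro p q hp hq _
    refine (cut_congr v ?_).trans (cut_zero v)
    intro v1 v2 hvv
    by_cases h1 : v1 = []
    · subst h1
      rw [List.nil_append] at hvv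
      subst hvv
      rw [hg.2 q _ hq hv]; ring
    · rw [hf.2 p v1 hp h1]; ring

lemma sh_length (n : ℕ) : ∀ u v : List α, u.length + v.length = n → ∀ f g : List α → k,
    (∀ t : List α, t.length = n → f t = g t) → sh u v f = sh u v g := by
  induction n using Nat.strong_induction_on with
  | _ n ih =>
    intro u v hn f g h
    cases u with
    | nil => rw [sh_nil_left, sh_nil_left]; exact h v (by simpa using hn)
    | cons a u =>
      cases v with
      | nil => rw [sh_nil_right, sh_nil_right]; exact h _ (by simpa using hn)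
      | cons b v =>
        have hl : u.length + v.length + 2 = n := by simp at hn; omega
        rw [sh_cons_cons, sh_cons_cons,
          ih (u.length + v.length + 1) (by omega) u (b :: v) (by simp; omega) _
            (fun t => g (a :: t)) (fun t ht => h _ (by simp; omega)),
          ih (u.length + v.length + 1) (by omega) (a :: u) v (by simp; omega) _
            (fun t => g (b :: t)) (fun t ht => h _ (by simp; omega))]

end

lemma conv_eq_conv (f g : List Bool → ℚ) (w : List Bool) :
    MP_a57f33_nt.conv w f g = Cyc.conv f g w := by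
  induction w generalizing f with
  | nil => rfl
  | cons b w ih =>
    have : Cyc.conv f g (b :: w) = f [] * g (b :: w) + Cyc.conv (fun t => f (b :: t)) g w := rfl
    rw [this, ← ih]
    rfl

/-- Lie elements vanish on proper shuffles. -/
lemma lie_prim {ψ : QX} (h : ψ ∈ LieX) : IsPrim (coeff ψ) := by
  refine lie_induction (P := fun ψ => IsPrim (coeff ψ)) ?_ ?_ ?_ ?_ ?_ h
  · intro b
    refine ⟨by simp [coeff_iota], fun u v hu hv => ?_⟩
    rw [sh_length _ u v rfl _ (fun t => 0 * (0 : ℚ)) ?_, sh_mul]
    · ring
    · intro t ht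
      rw [coeff_iota, if_neg]
      · ring
      · rintro rfl
        have h1 := List.length_pos_iff.mpr hu
        have h2 := List.length_pos_iff.mpr hv
        simp at ht
        omega
  · have : coeff (0 : QX) = fun t => 0 * (0 : ℚ) := by funext t; rw [coeff_zero]; ring
    refine ⟨coeff_zero _, fun u v _ _ => ?_⟩
    rw [this, sh_mul]; ring
  · intro x y hx hy
    have : coeff (x + y) = fun t => coeff x t + coeff y t := by funext t; exact coeff_add _ _ _
    refine ⟨by rw [coeff_add, hx.1, hy.1]; ring, fun u v hu hv => ?_⟩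
    rw [this, sh_add _ _ _ rfl, hx.2 u v hu hv, hy.2 u v hu hv]; ring
  · intro r x hx
    have : coeff (r • x) = fun t => r * coeff x t := by funext t; exact coeff_smul _ _ _
    refine ⟨by rw [coeff_smul, hx.1]; ring, fun u v hu hv => ?_⟩
    rw [this, sh_mul, hx.2 u v hu hv]; ring
  · intro x y _ _ hx hy
    have e : coeff (x * y - y * x) = fun t => Cyc.conv (coeff x) (coeff y) t +
        (-1) * Cyc.conv (coeff y) (coeff x) t := by
      funext t
      rw [coeff_sub, coeff_mul, coeff_mul, conv_eq_conv, conv_eq_conv]; ring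
    refine ⟨?_, fun u v hu hv => ?_⟩
    · rw [e]
      simp only [Cyc.conv, cut, hx.1, hy.1]; ring
    · rw [e, sh_add _ _ _ rfl, sh_mul, hx.sh_conv hy hu hv, hy.sh_conv hx hu hv]
      ring

/-- The dual numbers. -/
abbrev DN : Type := TrivSqZeroExt ℚ ℚ

/-- The character `1 + ε c`. -/
def ZZ (c : List Bool → ℚ) (w : List Bool) : DN :=
  if w = [] then 1 else TrivSqZeroExt.inr (c w)

lemma inr_sum (l : List (List Bool)) (c : List Bool → ℚ) :
    (l.map (fun t => (TrivSqZeroExt.inr (c t) : DN))).sum =
      TrivSqZeroExt.inr ((l.map c).sum) := by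
  induction l with
  | nil => simp
  | cons t l ih =>
    rw [List.map_cons, List.sum_cons, ih, List.map_cons, List.sum_cons, TrivSqZeroExt.inr_add]

lemma ZZ_char {c : List Bool → ℚ} (h : IsPrim c) : IsChar (ZZ c) := by
  refine ⟨by simp [ZZ], fun u v => ?_⟩
  by_cases hu : u = []
  · subst hu; rw [sh_nil_left]; simp [ZZ]
  · by_cases hv : v = []
    · subst hv; rw [sh_nil_right]; simp [ZZ]
    · rw [sh_length _ u v rfl _ (fun t => TrivSqZeroExt.inr (c t)) ?_]
      · unfold sh
        rw [inr_sum]
        have : ((shuffle u v).map c).sum = 0 := h.2 u v hu hv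
        rw [this]
        simp [ZZ, hu, hv]
      · intro t ht
        rw [ZZ, if_neg]
        rintro rfl
        have h1 := List.length_pos_iff.mpr hu
        simp at ht
        omega

lemma MM_ZZ (w : List Bool) (c : List Bool → ℚ) :
    MM (ZZ c) w = TrivSqZeroExt.inr (MM c w) := by
  have key : ∀ (w : List Bool) (K : List Bool → Bool → List Bool → ℚ),
      pos w (fun p a q => (TrivSqZeroExt.inr (K p a q) : DN)) =
        TrivSqZeroExt.inr (pos w K) := by
    intro w
    induction w with
    | nil => intro K; simp [pos]
    | cons e w ih => intro K; simp only [pos, ih]; rw [TrivSqZeroExt.inr_add]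
  unfold MM
  rw [← key]
  apply pos_congr
  intro p a q _
  have h1 : ZZ c (p ++ false :: true :: q) = TrivSqZeroExt.inr (c (p ++ false :: true :: q)) := by
    rw [ZZ, if_neg (by simp)]
  rw [h1]
  cases a <;> simp [sg]

lemma conv_ZZ_left (b : Bool) (g : ℕ → ℚ) (hg : g 0 = 0) (c : List Bool → ℚ)
    (w : List Bool) :
    Cyc.conv (pw b (fun n => (TrivSqZeroExt.inr (g n) : DN))) (ZZ c) w =
      TrivSqZeroExt.inr (pw b g w) := by
  have e : ∀ p, pw b (fun n => (TrivSqZeroExt.inr (g n) : DN)) p =
      TrivSqZeroExt.inr (pw b g p) := by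
    intro p; unfold pw; split_ifs <;> simp
  unfold Cyc.conv
  by_cases hw : w = []
  · subst hw
    simp only [cut]
    rw [e, pw_nil, hg]
    simp
  · rw [cut_ends hw]
    · rw [e, e]
      have : pw b g [] = 0 := by rw [pw_nil, hg]
      rw [this]
      simp [ZZ]
    · intro p q _ hq _
      rw [e, ZZ, if_neg hq]
      simp

lemma conv_ZZ_right (b : Bool) (g : ℕ → ℚ) (hg : g 0 = 0) (c : List Bool → ℚ)
    (w : List Bool) :
    Cyc.conv (ZZ c) (pw b (fun n => (TrivSqZeroExt.inr (g n) : DN))) w =
      TrivSqZeroExt.inr (pw b g w) := by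
  have e : ∀ p, pw b (fun n => (TrivSqZeroExt.inr (g n) : DN)) p =
      TrivSqZeroExt.inr (pw b g p) := by
    intro p; unfold pw; split_ifs <;> simp
  unfold Cyc.conv
  by_cases hw : w = []
  · subst hw
    simp only [cut]
    rw [e, pw_nil, hg]
    simp
  · rw [cut_ends hw]
    · rw [e, e]
      have : pw b g [] = 0 := by rw [pw_nil, hg]
      rw [this]
      simp [ZZ]
    · intro p q hp _ _
      rw [e, ZZ, if_neg hp]
      simp

lemma insK_eq (a : Bool) (w : List Bool) : ∀ c : List Bool → ℚ, insK a w c = ins a w c := by
  induction w with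
  | nil => intro c; rfl
  | cons b w ih => intro c; simp only [insK, ins, ih]

lemma aftK_eq (b : Bool) (v w : List Bool) : ∀ c : List Bool → ℚ,
    aftK b v w c = aft b v w c := by
  induction w with
  | nil => intro c; rfl
  | cons d w ih => intro c; simp only [aftK, aft, ih]

lemma befK_eq (b : Bool) (v w : List Bool) : ∀ c : List Bool → ℚ,
    befK b v w c = bef b v w c := by
  induction w with
  | nil => intro c; rfl
  | cons d w ih => intro c; simp only [befK, bef, ih]

lemma MM_DS1 {ψ : QX} (h : ψ ∈ DS1) (w : List Bool) :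
    MM (coeff ψ) w = pw true (gseq (coeff ψ)) w - pw false (gseq (coeff ψ)) w := by
  by_cases hw : w = []
  · subst hw; simp [MM, pos, pw]
  · have h1 := aftK_sum w (coeff ψ)
    rw [insK_eq, (lie_ins h.1).2 true w hw] at h1
    have h2 : MM (coeff ψ) w = - RR 0 w (coeff ψ) := by
      rw [MM_eq]
      have h3 : RR 0 w (coeff ψ) = coeff ψ (true :: w) + aft true [true] w (coeff ψ) +
          bef true [false] w (coeff ψ) := by
        simp [RR]
      rw [h3, ← aftK_eq, ← befK_eq]
      linear_combination h1
    rw [h2]
    by_cases ht : true ∈ w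
    · rw [DS1_RR h 0 w ht]
      unfold target
      by_cases hf : false ∈ w
      · rw [if_neg (by rintro ⟨_, h3⟩; exact h3 hf), pw_mem _ _ _ (by simpa using hf),
          pw_mem _ _ _ (by simpa using ht)]
        ring
      · rw [if_pos ⟨rfl, hf⟩, pw_mem false _ _ (by simpa using ht)]
        unfold pw
        rw [if_pos (eq_replicate_of_notMem hf)]
        unfold gseq al
        rw [pow_succ]; ring
    · have e : w = zs w.length := by
        rw [List.eq_replicate_iff]
        refine ⟨rfl, fun b hb => ?_⟩
        cases b with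
        | false => rfl
        | true => exact absurd hb ht
      have hf : false ∈ w := by
        rw [e, List.mem_replicate]
        exact ⟨fun h3 => hw (List.length_eq_zero_iff.mp h3), rfl⟩
      rw [pw_mem true _ _ (by simpa using hf)]
      have h3 : pw false (gseq (coeff ψ)) w = gseq (coeff ψ) w.length := by
        unfold pw
        rw [if_pos e]
      have h4 : RR 0 w (coeff ψ) = coeff ψ (true :: zs w.length) := by
        conv_lhs => rw [e]
        rw [RR_zs]
        rfl
      rw [h3, h4, coeff_true_zs h.1]
      unfold gseq al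
      ring

/-- The cyclic sum formula on `DS1`. -/
theorem cyc_DS1 {ψ : QX} (h : ψ ∈ DS1) (C : List Bool) (h0 : false ∈ C) (h1 : true ∈ C) :
    cyc (coeff ψ) C = 0 := by
  have hg : gseq (coeff ψ) 0 = 0 := by
    unfold gseq
    have := h.2.2.1
    simp only [pow_zero, one_mul, List.replicate_zero, List.nil_append]
    exact this
  have hM : ∀ w, MM (ZZ (coeff ψ)) w =
      Cyc.conv (pw true (fun n => (TrivSqZeroExt.inr (gseq (coeff ψ) n) : DN)))
        (ZZ (coeff ψ)) w -
      Cyc.conv (ZZ (coeff ψ)) (pw false (fun n => (TrivSqZeroExt.inr (gseq (coeff ψ) n) : DN)))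
        w := by
    intro w
    rw [MM_ZZ, conv_ZZ_left _ _ hg, conv_ZZ_right _ _ hg, MM_DS1 h, TrivSqZeroExt.inr_sub]
  have h2 := cyc_zero (ZZ_char (lie_prim h.1)) _ hM C h0 h1
  have h3 : cyc (ZZ (coeff ψ)) C = TrivSqZeroExt.inr (cyc (coeff ψ) C) := by
    unfold cyc
    have key : ∀ (s : Finset (Fin C.length)) (f : Fin C.length → ℚ),
        ∑ i ∈ s, (TrivSqZeroExt.inr (f i) : DN) = TrivSqZeroExt.inr (∑ i ∈ s, f i) := by
      intro s f
      exact (map_sum (TrivSqZeroExt.inrHom ℚ ℚ) f s).symm
    rw [← key]
    apply Finset.sum_congr rfl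
    intro i _
    have h4 : ZZ (coeff ψ) (false :: (C.drop (i + 1) ++ C.take i ++ [true])) =
        TrivSqZeroExt.inr (coeff ψ (false :: (C.drop (i + 1) ++ C.take i ++ [true]))) := by
      rw [ZZ, if_neg (by simp)]
    rw [h4]
    cases C.get i <;> simp
  rw [h3] at h2
  have := congrArg TrivSqZeroExt.snd h2
  simpa using this

end Pool.Agent.MP_a57f33_nt.Cyc
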