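import Pool.Agent.Lib.MP_a57f33_nt.CycWords

/-!
The cyclic sum formula for shuffle characters satisfying the extended Hoffman relation.
-/

namespace Pool.Agent.MP_a57f33_nt.Cyc

variable {α : Type} {k : Type*} [CommRing k]

/-! ### Shuffle identities -/

lemma anti_left (p : List α) : ∀ (d : α) (Y : List α) (f : List α → k),
    cut p (fun u v => (-1) ^ u.length * sh (u.reverse ++ d :: Y) v f) =
      sh Y p (fun t => f (d :: t)) := by
  induction p with
  | nil => intro d Y f; simp [cut, sh_nil_right]
  | cons e p ih =>
    intro d Y f
    simp only [cut]
    have h1 : cut p (fun u v => (-1) ^ (e :: u).length *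
        sh ((e :: u).reverse ++ d :: Y) v f) = - sh (d :: Y) p (fun t => f (e :: t)) := by
      rw [← ih e (d :: Y) f, ← cut_neg]
      apply cut_congr
      intro u v _
      simp only [List.length_cons, List.reverse_cons, List.append_assoc, List.cons_append,
        List.nil_append, pow_succ]
      ring
    rw [h1]
    simp only [List.length_nil, pow_zero, List.reverse_nil, List.nil_append, one_mul]
    rw [sh_cons_cons]
    ring

lemma anti_zero (n : ℕ) : ∀ c : List α, c.length = n → c ≠ [] → ∀ g : List α → k,
    cut c (fun p q => (-1) ^ q.length * sh q.reverse p g) = 0 := by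
  induction n using Nat.strong_induction_on with
  | _ n ih =>
    intro c hn hc g
    cases c with
    | nil => exact absurd rfl hc
    | cons e c1 =>
      rcases List.eq_nil_or_concat c1 with rfl | ⟨c2, z, rfl⟩
      · simp [cut, sh_nil_left, sh_nil_right]
      · rw [List.concat_eq_append] at hn ⊢
        have hl : c2.length + 2 = n := by simp at hn; omega
        have i1 := ih (c2.length + 1) (by omega) (c2 ++ [z]) (by simp) (by simp)
          (fun t => g (e :: t))
        have i2 := ih (c2.length + 1) (by omega) (e :: c2) (by simp) (by simp)
          (fun t => g (z :: t))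
        rw [cut_snoc] at i1
        simp only [cut] at i2
        rw [cut, cut_snoc]
        have h1 : cut c2 (fun p q => (-1 : k) ^ (q ++ [z]).length *
            sh (q ++ [z]).reverse (e :: p) g) =
            cut c2 (fun p q => (-1) ^ (q ++ [z]).length *
              sh (q ++ [z]).reverse p (fun t => g (e :: t))) -
            cut c2 (fun p q => (-1) ^ q.length * sh q.reverse (e :: p)
              (fun t => g (z :: t))) := by
          rw [sub_eq_add_neg, ← cut_neg, ← cut_add]
          apply cut_congr
          intro p q _
          simp only [List.reverse_append, List.reverse_cons, List.reverse_nil, List.nil_append,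
            List.cons_append, List.length_append, List.length_cons, List.length_nil]
          rw [sh_cons_cons, pow_succ]
          ring
        rw [h1]
        simp only [List.length_append, List.length_cons, List.length_nil, List.reverse_append,
          List.reverse_cons, List.reverse_nil, List.nil_append, List.cons_append,
          sh_nil_left, sh_nil_right, pow_zero, one_mul] at i1 i2 ⊢
        have h2 : (-1 : k) ^ (c2.length + (0 + 1) + 1) = (-1) ^ c2.length := by
          rw [pow_succ, pow_succ]; ring
        have h3 : (-1 : k) ^ (c2.length + 1) = - (-1) ^ c2.length := by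
          rw [pow_succ]; ring
        rw [h3] at i2
        rw [h2]
        linear_combination i1 - i2

lemma anti_right (c : List α) (b : α) (f : List α → k) :
    cut c (fun p q => (-1) ^ q.length * sh (b :: q.reverse) p f) = f (c ++ [b]) := by
  have h := anti_zero _ (c ++ [b]) rfl (by simp) f
  rw [cut_snoc] at h
  simp only [List.length_append, List.length_cons, List.length_nil, List.reverse_append,
    List.reverse_cons, List.reverse_nil, List.nil_append, List.cons_append, sh_nil_left,
    pow_zero, one_mul] at h
  have h1 : cut c (fun p q => (-1 : k) ^ (q.length + (0 + 1)) * sh (b :: q.reverse) p f) =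
      - cut c (fun p q => (-1) ^ q.length * sh (b :: q.reverse) p f) := by
    rw [← cut_neg]
    apply cut_congr
    intro p q _
    rw [zero_add, pow_succ]; ring
  rw [h1] at h
  linear_combination -h

/-! ### Characters -/

/-- `Z` is a character of the shuffle algebra. -/
structure IsChar (Z : List α → k) : Prop where
  one : Z [] = 1
  mul : ∀ u v, sh u v Z = Z u * Z v

section
variable {Z : List α → k} (hZ : IsChar Z)

include hZ

lemma conv_ant_right : conv Z (ant Z) = ee := by
  funext w
  by_cases hw : w = []
  · subst hw; simp [conv, cut, ant, ee, hZ.one]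
  · have := anti_zero _ w rfl hw Z
    rw [ee, if_neg hw, ← this]
    unfold conv ant
    apply cut_congr
    intro p q _
    rw [hZ.mul]; ring

lemma conv_ant_left : conv (ant Z) Z = ee := by
  funext w
  cases w with
  | nil => simp [conv, cut, ant, ee, hZ.one]
  | cons d p =>
    have := anti_left p d [] Z
    rw [sh_nil_left] at this
    unfold conv
    simp only [cut]
    have h1 : cut p (fun u v => ant Z (d :: u) * Z v) =
        - cut p (fun u v => (-1) ^ u.length * sh (u.reverse ++ [d]) v Z) := by
      rw [← cut_neg]
      apply cut_congr
      intro u v _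
      rw [hZ.mul]
      simp only [ant, List.length_cons, List.reverse_cons, pow_succ]
      ring
    rw [h1, this]
    simp [ant, ee, hZ.one]

/-- The key identity `d c b = ∑_{c = u v w} (S(u) d b S(w)) ⧢ v`. -/
lemma key (d b : α) (c : List α) :
    Z (d :: (c ++ [b])) = cut c (fun c' w => (-1) ^ w.length *
      cut c' (fun u v => (-1) ^ u.length * (Z (u.reverse ++ d :: b :: w.reverse) * Z v))) := by
  have h1 := anti_right c b (fun t => Z (d :: t))
  rw [← h1]
  apply cut_congr
  intro c' w _
  rw [← anti_left c' d (b :: w.reverse) Z]
  congr 1
  apply cut_congr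
  intro u v _
  rw [hZ.mul]

end

/-! ### The cyclic sum -/

/-- The sign of a letter: `+1` for `x₀`, `-1` for `x₁`. -/
def sg (b : Bool) : k := if b then -1 else 1

/-- The function `w ↦ g_{|w|}` on the powers of the letter `b`. -/
def pw (b : Bool) (g : ℕ → k) (w : List Bool) : k :=
  if w = List.replicate w.length b then g w.length else 0

/-- `Z(M w)`, where `M` is the derivation `x₀ ↦ x₀x₁`, `x₁ ↦ -x₀x₁`. -/
def MM (Z : List Bool → k) (w : List Bool) : k :=
  pos w (fun p a q => sg a * Z (p ++ false :: true :: q))

lemma cyc_eq (Z : List Bool → k) (C : List Bool) :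
    cyc Z C = rotSum C (fun A => hd A (fun a t => sg a * Z (false :: (t ++ [true])))) := by
  unfold cyc rotSum
  rw [Finset.sum_range]
  apply Finset.sum_congr rfl
  intro i _
  have h1 : C.rotate i = C.get i :: (C.drop (i + 1) ++ C.take i) := by
    rw [List.rotate_eq_drop_append_take i.isLt.le, List.drop_eq_getElem_cons i.isLt]
    rfl
  beta_reduce
  rw [h1]
  rfl

lemma ant_pw (b : Bool) (g : ℕ → k) (w : List Bool) (h : ∃ a ∈ w, a ≠ b) :
    ant (pw b g) w = 0 := by
  obtain ⟨a, ha, hab⟩ := h
  unfold ant pw
  rw [if_neg, mul_zero]
  intro e
  apply hab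
  have : a ∈ w.reverse := by simpa using ha
  rw [e] at this
  exact (List.mem_replicate.mp this).2

theorem cyc_zero {Z : List Bool → k} (hZ : IsChar Z) (g : ℕ → k)
    (hM : ∀ w, MM Z w = conv (pw true g) Z w - conv Z (pw false g) w) (C : List Bool)
    (h0 : false ∈ C) (h1 : true ∈ C) : cyc Z C = 0 := by
  -- the function of the linear words `t = w a u`
  set Pf : List Bool → k := fun t => pos t (fun w a u => sg a *
    ((-1) ^ w.length * ((-1) ^ u.length * Z (u.reverse ++ false :: true :: w.reverse))))
    with hPf
  have e1 : cyc Z C = rotSum C (conv Pf Z) := by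
    rw [cyc_eq]
    have s1 : rotSum C (fun A => hd A (fun a t => sg a * Z (false :: (t ++ [true])))) =
        rotSum C (fun A => cut A (fun P w => hd P (fun a c' => sg a * ((-1) ^ w.length *
          cut c' (fun u v => (-1) ^ u.length *
            (Z (u.reverse ++ false :: true :: w.reverse) * Z v)))))) := by
      unfold rotSum
      apply Finset.sum_congr rfl
      intro r _
      cases hA : C.rotate r with
      | nil => rfl
      | cons a t =>
        simp only [hd, cut]
        rw [key hZ, zero_add, ← cut_mul]
    rw [s1, rotSum_swap]
    unfold rotSum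
    apply Finset.sum_congr rfl
    intro r _
    beta_reduce
    have s0 := cut_hd (C.rotate r) (fun w a c' => (sg a : k) * ((-1) ^ w.length *
      cut c' (fun u v => (-1) ^ u.length *
        (Z (u.reverse ++ false :: true :: w.reverse) * Z v))))
    rw [s0]
    unfold conv
    rw [hPf]
    have s2 := cut_pos (C.rotate r) (fun w a u v => sg a *
      ((-1) ^ w.length * ((-1) ^ u.length * Z (u.reverse ++ false :: true :: w.reverse))) * Z v)
    have s3 : cut (C.rotate r) (fun p q => pos p (fun w a u => sg a *
        ((-1) ^ w.length * ((-1) ^ u.length *
          Z (u.reverse ++ false :: true :: w.reverse)))) * Z q) =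
        cut (C.rotate r) (fun t v => pos t (fun w a u => sg a *
          ((-1) ^ w.length * ((-1) ^ u.length *
            Z (u.reverse ++ false :: true :: w.reverse))) * Z v)) := by
      apply cut_congr
      intro p q _
      rw [mul_comm, ← pos_mul]
      apply pos_congr
      intro w a u _
      ring
    beta_reduce
    rw [s3, s2]
    apply pos_congr
    intro w a c' _
    rw [← cut_mul, ← cut_mul]
    apply cut_congr
    intro u v _
    ring
  have e2 : Pf = fun t => - ant (MM Z) t := by
    funext t
    rw [hPf]
    unfold ant MM
    rw [pos_reverse, neg_mul_eq_neg_mul, ← pos_mul]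
    apply pos_congr
    intro w a u hw
    have : t.length = w.length + u.length + 1 := by rw [← hw]; simp; omega
    rw [this, pow_succ, pow_add]
    ring
  have e3 : ant (MM Z) = fun t => conv (ant Z) (ant (pw true g)) t +
      - conv (ant (pw false g)) (ant Z) t := by
    rw [← ant_conv, ← ant_conv]
    funext t
    unfold ant
    rw [hM]; ring
  have e4 : conv Pf Z = fun t => - conv (conv (ant Z) (ant (pw true g))) Z t +
      ant (pw false g) t := by
    rw [e2, conv_neg_left, e3, conv_add_left, conv_neg_left]
    have : conv (conv (ant (pw false g)) (ant Z)) Z = ant (pw false g) := by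
      rw [conv_assoc, conv_ant_left hZ, conv_ee_right]
    rw [this]
    funext t; ring
  have e5 : rotSum C (conv (conv (ant Z) (ant (pw true g))) Z) = 0 := by
    rw [rotSum_conv, ← conv_assoc, conv_ant_right hZ, conv_ee_left]
    unfold rotSum
    apply Finset.sum_eq_zero
    intro r _
    exact ant_pw true g _ ⟨false, by simpa using h0, by simp⟩
  have e6 : rotSum C (ant (pw false g)) = 0 := by
    unfold rotSum
    apply Finset.sum_eq_zero
    intro r _
    exact ant_pw false g _ ⟨true, by simpa using h1, by simp⟩
  rw [e1, e4]
  have e7 : rotSum C (fun t => - conv (conv (ant Z) (ant (pw true g))) Z t +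
      ant (pw false g) t) = - rotSum C (conv (conv (ant Z) (ant (pw true g))) Z) +
        rotSum C (ant (pw false g)) := by
    unfold rotSum
    rw [Finset.sum_add_distrib, Finset.sum_neg_distrib]
  rw [e7, e5, e6]
  ring

end Pool.Agent.MP_a57f33_nt.Cyc
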