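import Pool.Agent.Lib.MP_a57f33_nt.CycDefs

/-!
Functions on words with values in a commutative ring: shuffles, cuts, convolution, sums over the
rotations of a word.
-/

namespace Pool.Agent.MP_a57f33_nt.Cyc

variable {α : Type} {k : Type*} [CommRing k]

/-- The sum of `f` over the shuffles of two words. -/
def sh (u v : List α) (f : List α → k) : k := ((shuffle u v).map f).sum

lemma sh_nil_left (v : List α) (f : List α → k) : sh [] v f = f v := by
  simp [sh, shuffle]

lemma sh_nil_right (u : List α) (f : List α → k) : sh u [] f = f u := by
  cases u <;> simp [sh, shuffle]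

lemma sh_cons_cons (a b : α) (u v : List α) (f : List α → k) :
    sh (a :: u) (b :: v) f =
      sh u (b :: v) (fun t => f (a :: t)) + sh (a :: u) v (fun t => f (b :: t)) := by
  unfold sh
  rw [shuffle]
  simp only [List.map_append, List.map_map, List.sum_append]
  rfl

/-- The sum of `F p q` over all `p, q` with `p ++ q = c`. -/
def cut : List α → (List α → List α → k) → k
  | [], F => F [] []
  | e :: c, F => F [] (e :: c) + cut c (fun p q => F (e :: p) q)

lemma cut_add (c : List α) : ∀ F G : List α → List α → k,
    cut c (fun p q => F p q + G p q) = cut c F + cut c G := by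
  induction c with
  | nil => intro F G; rfl
  | cons e c ih => intro F G; simp only [cut, ih]; ring

lemma cut_mul (c : List α) : ∀ (r : k) (F : List α → List α → k),
    cut c (fun p q => r * F p q) = r * cut c F := by
  induction c with
  | nil => intro r F; rfl
  | cons e c ih => intro r F; simp only [cut, ih]; ring

lemma cut_zero (c : List α) : cut c (fun _ _ => (0 : k)) = 0 := by
  have := cut_mul c (0 : k) (fun _ _ => 0)
  simpa using this

lemma cut_neg (c : List α) (F : List α → List α → k) :
    cut c (fun p q => - F p q) = - cut c F := by
  have := cut_mul c (-1 : k) F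
  simpa using this

lemma cut_congr (c : List α) : ∀ {F G : List α → List α → k},
    (∀ p q, p ++ q = c → F p q = G p q) → cut c F = cut c G := by
  induction c with
  | nil => intro F G h; exact h [] [] rfl
  | cons e c ih =>
    intro F G h
    simp only [cut]
    rw [h [] (e :: c) rfl, ih]
    intro p q hpq
    exact h _ _ (by simp [hpq])

lemma cut_snoc (c : List α) (z : α) : ∀ F : List α → List α → k,
    cut (c ++ [z]) F = cut c (fun p q => F p (q ++ [z])) + F (c ++ [z]) [] := by
  induction c with
  | nil => intro F; simp [cut]
  | cons e c ih => intro F; simp only [List.cons_append, cut, ih]; ring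

lemma cut_reverse (c : List α) : ∀ F : List α → List α → k,
    cut c.reverse F = cut c (fun p q => F q.reverse p.reverse) := by
  induction c with
  | nil => intro F; rfl
  | cons e c ih =>
    intro F
    rw [List.reverse_cons, cut_snoc, ih]
    simp only [cut, List.reverse_cons, List.reverse_nil]
    ring

lemma cut_assoc (c : List α) : ∀ F : List α → List α → List α → k,
    cut c (fun p r => cut p (fun u v => F u v r)) =
      cut c (fun u q => cut q (fun v r => F u v r)) := by
  induction c with
  | nil => intro F; rfl
  | cons e c ih =>
    intro F
    simp only [cut]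
    rw [cut_add, ih]
    ring

lemma cut_eq_sum (c : List α) : ∀ F : List α → List α → k,
    cut c F = ∑ m ∈ Finset.range (c.length + 1), F (c.take m) (c.drop m) := by
  induction c with
  | nil => intro F; simp [cut]
  | cons e c ih =>
    intro F
    rw [List.length_cons, Finset.sum_range_succ']
    simp only [cut, ih, List.take_succ_cons, List.drop_succ_cons, List.take_zero, List.drop_zero]
    ring

/-- The sum of `K p a q` over all `p, a, q` with `p ++ a :: q = c`. -/
def pos : List α → (List α → α → List α → k) → k
  | [], _ => 0
  | e :: c, K => K [] e c + pos c (fun p a q => K (e :: p) a q)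

lemma pos_add (c : List α) : ∀ K L : List α → α → List α → k,
    pos c (fun p a q => K p a q + L p a q) = pos c K + pos c L := by
  induction c with
  | nil => intro K L; simp [pos]
  | cons e c ih => intro K L; simp only [pos, ih]; ring

lemma pos_mul (c : List α) : ∀ (r : k) (K : List α → α → List α → k),
    pos c (fun p a q => r * K p a q) = r * pos c K := by
  induction c with
  | nil => intro r K; simp [pos]
  | cons e c ih => intro r K; simp only [pos, ih]; ring

lemma pos_congr (c : List α) : ∀ {K L : List α → α → List α → k},
    (∀ p a q, p ++ a :: q = c → K p a q = L p a q) → pos c K = pos c L := by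
  induction c with
  | nil => intro K L h; rfl
  | cons e c ih =>
    intro K L h
    simp only [pos]
    rw [h [] e c rfl, ih]
    intro p a q hpq
    exact h _ _ _ (by simp [hpq])

lemma pos_snoc (c : List α) (z : α) : ∀ K : List α → α → List α → k,
    pos (c ++ [z]) K = pos c (fun p a q => K p a (q ++ [z])) + K c z [] := by
  induction c with
  | nil => intro K; simp [pos]
  | cons e c ih => intro K; simp only [List.cons_append, pos, ih]; ring

lemma pos_reverse (c : List α) : ∀ K : List α → α → List α → k,
    pos c.reverse K = pos c (fun p a q => K q.reverse a p.reverse) := by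
  induction c with
  | nil => intro K; rfl
  | cons e c ih =>
    intro K
    rw [List.reverse_cons, pos_snoc, ih]
    simp only [pos, List.reverse_cons, List.reverse_nil]
    ring

/-- The head of the second piece of a cut. -/
def hd (P : List α) (G : α → List α → k) : k :=
  match P with
  | [] => 0
  | a :: c => G a c

lemma cut_hd (c : List α) : ∀ G : List α → α → List α → k,
    cut c (fun w P => hd P (fun a q => G w a q)) = pos c G := by
  induction c with
  | nil => intro G; rfl
  | cons e c ih =>
    intro G
    simp only [cut, pos, ih]
    rfl

lemma cut_pos (c : List α) : ∀ H : List α → α → List α → List α → k,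
    cut c (fun t v => pos t (fun w a u => H w a u v)) =
      pos c (fun w a q => cut q (fun u v => H w a u v)) := by
  induction c with
  | nil => intro H; rfl
  | cons e c ih =>
    intro H
    simp only [cut, pos]
    rw [cut_add, ih]
    ring

/-- The convolution product of functions on words. -/
def conv (f g : List α → k) (w : List α) : k := cut w (fun p q => f p * g q)

lemma conv_assoc (f g h : List α → k) : conv (conv f g) h = conv f (conv g h) := by
  funext w
  have := cut_assoc w (fun u v r => f u * g v * h r)
  unfold conv
  rw [show cut w (fun p q => cut p (fun p q => f p * g q) * h q) =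
    cut w (fun p r => cut p (fun u v => f u * g v * h r)) from ?_, this]
  · apply cut_congr
    intro p q _
    rw [← cut_mul]
    apply cut_congr
    intro u v _
    ring
  · apply cut_congr
    intro p q _
    rw [mul_comm, ← cut_mul]
    apply cut_congr
    intro u v _
    ring

/-- The unit of the convolution product. -/
def ee (w : List α) : k := if w = [] then 1 else 0

lemma conv_ee_left (f : List α → k) : conv ee f = f := by
  funext w
  cases w with
  | nil => simp [conv, cut, ee]
  | cons e w =>
    have : cut w (fun p q => ee (e :: p) * f q) = cut w (fun _ _ => 0) := by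
      apply cut_congr; intro p q _; simp [ee]
    simp only [conv, cut, this, cut_zero]
    simp [ee]

lemma conv_ee_right (f : List α → k) : conv f ee = f := by
  funext w
  rcases List.eq_nil_or_concat w with rfl | ⟨w, z, rfl⟩
  · simp [conv, cut, ee]
  · rw [List.concat_eq_append, conv, cut_snoc]
    have : cut w (fun p q => f p * (ee (q ++ [z]) : k)) = cut w (fun _ _ => 0) := by
      apply cut_congr; intro p q _; simp [ee]
    rw [this, cut_zero]
    simp [ee]

lemma conv_add_left (f f' g : List α → k) :
    conv (fun t => f t + f' t) g = fun t => conv f g t + conv f' g t := by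
  funext w
  unfold conv
  rw [← cut_add]
  apply cut_congr; intro p q _; ring

lemma conv_add_right (f g g' : List α → k) :
    conv f (fun t => g t + g' t) = fun t => conv f g t + conv f g' t := by
  funext w
  unfold conv
  rw [← cut_add]
  apply cut_congr; intro p q _; ring

lemma conv_neg_left (f g : List α → k) : conv (fun t => - f t) g = fun t => - conv f g t := by
  funext w
  unfold conv
  rw [← cut_neg]
  apply cut_congr; intro p q _; ring

lemma conv_neg_right (f g : List α → k) : conv f (fun t => - g t) = fun t => - conv f g t := by
  funext w
  unfold conv
  rw [← cut_neg]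
  apply cut_congr; intro p q _; ring

lemma conv_mul_left (r : k) (f g : List α → k) :
    conv (fun t => r * f t) g = fun t => r * conv f g t := by
  funext w
  unfold conv
  rw [← cut_mul]
  apply cut_congr; intro p q _; ring

lemma conv_mul_right (r : k) (f g : List α → k) :
    conv f (fun t => r * g t) = fun t => r * conv f g t := by
  funext w
  unfold conv
  rw [← cut_mul]
  apply cut_congr; intro p q _; ring

/-- `S(f)(w) = (-1)^|w| f(w reversed)`. -/
def ant (f : List α → k) (w : List α) : k := (-1) ^ w.length * f w.reverse

lemma ant_conv (f g : List α → k) : ant (conv f g) = conv (ant g) (ant f) := by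
  funext w
  unfold ant conv
  rw [cut_reverse, ← cut_mul]
  apply cut_congr
  intro p q hpq
  rw [← hpq, List.length_append, pow_add]
  ring

/-! ### Sums over rotations -/

/-- The sum of `F` over the rotations of a word. -/
def rotSum (C : List α) (F : List α → k) : k :=
  ∑ r ∈ Finset.range C.length, F (C.rotate r)

lemma sum_shift (n : ℕ) (f : ℕ → k) (hf : ∀ r, f (r + n) = f r) (m : ℕ) :
    ∑ r ∈ Finset.range n, f (r + m) = ∑ r ∈ Finset.range n, f r := by
  induction m with
  | zero => rfl
  | succ m ih =>
    rw [← ih]
    have h1 := Finset.sum_range_succ (fun r => f (r + m)) n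
    have h2 := Finset.sum_range_succ' (fun r => f (r + m)) n
    rw [h1] at h2
    have h3 : f (n + m) = f (0 + m) := by
      rw [add_comm n m, hf, zero_add]
    have h4 : ∀ r ∈ Finset.range n, f (r + 1 + m) = f (r + (m + 1)) := by
      intro r _; congr 1; ring
    rw [Finset.sum_congr rfl h4, h3] at h2
    exact (add_right_cancel h2).symm

lemma rotSum_shift (C : List α) (F : List α → k) (m : ℕ) :
    rotSum C (fun A => F (A.rotate m)) = rotSum C F := by
  unfold rotSum
  have := sum_shift C.length (fun r => F (C.rotate r)) (by
    intro r
    have : C.rotate (r + C.length) = C.rotate r := by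
      rw [← List.rotate_mod C (r + C.length), Nat.add_mod_right, List.rotate_mod]
    simp only [this]) m
  rw [← this]
  apply Finset.sum_congr rfl
  intro r _
  beta_reduce
  rw [List.rotate_rotate]

lemma rotSum_swap (C : List α) (G : List α → List α → k) :
    rotSum C (fun A => cut A (fun P Q => G P Q)) =
      rotSum C (fun R => cut R (fun Q P => G P Q)) := by
  have h1 : ∀ A : List α, A.length = C.length → cut A (fun P Q => G P Q) =
      ∑ m ∈ Finset.range (C.length + 1), G (A.take m) (A.drop m) := by
    intro A hA; rw [cut_eq_sum, hA]
  have h2 : ∀ A : List α, A.length = C.length → cut A (fun Q P => G P Q) =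
      ∑ m ∈ Finset.range (C.length + 1), G (A.drop m) (A.take m) := by
    intro A hA; rw [cut_eq_sum, hA]
  have h3 : rotSum C (fun A => cut A (fun P Q => G P Q)) =
      ∑ m ∈ Finset.range (C.length + 1), rotSum C (fun A => G (A.take m) (A.drop m)) := by
    unfold rotSum
    rw [Finset.sum_comm]
    apply Finset.sum_congr rfl
    intro r _
    exact h1 _ (by simp)
  have h4 : rotSum C (fun A => cut A (fun Q P => G P Q)) =
      ∑ m ∈ Finset.range (C.length + 1), rotSum C (fun A => G (A.drop m) (A.take m)) := by
    unfold rotSum
    rw [Finset.sum_comm]
    apply Finset.sum_congr rfl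
    intro r _
    exact h2 _ (by simp)
  rw [h3, h4, ← Finset.sum_range_reflect]
  apply Finset.sum_congr rfl
  intro m hm
  rw [Finset.mem_range] at hm
  have hm' : m ≤ C.length := by omega
  have e : C.length + 1 - 1 - m = C.length - m := by omega
  rw [e]
  symm
  rw [← rotSum_shift C _ (C.length - m)]
  unfold rotSum
  apply Finset.sum_congr rfl
  intro r _
  have hl : (C.rotate r).length = C.length := by simp
  have h5 : (C.rotate r).rotate (C.length - m) =
      (C.rotate r).drop (C.length - m) ++ (C.rotate r).take (C.length - m) :=
    List.rotate_eq_drop_append_take (by rw [hl]; omega)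
  have h6 : ((C.rotate r).drop (C.length - m)).length = m := by
    rw [List.length_drop, hl]; omega
  beta_reduce
  rw [h5, List.drop_left' h6, List.take_left' h6]

lemma rotSum_conv (C : List α) (f g : List α → k) :
    rotSum C (conv f g) = rotSum C (conv g f) := by
  have := rotSum_swap C (fun p q => f p * g q)
  unfold conv
  rw [this]
  unfold rotSum
  apply Finset.sum_congr rfl
  intro r _
  apply cut_congr
  intro p q _
  ring

end Pool.Agent.MP_a57f33_nt.Cyc
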