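import Mathlib

/-!
Definitions for the double shuffle Lie algebra `dm0`.
-/

namespace Pool.Agent.MP_a57f33_nt

open TensorProduct

/-- The coefficient `(ψ | w)` of the word `w` in the element `ψ` of the free associative
algebra on `X` (a word is a list of letters). -/
noncomputable def coeff {X : Type} (ψ : FreeAlgebra ℚ X) (w : List X) : ℚ :=
  (FreeAlgebra.basisFreeMonoid ℚ X).repr ψ (FreeMonoid.ofList w)

/-- The free associative algebra `ℚ⟨x₀, x₁⟩`; the letter `x₀` is `false`, the letter `x₁` is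
`true`. -/
abbrev QX : Type := FreeAlgebra ℚ Bool

/-- The free associative algebra `ℚ⟨y₁, y₂, …⟩`. -/
abbrev QY : Type := FreeAlgebra ℚ ℕ+

section

attribute [local instance 100] LieRing.ofAssociativeRing

/-- The free Lie algebra `Lie(X)` inside `ℚ⟨x₀, x₁⟩`: the Lie subalgebra (for the commutator
bracket) generated by `x₀` and `x₁`. -/
noncomputable def LieX : LieSubalgebra ℚ QX :=
  LieSubalgebra.lieSpan ℚ QX (Set.range (FreeAlgebra.ι ℚ))

end

/-- The word in `x₀, x₁` of a word in the letters `y_n = x₀^{n-1} x₁`. -/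
def toX : List ℕ+ → List Bool
  | [] => []
  | n :: u => List.replicate ((n : ℕ) - 1) false ++ true :: toX u

/-- `yy n = y_n` for `n ≥ 1` and `yy 0 = 1`. -/
noncomputable def yy : ℕ → QY
  | 0 => 1
  | n + 1 => FreeAlgebra.ι ℚ n.succPNat

/-- The stuffle coproduct: the algebra map with `Δ(y_n) = ∑_{i+j=n} y_i ⊗ y_j`, `y₀ = 1`. -/
noncomputable def Delta : QY →ₐ[ℚ] QY ⊗[ℚ] QY :=
  FreeAlgebra.lift ℚ fun n : ℕ+ =>
    ∑ ij ∈ Finset.HasAntidiagonal.antidiagonal (n : ℕ), yy ij.1 ⊗ₜ[ℚ] yy ij.2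

/-- The coefficient `(ψ_* | u)` of a word `u` in the letters `y_n` in
`ψ_* = π_Y(ψ) + ∑_{n ≥ 2} (-1)^{n-1}/n (ψ | x₀^{n-1} x₁) y₁^n`. -/
noncomputable def starCoeff (ψ : QX) (u : List ℕ+) : ℚ :=
  coeff ψ (toX u) +
    if 2 ≤ u.length ∧ u = List.replicate u.length 1 then
      (-1) ^ (u.length - 1) / (u.length : ℚ) *
        coeff ψ (List.replicate (u.length - 1) false ++ [true])
    else 0

/-- The double shuffle Lie algebra `dm₀(ℚ)`: the set of `ψ ∈ Lie(X)` with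
`(ψ|x₀) = (ψ|x₁) = (ψ|x₀x₁) = 0` such that `ψ_*` is primitive for `Δ`. -/
def dm0 : Set QX :=
  {ψ | ψ ∈ LieX ∧ coeff ψ [false] = 0 ∧ coeff ψ [true] = 0 ∧ coeff ψ [false, true] = 0 ∧
    ∃ p : QY, (∀ u, coeff p u = starCoeff ψ u) ∧ Delta p = p ⊗ₜ[ℚ] 1 + 1 ⊗ₜ[ℚ] p}

/-- The anti-automorphism `τ` of `ℚ⟨x₀, x₁⟩` exchanging `x₀` and `x₁` (duality of multiple
zeta values): `τ(ab) = τ(b) τ(a)`, `τ(x₀) = x₁`, `τ(x₁) = x₀`. -/
noncomputable def dual (ψ : QX) : QX :=
  (FreeAlgebra.lift ℚ (fun b : Bool => MulOpposite.op (FreeAlgebra.ι ℚ (!b))) ψ).unop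

/-- The dual word `τ(w)` of a word `w` in `x₀, x₁`: reverse the word and exchange the letters. -/
def dualWord (w : List Bool) : List Bool := (w.map not).reverse

/-- The stuffle product `y_n * u` of the letter `y_n` and a word `u` in the letters `y_m`, as the
list (with multiplicity) of the words that occur in it. -/
def stuffleOne (n : ℕ+) : List ℕ+ → List (List ℕ+)
  | [] => [[n]]
  | b :: v => (n :: b :: v) :: ((n + b) :: v) :: (stuffleOne n v).map (b :: ·)

/-- The `ψ ∈ Lie(X)` with `(ψ|x₀) = (ψ|x₁) = (ψ|x₀x₁) = 0` that satisfy all regularised stuffle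
relations one of whose factors has depth one: `(ψ_* | y_n * u) = 0` for all `n ≥ 1` and all
words `u ≠ 1`. -/
def DS1 : Set QX :=
  {ψ | ψ ∈ LieX ∧ coeff ψ [false] = 0 ∧ coeff ψ [true] = 0 ∧ coeff ψ [false, true] = 0 ∧
    ∀ (n : ℕ+) (u : List ℕ+), u ≠ [] → ((stuffleOne n u).map (starCoeff ψ)).sum = 0}

end Pool.Agent.MP_a57f33_nt
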