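import Pool.Agent.Lib.MP_a57f33_nt.TwoTerm

/-!
If `ψ` and `τψ` both lie in `dm₀`, then `τψ = ψ`.
-/

namespace Pool.Agent.MP_a57f33_nt

attribute [local instance 100] LieRing.ofAssociativeRing

/-- The automorphism `x₀ ↦ -x₁`, `x₁ ↦ -x₀`. -/
noncomputable def rhX : QX →ₐ[ℚ] QX :=
  FreeAlgebra.lift ℚ fun b : Bool => if b then -X0 else -X1

lemma rhX_X0 : rhX X0 = -X1 := by simp [rhX]

lemma rhX_X1 : rhX X1 = -X0 := by simp [rhX]

lemma rhX_rhX (u : QX) : rhX (rhX u) = u := by
  have : rhX.comp rhX = AlgHom.id ℚ QX := by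
    apply FreeAlgebra.hom_ext
    funext b
    cases b
    · change rhX (rhX X0) = X0
      rw [rhX_X0, map_neg, rhX_X1, neg_neg]
    · change rhX (rhX X1) = X1
      rw [rhX_X1, map_neg, rhX_X0, neg_neg]
  exact AlgHom.congr_fun this u

/-- The automorphism `x₀ ↦ x₀`, `x₁ ↦ x₀ - x₁`. -/
noncomputable def ttX : QX →ₐ[ℚ] QX :=
  FreeAlgebra.lift ℚ fun b : Bool => if b then X0 - X1 else X0

lemma ttX_X0 : ttX X0 = X0 := by simp [ttX]

lemma ttX_X1 : ttX X1 = X0 - X1 := by simp [ttX]

lemma ttX_ttX (u : QX) : ttX (ttX u) = u := by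
  have : ttX.comp ttX = AlgHom.id ℚ QX := by
    apply FreeAlgebra.hom_ext
    funext b
    cases b
    · change ttX (ttX X0) = X0
      rw [ttX_X0, ttX_X0]
    · change ttX (ttX X1) = X1
      rw [ttX_X1, map_sub, ttX_X0, ttX_X1]; abel
  exact AlgHom.congr_fun this u

lemma conj_rh (u : QX) : rhX (shiftX (rhX u)) = ttX u := by
  have : (rhX.comp shiftX).comp rhX = ttX := by
    apply FreeAlgebra.hom_ext
    funext b
    cases b
    · change rhX (shiftX (rhX X0)) = ttX X0
      rw [rhX_X0, ttX_X0, map_neg, shiftX_X1, map_neg, rhX_X1, neg_neg]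
    · change rhX (shiftX (rhX X1)) = ttX X1
      rw [rhX_X1, ttX_X1, map_neg, shiftX_X0, map_neg, map_sub, rhX_X1, rhX_X0]; abel
  exact AlgHom.congr_fun this u

lemma braid (u : QX) : ttX (shiftX (ttX u)) = rhX u := by
  have : (ttX.comp shiftX).comp ttX = rhX := by
    apply FreeAlgebra.hom_ext
    funext b
    cases b
    · change ttX (shiftX (ttX X0)) = rhX X0
      rw [rhX_X0, ttX_X0, shiftX_X0, map_sub, ttX_X1, ttX_X0]; abel
    · change ttX (shiftX (ttX X1)) = rhX X1
      rw [rhX_X1, ttX_X1, map_sub, shiftX_X0, shiftX_X1]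
      have : (X1 - X0 - X1 : QX) = -X0 := by abel
      rw [this, map_neg, ttX_X0]
  exact AlgHom.congr_fun this u

lemma dual_eq (u : QX) : dual u = rhX (SS u) := by
  have : anti (fun b => FreeAlgebra.ι ℚ (!b)) = rhX.toLinearMap.comp SS := by
    apply linear_ext
    intro w
    simp only [LinearMap.comp_apply, AlgHom.toLinearMap_apply]
    induction w with
    | nil => rw [word_nil, anti_one, SS, anti_one, map_one]
    | cons b w ih =>
      rw [word_cons, anti_mul, SS_mul, map_mul, ih, anti_iota, SS, anti_iota, map_neg]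
      congr 1
      cases b
      · change X1 = -rhX X0
        rw [rhX_X0, neg_neg]
      · change X0 = -rhX X1
        rw [rhX_X1, neg_neg]
  rw [dual_eq_anti]
  exact LinearMap.congr_fun this u

lemma dual_lie {ψ : QX} (h : ψ ∈ LieX) : dual ψ = -rhX ψ := by
  rw [dual_eq, SS_lie h, map_neg]

/-- A Lie element commuting with `x₁` is a multiple of `x₁`. -/
lemma comm_X1 {g : QX} (hg : g ∈ LieX) (h : X1 * g = g * X1) (w : List Bool)
    (hw : w ≠ [true]) : coeff g w = 0 := by
  have h0 : ∀ v, coeff g (false :: v) = 0 := by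
    intro v
    have h1 : coeff (X1 * g) ((false :: v) ++ [true]) = coeff (g * X1) ((false :: v) ++ [true]) := by
      rw [h]
    rw [List.cons_append, coeff_iota_mul_cons, ← List.cons_append, coeff_mul_iota_snoc] at h1
    simpa using h1.symm
  by_cases h2 : 2 ≤ w.length
  · exact lie_mixed hg (fun v => h0 _) w h2
  · cases w with
    | nil => exact (lie_ins hg).1
    | cons b w =>
      cases w with
      | nil =>
        cases b
        · exact h0 []
        · exact absurd rfl hw
      | cons d w => simp at h2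

/-- Substitutions by linear forms respect the vanishing of the linear part. -/
lemma lin_hom (f : QX →ₐ[ℚ] QX) (hf : ∀ b, coeff (f (FreeAlgebra.ι ℚ b)) [] = 0) {ψ : QX}
    (h0 : coeff ψ [] = 0) (h1 : coeff ψ [false] = 0) (h2 : coeff ψ [true] = 0) (b : Bool) :
    coeff (f ψ) [b] = 0 := by
  obtain ⟨c, R0, R1, hd⟩ := right_decomp ψ
  have hc : c = 0 := by
    rw [hd, coeff_add, coeff_add, coeff_mul_iota_nil, coeff_mul_iota_nil, coeff_const] at h0
    simpa using h0
  subst hc
  have hR : ∀ (R : QX) (a : Bool), coeff (f (R * FreeAlgebra.ι ℚ a)) [b] =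
      coeff (f R) [] * coeff (f (FreeAlgebra.ι ℚ a)) [b] := by
    intro R a
    rw [map_mul, coeff_mul]
    simp only [conv]
    rw [hf a]; ring
  have hnil : ∀ R : QX, coeff (f R) [] = coeff R [] := by
    intro R
    have : (coeffL ([] : List Bool)).comp f.toLinearMap = coeffL [] := by
      apply linear_ext
      intro w
      simp only [LinearMap.comp_apply, AlgHom.toLinearMap_apply, coeffL_apply]
      induction w with
      | nil => simp
      | cons a w _ =>
        rw [word_cons, map_mul, coeff_mul]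
        simp only [conv]
        rw [hf a, coeff_iota_mul_nil]; ring
    exact LinearMap.congr_fun this R
  have e0 : coeff R0 [] = 0 := by
    have := h1
    rw [hd] at this
    rw [show ([false] : List Bool) = [] ++ [false] from rfl, coeff_add, coeff_add,
      coeff_mul_iota_snoc, coeff_mul_iota_snoc, coeff_const] at this
    simpa using this
  have e1 : coeff R1 [] = 0 := by
    have := h2
    rw [hd] at this
    rw [show ([true] : List Bool) = [] ++ [true] from rfl, coeff_add, coeff_add,
      coeff_mul_iota_snoc, coeff_mul_iota_snoc, coeff_const] at this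
    simpa using this
  rw [hd, map_add, map_add, coeff_add, coeff_add, hR, hR, hnil, hnil, e0, e1, map_zero, map_zero,
    coeff_zero]
  ring

theorem dual_pair {ψ : QX} (h : ψ ∈ dm0) (h' : dual ψ ∈ dm0) : dual ψ = ψ := by
  have hL : ψ ∈ LieX := h.1
  have ha := two_term h
  have hb := two_term h'
  rw [dual_lie hL] at hb
  -- apply `ρ`
  have hb2 : -(X1 * ψ - ψ * X1) + ((X1 - X0) * ttX ψ - ttX ψ * (X1 - X0)) = 0 := by
    have h1 := congrArg rhX hb
    simp only [map_add, map_sub, map_mul, map_neg, map_zero, rhX_X0, rhX_X1, rhX_rhX,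
      conj_rh] at h1
    have e : -(X1 * ψ - ψ * X1) + ((X1 - X0) * ttX ψ - ttX ψ * (X1 - X0)) =
        -(-X1 * -ψ - -ψ * -X1 + ((-X0 - -X1) * -ttX ψ - -ttX ψ * (-X0 - -X1))) := by
      noncomm_ring
    rw [e, h1, neg_zero]
  -- the sum commutes with `z = x₁ - x₀`
  set u := shiftX ψ + ttX ψ - ψ with hu
  have hcomm : (X1 - X0) * u = u * (X1 - X0) := by
    have e : (X1 - X0) * u - u * (X1 - X0) =
        ((X0 * ψ - ψ * X0) + ((X1 - X0) * shiftX ψ - shiftX ψ * (X1 - X0))) +
        (-(X1 * ψ - ψ * X1) + ((X1 - X0) * ttX ψ - ttX ψ * (X1 - X0))) := by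
      rw [hu]; noncomm_ring
    rw [ha, hb2, add_zero] at e
    exact sub_eq_zero.mp e
  have hz : (X1 - X0 : QX) ∈ LieX := sub_mem (iota_mem true) (iota_mem false)
  have hsL : shiftX ψ ∈ LieX := by
    apply hom_lie _ _ hL
    intro b
    cases b
    · change shiftX X0 ∈ LieX
      rw [shiftX_X0]; exact hz
    · change shiftX X1 ∈ LieX
      rw [shiftX_X1]; exact iota_mem true
  have htL : ttX ψ ∈ LieX := by
    apply hom_lie _ _ hL
    intro b
    cases b
    · change ttX X0 ∈ LieX
      rw [ttX_X0]; exact iota_mem false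
    · change ttX X1 ∈ LieX
      rw [ttX_X1]; exact sub_mem (iota_mem false) (iota_mem true)
  have huL : u ∈ LieX := by
    rw [hu]; exact sub_mem (add_mem hsL htL) hL
  have hT : thX u ∈ LieX := by
    apply hom_lie _ _ huL
    intro b
    cases b
    · change thX X0 ∈ LieX
      rw [thX_X0]; exact iota_mem false
    · change thX X1 ∈ LieX
      rw [thX_X1]; exact add_mem (iota_mem false) (iota_mem true)
  have hTc : X1 * thX u = thX u * X1 := by
    have := congrArg thX hcomm
    simp only [map_mul, map_sub, thX_X0, thX_X1] at this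
    rw [add_sub_cancel_left] at this
    exact this
  have hn0 : ∀ b, coeff (shiftX (FreeAlgebra.ι ℚ b)) [] = 0 := by
    intro b
    cases b
    · change coeff (shiftX X0) [] = 0
      rw [shiftX_X0, coeff_sub, coeff_iota, coeff_iota]; simp
    · change coeff (shiftX X1) [] = 0
      rw [shiftX_X1, coeff_iota]; simp
  have hn1 : ∀ b, coeff (ttX (FreeAlgebra.ι ℚ b)) [] = 0 := by
    intro b
    cases b
    · change coeff (ttX X0) [] = 0
      rw [ttX_X0, coeff_iota]; simp
    · change coeff (ttX X1) [] = 0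
      rw [ttX_X1, coeff_sub, coeff_iota, coeff_iota]; simp
  have hn2 : ∀ b, coeff (thX (FreeAlgebra.ι ℚ b)) [] = 0 := by
    intro b
    cases b
    · change coeff (thX X0) [] = 0
      rw [thX_X0, coeff_iota]; simp
    · change coeff (thX X1) [] = 0
      rw [thX_X1, coeff_add, coeff_iota, coeff_iota]; simp
  have hlin : ∀ b, coeff u [b] = 0 := by
    intro b
    rw [hu, coeff_sub, coeff_add, lin_hom _ hn0 (lie_ins hL).1 h.2.1 h.2.2.1,
      lin_hom _ hn1 (lie_ins hL).1 h.2.1 h.2.2.1]
    cases b
    · rw [h.2.1]; ring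
    · rw [h.2.2.1]; ring
  have hu0 : u = 0 := by
    have h1 : thX u = 0 := by
      apply ext_coeff
      intro w
      rw [coeff_zero]
      by_cases hw : w = [true]
      · rw [hw]
        exact lin_hom _ hn2 (lie_ins huL).1 (hlin false) (hlin true) true
      · exact comm_X1 hT hTc w hw
    have := thX_inv u
    rw [h1, map_zero] at this
    exact this.symm
  -- the three-term relation
  have h3 : shiftX ψ + ttX ψ = ψ := sub_eq_zero.mp hu0
  have h4 : shiftX (ttX ψ) = -ttX ψ := by
    have h5 := congrArg shiftX h3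
    rw [map_add, shiftX_shiftX] at h5
    have h6 : shiftX ψ = ψ - ttX ψ := by rw [← h3]; abel_nf; rw [h3]; abel
    rw [h6] at h5
    have : shiftX (ttX ψ) = (ψ - ttX ψ) - ψ := by rw [← h5]; abel
    rw [this]; abel
  have h7 := congrArg ttX h4
  rw [braid, map_neg, ttX_ttX] at h7
  rw [dual_lie hL, h7, neg_neg]

end Pool.Agent.MP_a57f33_nt
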