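import Pool.Agent.Lib.MP_a57f33_nt.Ihara
import Pool.Agent.Lib.MP_a57f33_nt.LieFacts
import Pool.Agent.Lib.MP_a57f33_nt.Average

/-!
Evaluation of the part of an element with a given number of letters `x₀`.
-/

namespace Pool.Agent.MP_a57f33_nt

attribute [local instance 100] LieRing.ofAssociativeRing

/-- `v₀^{i₀} ⋯ v_n^{i_n}` for the word `x₁^{i₀} x₀ x₁^{i₁} ⋯ x₀ x₁^{i_n}`, and `0` for words with
another number of letters `x₀`. -/
def mon : List ℚ → List Bool → ℚ
  | [], _ => 0
  | [_], [] => 1
  | _ :: _ :: _, [] => 0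
  | v :: vs, true :: w => v * mon (v :: vs) w
  | _ :: vs, false :: w => mon vs w

@[simp] lemma mon_nil' (w : List Bool) : mon [] w = 0 := by cases w <;> rfl
@[simp] lemma mon_one (v : ℚ) : mon [v] [] = 1 := rfl
@[simp] lemma mon_two (u v : ℚ) (l : List ℚ) : mon (u :: v :: l) [] = 0 := rfl
@[simp] lemma mon_true (v : ℚ) (vs : List ℚ) (w : List Bool) :
    mon (v :: vs) (true :: w) = v * mon (v :: vs) w := by cases vs <;> rfl
@[simp] lemma mon_false (v : ℚ) (vs : List ℚ) (w : List Bool) :
    mon (v :: vs) (false :: w) = mon vs w := by cases vs <;> rfl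

/-- Linear extension of `mon`. -/
noncomputable def Ev (V : List ℚ) : QX →ₗ[ℚ] ℚ :=
  (FreeAlgebra.basisFreeMonoid ℚ Bool).constr ℚ (fun w => mon V w.toList)

@[simp] lemma Ev_word (V : List ℚ) (w : List Bool) : Ev V (word w) = mon V w := by
  rw [← basis_apply, Ev, Module.Basis.constr_basis]
  simp

lemma Ev_one (V : List ℚ) : Ev V 1 = mon V [] := by
  rw [← word_nil, Ev_word]

lemma mon1_append (u : ℚ) (a b : List Bool) : mon [u] (a ++ b) = mon [u] a * mon [u] b := by
  induction a with
  | nil => simp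
  | cons d a ih => cases d <;> simp [ih, mul_assoc]

lemma mon2_append (u v : ℚ) (a b : List Bool) :
    mon [u, v] (a ++ b) = mon [u] a * mon [u, v] b + mon [u, v] a * mon [v] b := by
  induction a with
  | nil => simp
  | cons d a ih => cases d <;> simp [ih, mon1_append]; ring

lemma mon3_append (u v w : ℚ) (a b : List Bool) :
    mon [u, v, w] (a ++ b) =
      mon [u] a * mon [u, v, w] b + mon [u, v] a * mon [v, w] b + mon [u, v, w] a * mon [w] b := by
  induction a with
  | nil => simp
  | cons d a ih => cases d <;> simp [ih, mon2_append]; ring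

/-- Bilinear extension of identities from words. -/
lemma bilin_ext {F G : QX →ₗ[ℚ] QX →ₗ[ℚ] ℚ} (h : ∀ a b, F (word a) (word b) = G (word a) (word b))
    (x y : QX) : F x y = G x y := by
  have : F = G := by
    apply linear_ext
    intro a
    apply linear_ext
    intro b
    exact h a b
  rw [this]

lemma Ev1_mul (u : ℚ) (a b : QX) : Ev [u] (a * b) = Ev [u] a * Ev [u] b := by
  have := bilin_ext (F := (LinearMap.mul ℚ QX).compr₂ (Ev [u]))
    (G := (LinearMap.mul ℚ ℚ).compl₁₂ (Ev [u]) (Ev [u])) (fun a b => by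
      simp [← word_append, mon1_append]) a b
  simpa using this

lemma Ev2_mul (u v : ℚ) (a b : QX) :
    Ev [u, v] (a * b) = Ev [u] a * Ev [u, v] b + Ev [u, v] a * Ev [v] b := by
  have := bilin_ext (F := (LinearMap.mul ℚ QX).compr₂ (Ev [u, v]))
    (G := (LinearMap.mul ℚ ℚ).compl₁₂ (Ev [u]) (Ev [u, v]) +
      (LinearMap.mul ℚ ℚ).compl₁₂ (Ev [u, v]) (Ev [v])) (fun a b => by
      simp [← word_append, mon2_append]) a b
  simpa using this

lemma Ev3_mul (u v w : ℚ) (a b : QX) :
    Ev [u, v, w] (a * b) =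
      Ev [u] a * Ev [u, v, w] b + Ev [u, v] a * Ev [v, w] b + Ev [u, v, w] a * Ev [w] b := by
  have := bilin_ext (F := (LinearMap.mul ℚ QX).compr₂ (Ev [u, v, w]))
    (G := (LinearMap.mul ℚ ℚ).compl₁₂ (Ev [u]) (Ev [u, v, w]) +
      (LinearMap.mul ℚ ℚ).compl₁₂ (Ev [u, v]) (Ev [v, w]) +
      (LinearMap.mul ℚ ℚ).compl₁₂ (Ev [u, v, w]) (Ev [w])) (fun a b => by
      simp [← word_append, mon3_append]) a b
  simpa using this

lemma Ev_iota (V : List ℚ) (b : Bool) : Ev V (FreeAlgebra.ι ℚ b) = mon V [b] := by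
  rw [← Ev_word]; simp

/-- Translation invariance on Lie elements. -/
lemma Ev_translate {ψ : QX} (h : ψ ∈ LieX) (s : ℚ) :
    (∀ u, Ev [u + s] ψ = Ev [u] ψ + s * coeff ψ [true]) ∧
    (∀ u v, Ev [u + s, v + s] ψ = Ev [u, v] ψ) ∧
    (∀ u v w, Ev [u + s, v + s, w + s] ψ = Ev [u, v, w] ψ) := by
  refine lie_induction (P := fun ψ => (∀ u, Ev [u + s] ψ = Ev [u] ψ + s * coeff ψ [true]) ∧
    (∀ u v, Ev [u + s, v + s] ψ = Ev [u, v] ψ) ∧
    (∀ u v w, Ev [u + s, v + s, w + s] ψ = Ev [u, v, w] ψ)) ?_ ?_ ?_ ?_ ?_ h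
  · intro b
    cases b <;> simp [Ev_iota, coeff_iota]
  · simp [coeff_zero]
  · rintro x y ⟨h1, h2, h3⟩ ⟨k1, k2, k3⟩
    refine ⟨fun u => ?_, fun u v => ?_, fun u v w => ?_⟩
    · rw [map_add, map_add, h1, k1, coeff_add]; ring
    · rw [map_add, map_add, h2, k2]
    · rw [map_add, map_add, h3, k3]
  · rintro r x ⟨h1, h2, h3⟩
    refine ⟨fun u => ?_, fun u v => ?_, fun u v w => ?_⟩
    · rw [map_smul, map_smul, h1, coeff_smul]; simp; ring
    · rw [map_smul, map_smul, h2]
    · rw [map_smul, map_smul, h3]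
  · rintro x y hx hy ⟨h1, h2, h3⟩ ⟨k1, k2, k3⟩
    refine ⟨fun u => ?_, fun u v => ?_, fun u v w => ?_⟩
    · rw [map_sub, map_sub, Ev1_mul, Ev1_mul, Ev1_mul, Ev1_mul]
      have e : coeff (x * y - y * x) [true] = 0 := by
        rw [coeff_sub, coeff_mul, coeff_mul]
        simp only [conv, (lie_ins hx).1, (lie_ins hy).1]; ring
      rw [e]; ring
    · rw [map_sub, map_sub, Ev2_mul, Ev2_mul, Ev2_mul, Ev2_mul, h1, h1, k1, k1, h2, k2]; ring
    · rw [map_sub, map_sub, Ev3_mul, Ev3_mul, Ev3_mul, Ev3_mul, h1, h1, k1, k1, h2, h2, k2, k2,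
        h3, k3]; ring

/-- Extension of identities from words to homogeneous elements. -/
lemma hom_mem {M : Type*} [AddCommGroup M] [Module ℚ M] (L : QX →ₗ[ℚ] M) (S : Submodule ℚ M)
    {N : ℕ} {ψ : QX} (hψ : IsHom N ψ) (h : ∀ w : List Bool, w.length = N → L (word w) ∈ S) :
    L ψ ∈ S := by
  have h1 := (FreeAlgebra.basisFreeMonoid ℚ Bool).linearCombination_repr ψ
  rw [← h1, Finsupp.linearCombination_apply, Finsupp.sum, map_sum]
  apply Submodule.sum_mem
  intro w _
  rw [map_smul]
  have e : (FreeAlgebra.basisFreeMonoid ℚ Bool) w = word w.toList := by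
    rw [← basis_apply, FreeMonoid.ofList_toList]
  by_cases hw : w.toList.length = N
  · rw [e]
    exact S.smul_mem _ (h _ hw)
  · have h2 : (FreeAlgebra.basisFreeMonoid ℚ Bool).repr ψ w = 0 := hψ w.toList hw
    rw [h2, zero_smul]
    exact S.zero_mem

lemma hom_ext {M : Type*} [AddCommGroup M] [Module ℚ M] (L L' : QX →ₗ[ℚ] M)
    {N : ℕ} {ψ : QX} (hψ : IsHom N ψ) (h : ∀ w : List Bool, w.length = N → L (word w) = L' (word w)) :
    L ψ = L' ψ := by
  have := hom_mem (L - L') ⊥ hψ (fun w hw => by simp [h w hw])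
  rw [Submodule.mem_bot, LinearMap.sub_apply, sub_eq_zero] at this
  exact this

lemma mon_one_ts (v : ℚ) (w : List Bool) :
    mon [v] w = if w = ts w.length then v ^ w.length else 0 := by
  induction w with
  | nil => simp
  | cons b w ih =>
    cases b with
    | false => simp [List.replicate_succ]
    | true =>
      simp only [mon_true, ih, List.length_cons, List.replicate_succ, List.cons.injEq, true_and]
      split_ifs
      · ring
      · ring

open Finset in
/-- `mon [x, y]`. -/
lemma mon_pair (x y : ℚ) (w : List Bool) : ∀ n, w.length = n + 1 →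
    mon [x, y] w = ∑ p ∈ antidiagonal n,
      if w = ts p.1 ++ false :: ts p.2 then x ^ p.1 * y ^ p.2 else 0 := by
  induction w with
  | nil => intro n h; simp at h
  | cons b w ih =>
    intro n hn
    simp only [List.length_cons, add_left_inj] at hn
    cases b with
    | false =>
      rw [mon_false, mon_one_ts, hn]
      rw [Finset.sum_eq_single (0, n)]
      · simp
      · rintro ⟨i, j⟩ hij hne
        rw [Finset.HasAntidiagonal.mem_antidiagonal] at hij
        rw [if_neg]
        intro e
        rcases i with _ | i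
        · apply hne
          simp at hij
          simp [hij]
        · simp [List.replicate_succ] at e
      · intro h
        exact absurd (Finset.HasAntidiagonal.mem_antidiagonal.mpr (by simp)) h
    | true =>
      rw [mon_true]
      rcases n with _ | n
      · have : w = [] := List.length_eq_zero_iff.mp hn
        subst this
        simp
      · rw [ih n hn, Finset.Nat.antidiagonal_succ, Finset.sum_cons, Finset.sum_map, Finset.mul_sum]
        simp only [List.replicate_zero, List.nil_append, List.cons.injEq, Bool.true_eq_false,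
          false_and, if_false, zero_add, Function.Embedding.prodMap, Function.Embedding.coeFn_mk,
          Prod.map, List.replicate_succ, List.cons_append, true_and, Function.Embedding.refl_apply]
        apply Finset.sum_congr rfl
        rintro ⟨i, j⟩ _
        simp only [Nat.succ_eq_add_one]
        split_ifs
        · ring
        · ring

lemma mon_triple_left (x y : ℚ) (w : List Bool) (n : ℕ) (hw : w.length = n + 2) :
    mon [0, x, y] w = ∑ p ∈ Finset.HasAntidiagonal.antidiagonal n,
      if w = false :: (ts p.1 ++ false :: ts p.2) then x ^ p.1 * y ^ p.2 else 0 := by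
  rcases w with _ | ⟨b, w⟩
  · simp at hw
  cases b with
  | true => simp
  | false =>
    rw [mon_false, mon_pair x y w n (by simpa using hw)]
    simp

lemma mon_triple_right (x y : ℚ) (w : List Bool) (n : ℕ) (hw : w.length = n + 2) :
    mon [x, y, 0] w = ∑ p ∈ Finset.HasAntidiagonal.antidiagonal n,
      if w = ts p.1 ++ false :: (ts p.2 ++ [false]) then x ^ p.1 * y ^ p.2 else 0 := by
  have hne : w ≠ [] := by rintro rfl; simp at hw
  obtain ⟨w, b, rfl⟩ : ∃ w' b, w = w' ++ [b] :=
    ⟨w.dropLast, w.getLast hne, (List.dropLast_append_getLast hne).symm⟩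
  rw [mon3_append]
  cases b with
  | true =>
    simp only [mon_true, mon_two, mon_one, mul_zero, add_zero, zero_mul]
    symm
    apply Finset.sum_eq_zero
    intro p _
    rw [if_neg]
    intro e
    have := congrArg List.reverse e
    simp at this
  | false =>
    simp only [mon_false, mon_two, mon_one, mul_zero, add_zero, zero_add, mon_nil', mul_one]
    rw [mon_pair x y w n (by simpa using hw)]
    apply Finset.sum_congr rfl
    intro p _
    have : (w ++ [false] = ts p.1 ++ false :: (ts p.2 ++ [false])) ↔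
        w = ts p.1 ++ false :: ts p.2 := by
      rw [show ts p.1 ++ false :: (ts p.2 ++ [false]) = (ts p.1 ++ false :: ts p.2) ++ [false] by
        simp]
      exact List.append_left_inj _
    simp only [this]

lemma mon_pair_right (x : ℚ) (w : List Bool) (n : ℕ) (hw : w.length = n + 1) :
    mon [x, 0] w = if w = ts n ++ [false] then x ^ n else 0 := by
  have hne : w ≠ [] := by rintro rfl; simp at hw
  obtain ⟨w, b, rfl⟩ : ∃ w' b, w = w' ++ [b] :=
    ⟨w.dropLast, w.getLast hne, (List.dropLast_append_getLast hne).symm⟩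
  have hn : w.length = n := by simpa using hw
  rw [mon2_append]
  cases b with
  | true => simp
  | false =>
    simp only [mon_false, mon_one, mul_zero, add_zero, mon_nil', mul_one]
    rw [mon_one_ts, hn]
    simp

/-- The value of a homogeneous element at `(0, x, y)`. -/
lemma Ev_left {n : ℕ} {ψ : QX} (hψ : IsHom (n + 2) ψ) (x y : ℚ) :
    Ev [0, x, y] ψ = ∑ p ∈ Finset.HasAntidiagonal.antidiagonal n,
      coeff ψ (false :: (ts p.1 ++ false :: ts p.2)) * (x ^ p.1 * y ^ p.2) := by
  have := hom_ext (Ev [0, x, y]) (∑ p ∈ Finset.HasAntidiagonal.antidiagonal n,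
      (x ^ p.1 * y ^ p.2) • coeffL (false :: (ts p.1 ++ false :: ts p.2))) hψ (by
    intro w hw
    rw [Ev_word, mon_triple_left x y w n hw, LinearMap.sum_apply]
    apply Finset.sum_congr rfl
    intro p _
    rw [LinearMap.smul_apply, coeffL_apply, coeff_word]
    split_ifs <;> simp)
  rw [this, LinearMap.sum_apply]
  apply Finset.sum_congr rfl
  intro p _
  rw [LinearMap.smul_apply, coeffL_apply, smul_eq_mul]; ring

lemma Ev_right {n : ℕ} {ψ : QX} (hψ : IsHom (n + 2) ψ) (x y : ℚ) :
    Ev [x, y, 0] ψ = ∑ p ∈ Finset.HasAntidiagonal.antidiagonal n,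
      coeff ψ (ts p.1 ++ false :: (ts p.2 ++ [false])) * (x ^ p.1 * y ^ p.2) := by
  have := hom_ext (Ev [x, y, 0]) (∑ p ∈ Finset.HasAntidiagonal.antidiagonal n,
      (x ^ p.1 * y ^ p.2) • coeffL (ts p.1 ++ false :: (ts p.2 ++ [false]))) hψ (by
    intro w hw
    rw [Ev_word, mon_triple_right x y w n hw, LinearMap.sum_apply]
    apply Finset.sum_congr rfl
    intro p _
    rw [LinearMap.smul_apply, coeffL_apply, coeff_word]
    split_ifs <;> simp)
  rw [this, LinearMap.sum_apply]
  apply Finset.sum_congr rfl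
  intro p _
  rw [LinearMap.smul_apply, coeffL_apply, smul_eq_mul]; ring

lemma Ev_two {n : ℕ} {ψ : QX} (hψ : IsHom (n + 1) ψ) (x : ℚ) :
    Ev [x, 0] ψ = coeff ψ (ts n ++ [false]) * x ^ n := by
  have := hom_ext (Ev [x, 0]) (x ^ n • coeffL (ts n ++ [false])) hψ (by
    intro w hw
    rw [Ev_word, mon_pair_right x w n hw, LinearMap.smul_apply, coeffL_apply, coeff_word]
    split_ifs <;> simp)
  rw [this, LinearMap.smul_apply, coeffL_apply, smul_eq_mul]; ring

end Pool.Agent.MP_a57f33_nt
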