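import Pool.Agent.Lib.MP_a57f33_nt.Ev

/-!
Lemmas about the Ihara bracket.
-/

namespace Pool.Agent.MP_a57f33_nt

lemma derHom_entries (ψ a : QX) :
    derHom ψ a 0 0 = a ∧ derHom ψ a 1 1 = a ∧ derHom ψ a 1 0 = 0 := by
  induction a using FreeAlgebra.induction with
  | grade0 r =>
    simp [Algebra.algebraMap_eq_smul_one]
  | grade1 b => simp [derHom]
  | mul a b ha hb =>
    simp only [map_mul, Matrix.mul_apply, Fin.sum_univ_two, ha.1, ha.2.1, ha.2.2, hb.1, hb.2.1,
      hb.2.2]
    simp
  | add a b ha hb =>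
    simp only [map_add, Matrix.add_apply, ha.1, ha.2.1, ha.2.2, hb.1, hb.2.1, hb.2.2]
    simp

/-- `D_ψ` as a linear map. -/
noncomputable def derL (ψ : QX) : QX →ₗ[ℚ] QX where
  toFun a := der ψ a
  map_add' a b := by simp [der]
  map_smul' r a := by simp [der]

lemma derL_apply (ψ a : QX) : derL ψ a = der ψ a := rfl

lemma der_mul (ψ a b : QX) : der ψ (a * b) = der ψ a * b + a * der ψ b := by
  unfold der
  simp only [map_mul, Matrix.mul_apply, Fin.sum_univ_two, (derHom_entries ψ a).1,
    (derHom_entries ψ b).2.1]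
  rw [add_comm]

lemma der_one (ψ : QX) : der ψ 1 = 0 := by
  simp [der]

lemma der_false (ψ : QX) : der ψ (FreeAlgebra.ι ℚ false) = 0 := by
  simp [der, derHom]

lemma der_true (ψ : QX) : der ψ (FreeAlgebra.ι ℚ true) =
    FreeAlgebra.ι ℚ true * ψ - ψ * FreeAlgebra.ι ℚ true := by
  simp [der, derHom]

lemma IsHom.add {N : ℕ} {ψ φ : QX} (h : IsHom N ψ) (k : IsHom N φ) : IsHom N (ψ + φ) := by
  intro w hw
  rw [coeff_add, h w hw, k w hw, add_zero]

lemma IsHom.sub {N : ℕ} {ψ φ : QX} (h : IsHom N ψ) (k : IsHom N φ) : IsHom N (ψ - φ) := by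
  intro w hw
  rw [coeff_sub, h w hw, k w hw, sub_zero]

lemma IsHom.smul {N : ℕ} {ψ : QX} (r : ℚ) (h : IsHom N ψ) : IsHom N (r • ψ) := by
  intro w hw
  rw [coeff_smul, h w hw, mul_zero]

lemma isHom_zero (N : ℕ) : IsHom N (0 : QX) := fun w _ => coeff_zero w

lemma isHom_word (w : List Bool) : IsHom w.length (word w) := by
  intro v hv
  rw [coeff_word, if_neg]
  rintro rfl
  exact hv rfl

/-- The homogeneous elements form a submodule. -/
noncomputable def homSub (N : ℕ) : Submodule ℚ QX where
  carrier := {ψ | IsHom N ψ}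
  add_mem' := fun h k => IsHom.add h k
  zero_mem' := isHom_zero N
  smul_mem' := fun r _ h => IsHom.smul r h

lemma IsHom.mul {N M : ℕ} {ψ φ : QX} (h : IsHom N ψ) (k : IsHom M φ) : IsHom (N + M) (ψ * φ) := by
  refine hom_mem (LinearMap.mulRight ℚ φ) (homSub (N + M)) h ?_
  intro v hv
  rw [LinearMap.mulRight_apply]
  refine hom_mem (LinearMap.mulLeft ℚ (word v)) (homSub (N + M)) k ?_
  intro w hw
  rw [LinearMap.mulLeft_apply, ← word_append]
  have := isHom_word (v ++ w)
  rw [List.length_append, hv, hw] at this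
  exact this

lemma isHom_iota (b : Bool) : IsHom 1 (FreeAlgebra.ι ℚ b : QX) := by
  have := isHom_word [b]
  simpa using this

lemma isHom_der {N M : ℕ} {ψ φ : QX} (h : IsHom N ψ) (k : IsHom M φ) : IsHom (N + M) (der ψ φ) := by
  have key : ∀ w : List Bool, IsHom (N + w.length) (der ψ (word w)) := by
    intro w
    induction w with
    | nil => rw [word_nil, der_one]; exact isHom_zero _
    | cons b w ih =>
      rw [word_cons, der_mul]
      apply IsHom.add
      · cases b with
        | false => rw [der_false, zero_mul]; exact isHom_zero _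
        | true =>
          rw [der_true]
          have h1 : IsHom (N + 1) (FreeAlgebra.ι ℚ true * ψ - ψ * FreeAlgebra.ι ℚ true) := by
            apply IsHom.sub
            · rw [add_comm]; exact (isHom_iota true).mul h
            · exact h.mul (isHom_iota true)
          have := h1.mul (isHom_word w)
          rw [List.length_cons]
          rw [show N + (w.length + 1) = N + 1 + w.length by ring]
          exact this
      · have := (isHom_iota b).mul ih
        rw [List.length_cons]
        rw [show N + (w.length + 1) = 1 + (N + w.length) by ring]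
        exact this
  refine hom_mem (derL ψ) (homSub (N + M)) k ?_
  intro w hw
  have := key w
  rw [hw] at this
  exact this

lemma isHom_ihara {N M : ℕ} {ψ φ : QX} (h : IsHom N ψ) (k : IsHom M φ) :
    IsHom (N + M) (ihara ψ φ) := by
  unfold ihara
  apply IsHom.sub
  · apply IsHom.add
    · apply IsHom.sub (h.mul k)
      rw [add_comm]; exact k.mul h
    · exact isHom_der h k
  · rw [add_comm]; exact isHom_der k h

/-- The part of `D_ψ(a)` with one letter `x₀`. -/
lemma Ev_der {ψ : QX} (h0 : ∀ u, Ev [u] ψ = 0) (a : QX) :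
    (∀ u, Ev [u] (der ψ a) = 0) ∧
    (∀ u v, Ev [u, v] (der ψ a) = Ev [u, v] (a * ψ) - Ev [u, v] (ψ * a)) ∧
    (∀ u v w, Ev [u, v, w] (der ψ a) = Ev [u, v, w] (a * ψ) - Ev [u, v, w] (ψ * a) +
      (Ev [u, v] ψ - Ev [v, w] ψ) * Ev [u, w] a) := by
  have key : ∀ w : List Bool, (∀ u, Ev [u] (der ψ (word w)) = 0) ∧
    (∀ u v, Ev [u, v] (der ψ (word w)) = Ev [u, v] (word w * ψ) - Ev [u, v] (ψ * word w)) ∧
    (∀ u v s, Ev [u, v, s] (der ψ (word w)) =
      Ev [u, v, s] (word w * ψ) - Ev [u, v, s] (ψ * word w) +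
      (Ev [u, v] ψ - Ev [v, s] ψ) * Ev [u, s] (word w)) := by
    intro w
    induction w with
    | nil =>
      simp only [word_nil, der_one, one_mul, mul_one, map_zero, sub_self, Ev_one]
      simp
    | cons b w ih =>
      obtain ⟨i1, i2, i3⟩ := ih
      cases b with
      | false =>
        simp only [word_cons, der_mul, der_false, zero_mul, zero_add]
        refine ⟨fun u => ?_, fun u v => ?_, fun u v s => ?_⟩
        · rw [Ev1_mul, i1]; ring
        · simp only [Ev2_mul, Ev1_mul, i1, h0, Ev_iota, mon_false, mon_one, mon_nil']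
          ring
        · simp only [Ev3_mul, Ev2_mul, Ev1_mul, i1, i2, h0, Ev_iota, mon_false, mon_one, mon_nil',
            mon_two]
          ring
      | true =>
        simp only [word_cons, der_mul, der_true]
        refine ⟨fun u => ?_, fun u v => ?_, fun u v s => ?_⟩
        · simp only [map_add, map_sub, Ev1_mul, i1, h0]
          ring
        · simp only [map_add, map_sub, Ev2_mul, Ev1_mul, i1, i2, h0, Ev_iota, mon_true, mon_one,
            mon_two]
          ring
        · simp only [map_add, map_sub, Ev3_mul, Ev2_mul, Ev1_mul, i1, i2, i3, h0, Ev_iota, mon_true,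
            mon_one, mon_two]
          ring
  refine ⟨fun u => ?_, fun u v => ?_, fun u v s => ?_⟩
  · have : (Ev [u]).comp (derL ψ) = 0 := linear_ext fun w => (key w).1 u
    exact LinearMap.congr_fun this a
  · have : (Ev [u, v]).comp (derL ψ) = (Ev [u, v]).comp (LinearMap.mulRight ℚ ψ) -
        (Ev [u, v]).comp (LinearMap.mulLeft ℚ ψ) := linear_ext fun w => (key w).2.1 u v
    exact LinearMap.congr_fun this a
  · have : (Ev [u, v, s]).comp (derL ψ) = (Ev [u, v, s]).comp (LinearMap.mulRight ℚ ψ) -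
        (Ev [u, v, s]).comp (LinearMap.mulLeft ℚ ψ) +
        (Ev [u, v] ψ - Ev [v, s] ψ) • Ev [u, s] := linear_ext fun w => (key w).2.2 u v s
    exact LinearMap.congr_fun this a

/-- The part of the Ihara bracket with two letters `x₀`. -/
lemma Ev_ihara {ψ φ : QX} (h0 : ∀ u, Ev [u] ψ = 0) (k0 : ∀ u, Ev [u] φ = 0) (u v w : ℚ) :
    Ev [u, v, w] (ihara ψ φ) =
      -(Ev [u, v] ψ * Ev [v, w] φ - Ev [u, v] φ * Ev [v, w] ψ) +
      (Ev [u, v] ψ - Ev [v, w] ψ) * Ev [u, w] φ - (Ev [u, v] φ - Ev [v, w] φ) * Ev [u, w] ψ := by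
  unfold ihara
  simp only [map_add, map_sub, (Ev_der h0 φ).2.2, (Ev_der k0 ψ).2.2, Ev3_mul, h0, k0]
  ring

end Pool.Agent.MP_a57f33_nt
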