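import Pool.Agent.Lib.MP_a57f33_nt.DualPair

/-!
On `dm₀` duality, the three-cycle (hexagon) relation, the cocycle relation and Drinfeld's
relation `[b, ψ'(a, b)] + [c, ψ'(a, c)] = 0` are equivalent.
-/

namespace Pool.Agent.MP_a57f33_nt

attribute [local instance 100] LieRing.ofAssociativeRing

lemma ins_zs (m : ℕ) : ∀ f : List Bool → ℚ,
    ins false (zs m) f = (m + 1) * f (zs (m + 1)) := by
  induction m with
  | zero => intro f; simp [ins, List.replicate_succ]
  | succ m ih =>
    intro f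
    have h1 : zs (m + 1) = false :: zs m := by simp [List.replicate_succ]
    rw [h1, ins, ih]
    simp only [List.replicate_succ]
    push_cast
    ring

/-- A Lie element without the letter `x₀` has no pure powers of `x₀`. -/
lemma lie_zs {ψ : QX} (h : ψ ∈ LieX) (h1 : coeff ψ [false] = 0) (n : ℕ) :
    coeff ψ (zs n) = 0 := by
  rcases n with _ | n
  · exact (lie_ins h).1
  · rcases n with _ | m
    · exact h1
    · have h2 := (lie_ins h).2 false (zs (m + 1)) (by simp)
      rw [ins_zs] at h2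
      have h3 : (((m + 1 : ℕ) : ℚ) + 1) ≠ 0 := by positivity
      rcases mul_eq_zero.mp h2 with h4 | h4
      · exact absurd h4 h3
      · exact h4

/-- The key lemma: `[a, s] = [b, t]` and `[a, t] = -[b, s + t]` (with `a = x₀`, `b = -x₁`) force
`s = t = 0` if the powers of `x₀` do not occur. -/
lemma pair_zero {s t : QX} (e1 : X0 * s - s * X0 = t * X1 - X1 * t)
    (e2 : X0 * t - t * X0 = X1 * (s + t) - (s + t) * X1)
    (hs : ∀ n, coeff s (zs n) = 0) (ht : ∀ n, coeff t (zs n) = 0) : s = 0 ∧ t = 0 := by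
  have r1 : ∀ w, coeff s (w ++ [false]) = coeff s (false :: w) := by
    intro w
    have h1 := congrArg (fun u => coeff u ((false :: w) ++ [false])) e1
    simp only [coeff_sub] at h1
    rw [coeff_mul_iota_snoc, coeff_mul_iota_snoc, List.cons_append, coeff_iota_mul_cons,
      coeff_iota_mul_cons] at h1
    simp at h1
    linarith
  have r2 : ∀ w, coeff t (w ++ [false]) = coeff t (false :: w) := by
    intro w
    have h1 := congrArg (fun u => coeff u ((false :: w) ++ [false])) e2
    simp only [coeff_sub] at h1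
    rw [coeff_mul_iota_snoc, coeff_mul_iota_snoc, List.cons_append, coeff_iota_mul_cons,
      coeff_iota_mul_cons] at h1
    simp at h1
    linarith
  have r3 : ∀ w, coeff s (w ++ [true]) = coeff t (false :: w) := by
    intro w
    have h1 := congrArg (fun u => coeff u ((false :: w) ++ [true])) e1
    simp only [coeff_sub] at h1
    rw [coeff_mul_iota_snoc, coeff_mul_iota_snoc, List.cons_append, coeff_iota_mul_cons,
      coeff_iota_mul_cons] at h1
    simp at h1
    linarith
  have r4 : ∀ w, coeff t (w ++ [true]) = -(coeff s (false :: w) + coeff t (false :: w)) := by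
    intro w
    have h1 := congrArg (fun u => coeff u ((false :: w) ++ [true])) e2
    simp only [coeff_sub] at h1
    rw [coeff_mul_iota_snoc, coeff_mul_iota_snoc, List.cons_append, coeff_iota_mul_cons,
      coeff_iota_mul_cons] at h1
    simp at h1
    have h2 := coeff_add s t (false :: w)
    linarith
  have key : ∀ v : List Bool, ∀ n, coeff s (zs n ++ v) = 0 ∧ coeff t (zs n ++ v) = 0 := by
    intro v
    induction v using List.reverseRecOn with
    | nil => intro n; rw [List.append_nil]; exact ⟨hs n, ht n⟩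
    | append_singleton v b ih =>
      intro n
      have e : false :: (zs n ++ v) = zs (n + 1) ++ v := by
        simp [List.replicate_succ]
      have h1 := ih (n + 1)
      rw [← List.append_assoc]
      cases b
      · rw [r1, r2, e]; exact h1
      · rw [r3, r4, e, h1.1, h1.2]; simp
  refine ⟨ext_coeff fun w => ?_, ext_coeff fun w => ?_⟩
  · rw [coeff_zero]; exact (key w 0).1
  · rw [coeff_zero]; exact (key w 0).2

lemma rh_shift (u : QX) : rhX (shiftX u) = ttX (rhX u) := by
  have : rhX.comp shiftX = ttX.comp rhX := by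
    apply FreeAlgebra.hom_ext
    funext b
    cases b
    · change rhX (shiftX X0) = ttX (rhX X0)
      rw [shiftX_X0, rhX_X0, map_sub, rhX_X1, rhX_X0, map_neg, ttX_X1]; abel
    · change rhX (shiftX X1) = ttX (rhX X1)
      rw [shiftX_X1, rhX_X1, map_neg, ttX_X0]
  exact AlgHom.congr_fun this u

lemma X1_sub_X0_mem : (X1 - X0 : QX) ∈ LieX := sub_mem (iota_mem true) (iota_mem false)

lemma shift_mem {ψ : QX} (h : ψ ∈ LieX) : shiftX ψ ∈ LieX := by
  apply hom_lie _ _ h
  intro b
  cases b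
  · change shiftX X0 ∈ LieX
    rw [shiftX_X0]; exact X1_sub_X0_mem
  · change shiftX X1 ∈ LieX
    rw [shiftX_X1]; exact iota_mem true

lemma tt_mem {ψ : QX} (h : ψ ∈ LieX) : ttX ψ ∈ LieX := by
  apply hom_lie _ _ h
  intro b
  cases b
  · change ttX X0 ∈ LieX
    rw [ttX_X0]; exact iota_mem false
  · change ttX X1 ∈ LieX
    rw [ttX_X1]; exact sub_mem (iota_mem false) (iota_mem true)

lemma rh_mem {ψ : QX} (h : ψ ∈ LieX) : rhX ψ ∈ LieX := by
  apply hom_lie _ _ h
  intro b
  cases b
  · change rhX X0 ∈ LieX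
    rw [rhX_X0]; exact neg_mem (iota_mem true)
  · change rhX X1 ∈ LieX
    rw [rhX_X1]; exact neg_mem (iota_mem false)

lemma shift_nil : ∀ b, coeff (shiftX (FreeAlgebra.ι ℚ b)) [] = 0 := by
  intro b
  cases b
  · change coeff (shiftX X0) [] = 0
    rw [shiftX_X0, coeff_sub, coeff_iota, coeff_iota]; simp
  · change coeff (shiftX X1) [] = 0
    rw [shiftX_X1, coeff_iota]; simp

lemma tt_nil : ∀ b, coeff (ttX (FreeAlgebra.ι ℚ b)) [] = 0 := by
  intro b
  cases b
  · change coeff (ttX X0) [] = 0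
    rw [ttX_X0, coeff_iota]; simp
  · change coeff (ttX X1) [] = 0
    rw [ttX_X1, coeff_sub, coeff_iota, coeff_iota]; simp

lemma rh_nil : ∀ b, coeff (rhX (FreeAlgebra.ι ℚ b)) [] = 0 := by
  intro b
  cases b
  · change coeff (rhX X0) [] = 0
    rw [rhX_X0, ← zero_sub, coeff_sub, coeff_iota, coeff_zero]; simp
  · change coeff (rhX X1) [] = 0
    rw [rhX_X1, ← zero_sub, coeff_sub, coeff_iota, coeff_zero]; simp

/-- The relation `[b, ψ'(a, b)] + [c, ψ'(a, c)] = 0`. -/
def Four (ψ : QX) : Prop :=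
  -(X1 * ψ - ψ * X1) + ((X1 - X0) * ttX ψ - ttX ψ * (X1 - X0)) = 0

lemma four_of_mem {ψ : QX} (h : ψ ∈ LieX) (h' : dual ψ ∈ dm0) : Four ψ := by
  have hb := two_term h'
  rw [dual_lie h] at hb
  have h1 := congrArg rhX hb
  simp only [map_add, map_sub, map_mul, map_neg, map_zero, rhX_X0, rhX_X1, rhX_rhX,
    conj_rh] at h1
  have e : -(X1 * ψ - ψ * X1) + ((X1 - X0) * ttX ψ - ttX ψ * (X1 - X0)) =
      -(-X1 * -ψ - -ψ * -X1 + ((-X0 - -X1) * -ttX ψ - -ttX ψ * (-X0 - -X1))) := by
    noncomm_ring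
  rw [Four, e, h1, neg_zero]

lemma cocycle_of_four {ψ : QX} (h : ψ ∈ dm0) (hb2 : Four ψ) : shiftX ψ + ttX ψ = ψ := by
  have hL : ψ ∈ LieX := h.1
  have ha := two_term h
  rw [Four] at hb2
  set u := shiftX ψ + ttX ψ - ψ with hu
  have hcomm : (X1 - X0) * u = u * (X1 - X0) := by
    have e : (X1 - X0) * u - u * (X1 - X0) =
        ((X0 * ψ - ψ * X0) + ((X1 - X0) * shiftX ψ - shiftX ψ * (X1 - X0))) +
        (-(X1 * ψ - ψ * X1) + ((X1 - X0) * ttX ψ - ttX ψ * (X1 - X0))) := by
      rw [hu]; noncomm_ring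
    rw [ha, hb2, add_zero] at e
    exact sub_eq_zero.mp e
  have huL : u ∈ LieX := by
    rw [hu]; exact sub_mem (add_mem (shift_mem hL) (tt_mem hL)) hL
  have hT : thX u ∈ LieX := by
    apply hom_lie _ _ huL
    intro b
    cases b
    · change thX X0 ∈ LieX
      rw [thX_X0]; exact iota_mem false
    · change thX X1 ∈ LieX
      rw [thX_X1]; exact add_mem (iota_mem false) (iota_mem true)
  have hTc : X1 * thX u = thX u * X1 := by
    have := congrArg thX hcomm
    simp only [map_mul, map_sub, thX_X0, thX_X1] at this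
    rw [add_sub_cancel_left] at this
    exact this
  have hn2 : ∀ b, coeff (thX (FreeAlgebra.ι ℚ b)) [] = 0 := by
    intro b
    cases b
    · change coeff (thX X0) [] = 0
      rw [thX_X0, coeff_iota]; simp
    · change coeff (thX X1) [] = 0
      rw [thX_X1, coeff_add, coeff_iota, coeff_iota]; simp
  have hlin : ∀ b, coeff u [b] = 0 := by
    intro b
    rw [hu, coeff_sub, coeff_add, lin_hom _ shift_nil (lie_ins hL).1 h.2.1 h.2.2.1,
      lin_hom _ tt_nil (lie_ins hL).1 h.2.1 h.2.2.1]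
    cases b
    · rw [h.2.1]; ring
    · rw [h.2.2.1]; ring
  have hu0 : u = 0 := by
    have h1 : thX u = 0 := by
      apply ext_coeff
      intro w
      rw [coeff_zero]
      by_cases hw : w = [true]
      · rw [hw]
        exact lin_hom _ hn2 (lie_ins huL).1 (hlin false) (hlin true) true
      · exact comm_X1 hT hTc w hw
    have := thX_inv u
    rw [h1, map_zero] at this
    exact this.symm
  exact sub_eq_zero.mp hu0

lemma dual_of_cocycle {ψ : QX} (hL : ψ ∈ LieX) (h3 : shiftX ψ + ttX ψ = ψ) : dual ψ = ψ := by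
  have h4 : shiftX (ttX ψ) = -ttX ψ := by
    have h5 := congrArg shiftX h3
    rw [map_add, shiftX_shiftX] at h5
    have h6 : shiftX ψ = ψ - ttX ψ := by rw [← h3]; abel_nf; rw [h3]; abel
    rw [h6] at h5
    have : shiftX (ttX ψ) = (ψ - ttX ψ) - ψ := by rw [← h5]; abel
    rw [this]; abel
  have h7 := congrArg ttX h4
  rw [braid, map_neg, ttX_ttX] at h7
  rw [dual_lie hL, h7, neg_neg]

lemma hexagon_of_cocycle {ψ : QX} (hL : ψ ∈ LieX) (h3 : shiftX ψ + ttX ψ = ψ) :
    ψ + shiftX (rhX ψ) + ttX (rhX ψ) = 0 := by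
  have h1 := dual_of_cocycle hL h3
  rw [dual_lie hL] at h1
  have h2 : rhX ψ = -ψ := by
    have := congrArg (fun z => -z) h1
    simpa using this
  rw [h2, map_neg, map_neg]
  have : ψ + -shiftX ψ + -ttX ψ = ψ - (shiftX ψ + ttX ψ) := by abel
  rw [this, h3, sub_self]

lemma dual_of_hexagon {ψ : QX} (h : ψ ∈ dm0)
    (hex : ψ + shiftX (rhX ψ) + ttX (rhX ψ) = 0) : dual ψ = ψ := by
  have hL : ψ ∈ LieX := h.1
  have hi := two_term h
  have hii := congrArg rhX hi
  simp only [map_add, map_sub, map_mul, map_zero, rhX_X0, rhX_X1, rh_shift] at hii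
  have hr : ttX (rhX ψ) = -ψ - shiftX (rhX ψ) := by
    have : ttX (rhX ψ) = (ψ + shiftX (rhX ψ) + ttX (rhX ψ)) - ψ - shiftX (rhX ψ) := by abel
    rw [this, hex, zero_sub]
  rw [hr] at hii
  set s := ψ + rhX ψ with hs
  set t := shiftX s with ht
  have ht2 : t = shiftX ψ + shiftX (rhX ψ) := by rw [ht, hs, map_add]
  -- `[b, s] = [c, t]`
  have hst : (X1 * s - s * X1) + ((X1 - X0) * t - t * (X1 - X0)) = 0 := by
    have e : (X1 * s - s * X1) + ((X1 - X0) * t - t * (X1 - X0)) =
        ((X0 * ψ - ψ * X0) + ((X1 - X0) * shiftX ψ - shiftX ψ * (X1 - X0))) -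
        (-X1 * rhX ψ - rhX ψ * -X1 +
          ((-X0 - -X1) * (-ψ - shiftX (rhX ψ)) - (-ψ - shiftX (rhX ψ)) * (-X0 - -X1))) := by
      rw [ht2, hs]; noncomm_ring
    rw [e, hi, hii, sub_zero]
  have hst2 : (X1 * t - t * X1) + (X0 * s - s * X0) = 0 := by
    have h1 := congrArg shiftX hst
    have hts : shiftX t = s := by rw [ht, shiftX_shiftX]
    simp only [map_add, map_sub, map_mul, map_zero, shiftX_X0, shiftX_X1, ← ht, hts] at h1
    have e : (X1 * t - t * X1) + (X0 * s - s * X0) =
        X1 * t - t * X1 + ((X1 - (X1 - X0)) * s - s * (X1 - (X1 - X0))) := by noncomm_ring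
    rw [e]; exact h1
  have e1 : X0 * s - s * X0 = t * X1 - X1 * t := by
    have e : X0 * s - s * X0 = ((X1 * t - t * X1) + (X0 * s - s * X0)) + (t * X1 - X1 * t) := by
      abel
    rw [e, hst2, zero_add]
  have e2 : X0 * t - t * X0 = X1 * (s + t) - (s + t) * X1 := by
    have e : X0 * t - t * X0 = X1 * (s + t) - (s + t) * X1 -
        ((X1 * s - s * X1) + ((X1 - X0) * t - t * (X1 - X0))) := by noncomm_ring
    rw [e, hst, sub_zero]
  have hsL : s ∈ LieX := add_mem hL (rh_mem hL)
  have hlin : ∀ b, coeff s [b] = 0 := by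
    intro b
    rw [hs, coeff_add, lin_hom _ rh_nil (lie_ins hL).1 h.2.1 h.2.2.1]
    cases b
    · rw [h.2.1]; ring
    · rw [h.2.2.1]; ring
  have htl : coeff t [false] = 0 := lin_hom _ shift_nil (lie_ins hsL).1 (hlin false) (hlin true) false
  have hz := pair_zero e1 e2 (lie_zs hsL (hlin false)) (lie_zs (shift_mem hsL) htl)
  have h1 : ψ + rhX ψ = 0 := hz.1
  rw [dual_lie hL]
  exact (eq_neg_of_add_eq_zero_left h1).symm

theorem hexagon_tfae {ψ : QX} (h : ψ ∈ dm0) :
    List.TFAE [dual ψ = ψ, dual ψ ∈ dm0, ψ + shiftX (rhX ψ) + ttX (rhX ψ) = 0,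
      shiftX ψ + ttX ψ = ψ, Four ψ] := by
  tfae_have 1 → 2 := fun h1 => by rw [h1]; exact h
  tfae_have 2 → 5 := fun h2 => four_of_mem h.1 h2
  tfae_have 5 → 4 := fun h5 => cocycle_of_four h h5
  tfae_have 4 → 3 := fun h4 => hexagon_of_cocycle h.1 h4
  tfae_have 3 → 1 := fun h3 => dual_of_hexagon h h3
  tfae_finish

end Pool.Agent.MP_a57f33_nt
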