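import Pool.Agent.Lib.MP_a57f33_nt.Defs

/-!
The Ihara bracket on `ℚ⟨x₀, x₁⟩` and homogeneous elements.
-/

namespace Pool.Agent.MP_a57f33_nt

/-- The algebra map `a ↦ (a, D_ψ(a); 0, a)` into upper triangular matrices, where `D_ψ` is the
derivation of `ℚ⟨x₀, x₁⟩` with `D_ψ(x₀) = 0` and `D_ψ(x₁) = [x₁, ψ]`. -/
noncomputable def derHom (ψ : QX) : QX →ₐ[ℚ] Matrix (Fin 2) (Fin 2) QX :=
  FreeAlgebra.lift ℚ fun b : Bool =>
    !![FreeAlgebra.ι ℚ b,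
      if b then FreeAlgebra.ι ℚ true * ψ - ψ * FreeAlgebra.ι ℚ true else 0;
      0, FreeAlgebra.ι ℚ b]

/-- The derivation `D_ψ` of `ℚ⟨x₀, x₁⟩` with `D_ψ(x₀) = 0` and `D_ψ(x₁) = [x₁, ψ]`. -/
noncomputable def der (ψ a : QX) : QX := derHom ψ a 0 1

/-- The Ihara bracket `{ψ, φ} = [ψ, φ] + D_ψ(φ) - D_φ(ψ)`. -/
noncomputable def ihara (ψ φ : QX) : QX := ψ * φ - φ * ψ + der ψ φ - der φ ψ

/-- `ψ` is homogeneous of weight `N`: only words of length `N` occur in it. -/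
def IsHom (N : ℕ) (ψ : QX) : Prop := ∀ w : List Bool, w.length ≠ N → coeff ψ w = 0

end Pool.Agent.MP_a57f33_nt
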