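import Pool.Agent.Lib.MP_a57f33_nt.Coeff

/-!
Insertion operators on functions on words in two letters.
-/

namespace Pool.Agent.MP_a57f33_nt

/-- Sum of `c` over all insertions of the letter `a` in a word. -/
def ins (a : Bool) : List Bool → (List Bool → ℚ) → ℚ
  | [], c => c [a]
  | b :: w, c => c (a :: b :: w) + ins a w (fun t => c (b :: t))

/-- Sum of `c` over all insertions of the word `v` right after a letter `b`. -/
def aft (b : Bool) (v : List Bool) : List Bool → (List Bool → ℚ) → ℚ
  | [], _ => 0
  | d :: w, c => (if d = b then c (d :: (v ++ w)) else 0) + aft b v w (fun t => c (d :: t))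

/-- Sum of `c` over all insertions of the word `v` right before a letter `b`. -/
def bef (b : Bool) (v : List Bool) : List Bool → (List Bool → ℚ) → ℚ
  | [], _ => 0
  | d :: w, c => (if d = b then c (v ++ d :: w) else 0) + bef b v w (fun t => c (d :: t))

/-- `x₀^m`. -/
abbrev zs (m : ℕ) : List Bool := List.replicate m false

/-- The stuffle by `y_{m+1}`. -/
def RR (m : ℕ) (w : List Bool) (c : List Bool → ℚ) : ℚ :=
  c (zs m ++ true :: w) + aft true (zs m ++ [true]) w c + bef true (zs (m + 1)) w c

/-- The conjugate of `RR 0` by duality. -/
def RB (w : List Bool) (c : List Bool → ℚ) : ℚ :=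
  c (w ++ [false]) + bef false [false] w c + aft false [true] w c

lemma ins_add (a : Bool) (w : List Bool) : ∀ c c' : List Bool → ℚ,
    ins a w (fun t => c t + c' t) = ins a w c + ins a w c' := by
  induction w with
  | nil => intro c c'; simp only [ins]
  | cons b w ih => intro c c'; simp only [ins, ih]; ring

lemma ins_mul (a : Bool) (w : List Bool) : ∀ (r : ℚ) (c : List Bool → ℚ),
    ins a w (fun t => r * c t) = r * ins a w c := by
  induction w with
  | nil => intro c c'; simp only [ins]
  | cons b w ih => intro c c'; simp only [ins, ih]; ring

lemma ins_zero (a : Bool) (w : List Bool) : ins a w (fun _ => 0) = 0 := by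
  have := ins_mul a w 0 (fun _ => 0)
  simpa using this

lemma ins_congr (a : Bool) (w : List Bool) : ∀ {c c' : List Bool → ℚ},
    (∀ p q, p ++ q = w → c (p ++ a :: q) = c' (p ++ a :: q)) → ins a w c = ins a w c' := by
  induction w with
  | nil => intro c c' h; exact h [] [] rfl
  | cons b w ih =>
    intro c c' h
    simp only [ins]
    have h0 : c (a :: b :: w) = c' (a :: b :: w) := h [] (b :: w) rfl
    rw [h0]
    congr 1
    apply ih
    intro p q hpq
    exact h (b :: p) q (by simp [hpq])

lemma ins_eq_zero (a : Bool) (w : List Bool) {c : List Bool → ℚ}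
    (h : ∀ p q, p ++ q = w → c (p ++ a :: q) = 0) : ins a w c = 0 := by
  rw [ins_congr a w (c' := fun _ => 0) h, ins_zero]

lemma aft_add (b : Bool) (v w : List Bool) : ∀ c c' : List Bool → ℚ,
    aft b v w (fun t => c t + c' t) = aft b v w c + aft b v w c' := by
  induction w with
  | nil => intro c c'; simp only [aft]; ring
  | cons d w ih => intro c c'; simp only [aft, ih]; split_ifs <;> ring

lemma bef_add (b : Bool) (v w : List Bool) : ∀ c c' : List Bool → ℚ,
    bef b v w (fun t => c t + c' t) = bef b v w c + bef b v w c' := by
  induction w with
  | nil => intro c c'; simp only [bef]; ring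
  | cons d w ih => intro c c'; simp only [bef, ih]; split_ifs <;> ring

lemma aft_mul (b : Bool) (v w : List Bool) : ∀ (r : ℚ) (c : List Bool → ℚ),
    aft b v w (fun t => r * c t) = r * aft b v w c := by
  induction w with
  | nil => intro c c'; simp only [aft]; ring
  | cons d w ih => intro c c'; simp only [aft, ih]; split_ifs <;> ring

lemma bef_mul (b : Bool) (v w : List Bool) : ∀ (r : ℚ) (c : List Bool → ℚ),
    bef b v w (fun t => r * c t) = r * bef b v w c := by
  induction w with
  | nil => intro c c'; simp only [bef]; ring
  | cons d w ih => intro c c'; simp only [bef, ih]; split_ifs <;> ring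

lemma RR_mul (m : ℕ) (w : List Bool) (r : ℚ) (c : List Bool → ℚ) :
    RR m w (fun t => r * c t) = r * RR m w c := by
  simp only [RR, aft_mul, bef_mul]; ring

lemma RR_add (m : ℕ) (w : List Bool) (c c' : List Bool → ℚ) :
    RR m w (fun t => c t + c' t) = RR m w c + RR m w c' := by
  simp only [RR, aft_add, bef_add]; ring

lemma RR_sub (m : ℕ) (w : List Bool) (c c' : List Bool → ℚ) :
    RR m w (fun t => c t - c' t) = RR m w c - RR m w c' := by
  have h1 : (fun t => c t - c' t) = fun t => c t + (-1) * c' t := by funext t; ring
  rw [h1, RR_add, RR_mul]; ring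

lemma ins_block (m : ℕ) (w : List Bool) : ∀ f : List Bool → ℚ,
    ins false (zs m ++ true :: w) f =
      (m + 1) * f (zs (m + 1) ++ true :: w) + ins false w (fun t => f (zs m ++ true :: t)) := by
  induction m with
  | zero => intro f; simp [ins, List.replicate_succ]
  | succ m ih =>
    intro f
    have h1 : zs (m + 1) ++ true :: w = false :: (zs m ++ true :: w) := by
      simp [List.replicate_succ]
    rw [h1, ins, ih]
    simp only [List.replicate_succ, List.cons_append]
    push_cast
    ring

lemma comm_aft (m : ℕ) (w : List Bool) : ∀ c : List Bool → ℚ,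
    aft true (zs m ++ [true]) w (fun t => ins false t c) =
      ins false w (fun t => aft true (zs m ++ [true]) t c) +
        (m + 1) * aft true (zs (m + 1) ++ [true]) w c := by
  induction w with
  | nil => intro c; simp [aft, ins]
  | cons d w ih =>
    intro c
    have e1 : ∀ t, ins false (d :: t) c = c (false :: d :: t) + ins false t (fun s => c (d :: s)) :=
      fun t => rfl
    rw [show ins false (d :: w) (fun t => aft true (zs m ++ [true]) t c) =
      aft true (zs m ++ [true]) (false :: d :: w) c +
        ins false w (fun t => aft true (zs m ++ [true]) (d :: t) c) from rfl]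
    simp only [aft]
    rw [ins_add]
    simp only [e1]
    rw [aft_add, ih]
    cases d with
    | false => simp [ins_zero]; ring
    | true =>
      simp only [if_true, List.append_assoc, List.cons_append, List.nil_append]
      rw [ins_block m w]
      simp
      ring

lemma comm_bef (k : ℕ) (w : List Bool) : ∀ c : List Bool → ℚ,
    bef true (zs k) w (fun t => ins false t c) =
      ins false w (fun t => bef true (zs k) t c) + k * bef true (zs (k + 1)) w c := by
  induction w with
  | nil => intro c; simp [bef, ins]
  | cons d w ih =>
    intro c
    have e1 : ∀ t, ins false (d :: t) c = c (false :: d :: t) + ins false t (fun s => c (d :: s)) :=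
      fun t => rfl
    rw [show ins false (d :: w) (fun t => bef true (zs k) t c) =
      bef true (zs k) (false :: d :: w) c +
        ins false w (fun t => bef true (zs k) (d :: t) c) from rfl]
    simp only [bef]
    rw [ins_add]
    simp only [e1]
    rw [bef_add, ih]
    cases d with
    | false => simp [ins_zero]; ring
    | true =>
      simp only [if_true]
      rw [ins_block k w]
      simp [List.replicate_succ]
      ring

lemma comm_RR (m : ℕ) (w : List Bool) (c : List Bool → ℚ) :
    RR m w (fun t => ins false t c) =
      ins false w (fun t => RR m t c) + (m + 1) * RR (m + 1) w c := by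
  unfold RR
  beta_reduce
  rw [comm_aft, comm_bef, ins_add, ins_add, ins_block]
  push_cast
  ring

lemma aft_sum (w : List Bool) : ∀ c : List Bool → ℚ,
    c (true :: w) + aft true [true] w c + aft false [true] w c = ins true w c := by
  induction w with
  | nil => intro c; simp [aft, ins]
  | cons d w ih =>
    intro c
    have := ih (fun t => c (d :: t))
    simp only [aft, ins]
    cases d <;> simp at this ⊢ <;> linarith

lemma bef_sum (w : List Bool) : ∀ c : List Bool → ℚ,
    c (w ++ [false]) + bef true [false] w c + bef false [false] w c = ins false w c := by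
  induction w with
  | nil => intro c; simp [bef, ins]
  | cons d w ih =>
    intro c
    have := ih (fun t => c (d :: t))
    simp only [bef, ins]
    cases d <;> simp at this ⊢ <;> linarith

lemma RR_add_RB (w : List Bool) (c : List Bool → ℚ) :
    RR 0 w c + RB w c = ins false w c + ins true w c := by
  rw [← aft_sum, ← bef_sum]
  simp only [RR, RB, List.replicate_zero, List.nil_append, zero_add, List.replicate_one]
  ring

lemma dualWord_append (v w : List Bool) : dualWord (v ++ w) = dualWord w ++ dualWord v := by
  simp [dualWord]

lemma dualWord_cons (a : Bool) (w : List Bool) : dualWord (a :: w) = dualWord w ++ [!a] := by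
  simp [dualWord]

@[simp] lemma dualWord_nil : dualWord [] = [] := rfl

@[simp] lemma dualWord_dualWord (w : List Bool) : dualWord (dualWord w) = w := by
  have : (not ∘ not) = id := by funext b; simp
  simp [dualWord, List.map_reverse, this]

lemma dualWord_length (w : List Bool) : (dualWord w).length = w.length := by
  simp [dualWord]

lemma dualWord_ne_nil {w : List Bool} (h : w ≠ []) : dualWord w ≠ [] := by
  simpa [dualWord] using h

lemma mem_dualWord {a : Bool} {w : List Bool} : a ∈ dualWord w ↔ (!a) ∈ w := by
  simp [dualWord]

lemma aft_snoc (b : Bool) (v : List Bool) (d : Bool) (w : List Bool) : ∀ c : List Bool → ℚ,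
    aft b v (w ++ [d]) c =
      aft b v w (fun t => c (t ++ [d])) + if d = b then c (w ++ d :: v) else 0 := by
  induction w with
  | nil => intro c; simp [aft]
  | cons e w ih =>
    intro c
    simp only [List.cons_append, aft, ih]
    simp
    ring

lemma bef_snoc (b : Bool) (v : List Bool) (d : Bool) (w : List Bool) : ∀ c : List Bool → ℚ,
    bef b v (w ++ [d]) c =
      bef b v w (fun t => c (t ++ [d])) + if d = b then c (w ++ v ++ [d]) else 0 := by
  induction w with
  | nil => intro c; simp [bef]
  | cons e w ih =>
    intro c
    simp only [List.cons_append, bef, ih]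
    simp
    ring

lemma bef_dual (b : Bool) (v w : List Bool) : ∀ c : List Bool → ℚ,
    bef b v w (fun t => c (dualWord t)) = aft (!b) (dualWord v) (dualWord w) c := by
  induction w with
  | nil => intro c; simp [bef, aft]
  | cons d w ih =>
    intro c
    have h1 := ih (fun t => c (t ++ [!d]))
    simp only [bef, dualWord_cons] at h1 ⊢
    rw [aft_snoc, h1, dualWord_append, dualWord_cons]
    cases d <;> cases b <;> simp <;> ring

lemma aft_dual (b : Bool) (v w : List Bool) : ∀ c : List Bool → ℚ,
    aft b v w (fun t => c (dualWord t)) = bef (!b) (dualWord v) (dualWord w) c := by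
  induction w with
  | nil => intro c; simp [bef, aft]
  | cons d w ih =>
    intro c
    have h1 := ih (fun t => c (t ++ [!d]))
    simp only [aft, dualWord_cons] at h1 ⊢
    rw [bef_snoc, h1, dualWord_append]
    cases d <;> cases b <;> simp <;> ring

lemma RB_dual (w : List Bool) (c : List Bool → ℚ) :
    RB w (fun t => c (dualWord t)) = RR 0 (dualWord w) c := by
  unfold RB RR
  rw [aft_dual, bef_dual]
  simp [dualWord_append, dualWord_cons]

end Pool.Agent.MP_a57f33_nt
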