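import Pool.Agent.Lib.MP_a57f33_nt.Codepth

/-!
The ideal generated by the quasisymmetric polynomials of positive degree in `r` variables
contains all monomials of degree at least `r` (in terms of linear functionals).
-/

namespace Pool.Agent.MP_a57f33_nt

/-- The functional `G` on monomials, applied to the product of the monomial with exponents `a`
and the fundamental quasisymmetric polynomial of the composition with parts `p + 1`, `p ∈ μ`. -/
def FF : List ℕ → (List ℕ → ℚ) → List ℕ → ℚ
  | [], G, a => G a
  | _ :: _, _, [] => 0
  | 0 :: ν, G, i :: a => FF ν (fun b => G ((i + 1) :: b)) a + FF (0 :: ν) (fun b => G (i :: b)) a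
  | (p + 1) :: ν, G, i :: a => FF (p :: ν) G ((i + 1) :: a) +
      FF ((p + 1) :: ν) (fun b => G (i :: b)) a
termination_by μ _ a => (a.length, μ.sum)

/-- The same for monomial quasisymmetric polynomials. -/
def MM : List ℕ → (List ℕ → ℚ) → List ℕ → ℚ
  | [], G, a => G a
  | _ :: _, _, [] => 0
  | b :: β, G, i :: a => MM β (fun l => G ((i + b) :: l)) a + MM (b :: β) (fun l => G (i :: l)) a

@[simp] lemma FF_nil (G : List ℕ → ℚ) (a : List ℕ) : FF [] G a = G a := by
  rw [FF]

@[simp] lemma FF_cons_nil (p : ℕ) (ν : List ℕ) (G : List ℕ → ℚ) : FF (p :: ν) G [] = 0 := by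
  rw [FF]

lemma FF_zero (ν : List ℕ) (G : List ℕ → ℚ) (i : ℕ) (a : List ℕ) :
    FF (0 :: ν) G (i :: a) =
      FF ν (fun b => G ((i + 1) :: b)) a + FF (0 :: ν) (fun b => G (i :: b)) a := by
  rw [FF]

lemma FF_succ (p : ℕ) (ν : List ℕ) (G : List ℕ → ℚ) (i : ℕ) (a : List ℕ) :
    FF ((p + 1) :: ν) G (i :: a) = FF (p :: ν) G ((i + 1) :: a) +
      FF ((p + 1) :: ν) (fun b => G (i :: b)) a := by
  rw [FF]

lemma FF_vanish (a : List ℕ) : ∀ (μ : List ℕ) (G : List ℕ → ℚ),
    (∀ b : List ℕ, b.length = a.length → G b = 0) → FF μ G a = 0 := by
  induction a with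
  | nil =>
    intro μ G h
    cases μ with
    | nil => simpa using h [] rfl
    | cons p ν => simp
  | cons i a ih =>
    intro μ G h
    cases μ with
    | nil => simpa using h (i :: a) rfl
    | cons p ν =>
      induction p generalizing i with
      | zero =>
        rw [FF_zero, ih, ih, add_zero]
        · intro b hb; exact h _ (by simp [hb])
        · intro b hb; exact h _ (by simp [hb])
      | succ p ihp =>
        rw [FF_succ, ihp, ih, add_zero]
        · intro b hb; exact h _ (by simp [hb])
        · intro b hb; exact h _ (by simpa using hb)

/-- Unrolled recursion. -/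
lemma FF_unroll (ν : List ℕ) (G : List ℕ → ℚ) (a : List ℕ) (p : ℕ) : ∀ i : ℕ,
    (∀ j, i ≤ j → j ≤ i + p → ∀ b : List ℕ, b.length = a.length → G (j :: b) = 0) →
    FF (p :: ν) G (i :: a) = FF ν (fun b => G ((i + p + 1) :: b)) a := by
  induction p with
  | zero =>
    intro i h
    rw [FF_zero, FF_vanish a (0 :: ν), add_zero]
    intro b hb
    exact h i le_rfl (by omega) b hb
  | succ p ih =>
    intro i h
    rw [FF_succ, ih (i + 1), FF_vanish a ((p + 1) :: ν), add_zero]
    · congr 1
      funext b
      rw [show i + 1 + p + 1 = i + (p + 1) + 1 by ring]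
    · intro b hb
      exact h i le_rfl (by omega) b hb
    · intro j h1 h2 b hb
      exact h j (by omega) (by omega) b hb

lemma FF_tail {t r : ℕ} (ht : 1 ≤ t) {G : List ℕ → ℚ}
    (hG : ∀ μ : List ℕ, μ ≠ [] → t ≤ μ.sum + 1 → ∀ a : List ℕ, a.length = r + 1 → FF μ G a = 0)
    (μ : List ℕ) : t ≤ μ.sum → ∀ (i : ℕ) (a : List ℕ), a.length = r →
      FF μ (fun b => G (i :: b)) a = 0 := by
  induction μ with
  | nil => intro h; simp at h; omega
  | cons p ν ih =>
    intro h i a ha
    cases p with
    | zero =>
      have h1 := hG (0 :: ν) (by simp) (by omega) (i :: a) (by simp [ha])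
      rw [FF_zero, ih (by simpa using h) (i + 1) a ha, zero_add] at h1
      exact h1
    | succ p =>
      have h1 := hG ((p + 1) :: ν) (by simp) (by omega) (i :: a) (by simp [ha])
      rw [FF_succ, hG (p :: ν) (by simp) (by simp at h ⊢; omega) ((i + 1) :: a) (by simp [ha]),
        zero_add] at h1
      exact h1

/-- A functional that vanishes on the ideal of the quasisymmetric polynomials vanishes in
degrees `≥ r`. -/
lemma FF_main (r : ℕ) : ∀ (t d : ℕ) (G : List ℕ → ℚ), 1 ≤ t →
    (∀ μ : List ℕ, μ ≠ [] → t ≤ μ.sum + 1 → ∀ a : List ℕ, a.length = r + 1 → FF μ G a = 0) →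
    (∀ a : List ℕ, a.length = r + 1 → a.sum ≠ d → G a = 0) → r + t ≤ d →
    ∀ a : List ℕ, a.length = r + 1 → G a = 0 := by
  induction r with
  | zero =>
    intro t d G ht hG hd hrt a ha
    obtain ⟨j, rfl⟩ := List.length_eq_one_iff.mp ha
    by_cases hj : j = d
    · obtain ⟨j, rfl⟩ : ∃ j', j = j' + 1 := ⟨j - 1, by omega⟩
      have h1 := hG [j] (by simp) (by simp; omega) [0] rfl
      rw [FF_unroll [] G [] j 0] at h1
      · simpa using h1
      · intro k hk1 hk2 b hb
        have : b = [] := List.length_eq_zero_iff.mp hb
        subst this
        apply hd _ rfl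
        simp; omega
    · exact hd _ rfl (by simpa using hj)
  | succ r ih =>
    intro t d G ht hG hd hrt
    have key : ∀ j : ℕ, ∀ a : List ℕ, a.length = r + 1 → G (j :: a) = 0 := by
      intro j
      induction j using Nat.strong_induction_on with
      | _ j ihj =>
        rcases Nat.eq_zero_or_pos j with h0 | h0
        · subst h0
          refine ih (t + 1) d (fun b => G (0 :: b)) (by omega) ?_ ?_ (by omega)
          · intro μ _ hμ a ha
            exact FF_tail ht hG μ (by omega) 0 a ha
          · intro a ha hs
            exact hd _ (by simp [ha]) (by simpa using hs)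
        obtain ⟨j, rfl⟩ : ∃ j', j = j' + 1 := ⟨j - 1, by omega⟩
        have hun : ∀ (μ : List ℕ) (a : List ℕ), a.length = r + 1 → t ≤ j + μ.sum + 1 →
            FF μ (fun b => G ((j + 1) :: b)) a = 0 := by
          intro μ a ha hμ
          have h1 := hG (j :: μ) (by simp) (by simpa using hμ) (0 :: a) (by simp [ha])
          rw [FF_unroll μ G a j 0] at h1
          · simpa using h1
          · intro k _ hk2 b hb
            exact ihj k (by omega) b (by omega)
        rcases Nat.lt_or_ge j t with h1 | h1
        · rcases Nat.lt_or_ge (j + 1) t with h2 | h2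
          · refine ih (t - j) (d - (j + 1)) (fun b => G ((j + 1) :: b)) (by omega) ?_ ?_ (by omega)
            · intro μ _ hμ a ha
              exact hun μ a ha (by omega)
            · intro a ha hs
              apply hd _ (by simp [ha])
              simp
              omega
          · intro a ha
            have := hun [] a ha (by simp; omega)
            simpa using this
        · intro a ha
          have := hun [] a ha (by simp; omega)
          simpa using this
    intro a ha
    rcases a with _ | ⟨j, a⟩
    · simp at ha
    · exact key j a (by simpa using ha)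

/-- The monomial quasisymmetric polynomials in a fundamental one. -/
def refs : List ℕ → List (List ℕ)
  | [] => [[]]
  | 0 :: ν => (refs ν).map (1 :: ·)
  | (p + 1) :: ν => (refs (p :: ν)).map (1 :: ·) ++
      (refs (p :: ν)).map (fun l => (l.headD 0 + 1) :: l.tail)
termination_by μ => (μ.length, μ.sum)

lemma refs_nil : refs [] = [[]] := by rw [refs]

lemma refs_zero (ν : List ℕ) : refs (0 :: ν) = (refs ν).map (1 :: ·) := by rw [refs]

lemma refs_succ (p : ℕ) (ν : List ℕ) : refs ((p + 1) :: ν) = (refs (p :: ν)).map (1 :: ·) ++
      (refs (p :: ν)).map (fun l => (l.headD 0 + 1) :: l.tail) := by rw [refs]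

lemma refs_ne (p : ℕ) (ν β : List ℕ) (h : β ∈ refs (p :: ν)) : β ≠ [] := by
  cases p with
  | zero =>
    rw [refs_zero, List.mem_map] at h
    obtain ⟨x, _, rfl⟩ := h
    simp
  | succ p =>
    rw [refs_succ, List.mem_append, List.mem_map, List.mem_map] at h
    rcases h with ⟨x, _, rfl⟩ | ⟨x, _, rfl⟩ <;> simp

lemma refs_pos (μ : List ℕ) : ∀ β ∈ refs μ, ∀ b ∈ β, 1 ≤ b := by
  induction μ with
  | nil =>
    intro β h b hb
    rw [refs_nil, List.mem_singleton] at h
    subst h
    simp at hb
  | cons p ν ih =>
    induction p with
    | zero =>
      intro β h b hb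
      rw [refs_zero, List.mem_map] at h
      obtain ⟨x, hx, rfl⟩ := h
      rcases List.mem_cons.mp hb with rfl | hb
      · exact le_rfl
      · exact ih x hx b hb
    | succ p ihp =>
      intro β h b hb
      rw [refs_succ, List.mem_append, List.mem_map, List.mem_map] at h
      rcases h with ⟨x, hx, rfl⟩ | ⟨x, hx, rfl⟩
      · rcases List.mem_cons.mp hb with rfl | hb
        · exact le_rfl
        · exact ihp x hx b hb
      · rcases List.mem_cons.mp hb with rfl | hb
        · omega
        · exact ihp x hx b (List.mem_of_mem_tail hb)

lemma FF_eq (a : List ℕ) : ∀ (μ : List ℕ) (G : List ℕ → ℚ),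
    FF μ G a = ((refs μ).map (fun β => MM β G a)).sum := by
  induction a with
  | nil =>
    intro μ G
    cases μ with
    | nil => rw [refs_nil]; simp [MM]
    | cons p ν =>
      rw [FF_cons_nil]
      symm
      apply List.sum_eq_zero
      intro x hx
      rw [List.mem_map] at hx
      obtain ⟨β, hβ, rfl⟩ := hx
      have := refs_ne p ν β hβ
      cases β with
      | nil => exact absurd rfl this
      | cons b β => rfl
  | cons i a ih =>
    intro μ G
    cases μ with
    | nil => rw [refs_nil]; simp [MM]
    | cons p ν =>
      induction p generalizing i with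
      | zero =>
        rw [FF_zero, ih, ih, refs_zero, List.map_map, List.map_map, ← List.sum_map_add]
        rfl
      | succ p ihp =>
        rw [FF_succ, ihp, ih, refs_succ, List.map_append, List.map_append, List.sum_append,
          List.sum_append, List.map_map, List.map_map, List.map_map, List.map_map,
          ← List.sum_map_add, ← List.sum_map_add, ← List.sum_map_add]
        congr 1
        apply List.map_congr_left
        intro β hβ
        have := refs_ne p ν β hβ
        cases β with
        | nil => exact absurd rfl this
        | cons b β =>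
          simp only [Function.comp_apply, MM, List.headD_cons, List.tail_cons]
          rw [show i + 1 + b = i + (b + 1) by ring]
          ring

lemma stuffle_length (u : List ℕ+) : ∀ v : List ℕ+, ∀ w ∈ stuffle u v, u.length ≤ w.length := by
  induction u with
  | nil => intro v w _; simp
  | cons a u ih =>
    intro v
    induction v with
    | nil =>
      intro w hw
      rw [stuffle, List.mem_singleton] at hw
      · subst hw; exact le_rfl
      · simp
    | cons b v ihv =>
      intro w hw
      rw [stuffle, List.mem_append, List.mem_append, List.mem_map, List.mem_map,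
        List.mem_map] at hw
      rcases hw with (⟨x, hx, rfl⟩ | ⟨x, hx, rfl⟩) | ⟨x, hx, rfl⟩
      · simpa using ih _ x hx
      · have := ihv x hx
        simp only [List.length_cons] at this ⊢
        omega
      · simpa using ih _ x hx

lemma succPNat_pred (a : ℕ+) : Nat.succPNat ((a : ℕ) - 1) = a := by
  apply PNat.eq
  rw [Nat.succPNat_coe, Nat.succ_eq_add_one]
  have := a.pos
  omega

lemma stuffle_MM (u : List ℕ+) : ∀ (v : List ℕ+) (c : List ℕ+ → ℚ),
    (∀ w : List ℕ+, u.length < w.length → c w = 0) →
    ((stuffle u v).map c).sum = MM (v.map fun b : ℕ+ => (b : ℕ)) (fun l => c (l.map Nat.succPNat))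
      (u.map fun a : ℕ+ => (a : ℕ) - 1) := by
  induction u with
  | nil =>
    intro v c h
    cases v with
    | nil => simp [stuffle, MM]
    | cons b v =>
      have := h (b :: v) (by simp)
      simp [stuffle, MM, this]
  | cons a u ih =>
    intro v c h
    cases v with
    | nil =>
      simp only [stuffle, List.map_cons, List.map_nil, List.sum_cons, List.sum_nil, add_zero, MM,
        List.map_map]
      rw [succPNat_pred]
      congr 2
      symm
      conv_rhs => rw [← List.map_id u]
      apply List.map_congr_left
      intro x _
      exact succPNat_pred x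
    | cons b v =>
      rw [stuffle, List.map_append, List.map_append, List.sum_append, List.sum_append,
        List.map_map, List.map_map, List.map_map]
      have e1 : (c ∘ fun x => a :: x) = fun x => c (a :: x) := rfl
      have e3 : (c ∘ fun x => (a + b) :: x) = fun x => c ((a + b) :: x) := rfl
      have e2 : ((stuffle (a :: u) v).map (c ∘ fun x => b :: x)).sum = 0 := by
        apply List.sum_eq_zero
        intro x hx
        rw [List.mem_map] at hx
        obtain ⟨w, hw, rfl⟩ := hx
        have := stuffle_length (a :: u) v w hw
        apply h
        simp only [List.length_cons] at this ⊢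
        omega
      rw [e1, e2, e3, ih (b :: v) (fun x => c (a :: x)), ih v (fun x => c ((a + b) :: x))]
      · simp only [List.map_cons, MM, succPNat_pred]
        have e4 : Nat.succPNat ((a : ℕ) - 1 + (b : ℕ)) = a + b := by
          apply PNat.eq
          rw [Nat.succPNat_coe, Nat.succ_eq_add_one, PNat.add_coe]
          have := a.pos
          omega
        rw [e4]; ring
      · intro w hw
        apply h
        simp only [List.length_cons]
        omega
      · intro w hw
        apply h
        simp only [List.length_cons]
        omega

lemma count_toX (u : List ℕ+) : (toX u).count false + u.length = (toX u).length := by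
  induction u with
  | nil => simp [toX]
  | cons n u ih =>
    simp only [toX, List.count_append, List.length_append, List.length_cons,
      List.length_replicate, List.count_cons, List.count_replicate] at ih ⊢
    simp
    omega

lemma length_toX_succ (k : List ℕ) : (toX (k.map Nat.succPNat)).length = k.sum + k.length := by
  induction k with
  | nil => simp [toX]
  | cons n k ih =>
    simp only [List.map_cons, toX, List.length_append, List.length_replicate, List.length_cons, ih,
      Nat.succPNat_coe, List.sum_cons]
    simp
    omega

/-- The inductive step: the part with `m` letters `x₀` and `r + 1 ≤ m` letters `x₁`. -/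
lemma half_step {ψ : QX} (h : ψ ∈ dm0) {m r : ℕ} (hN : IsHom (m + (r + 1)) ψ)
    (hal : ∀ n, al (coeff ψ) n = 0) (hr : r + 1 ≤ m)
    (hlow : ∀ w : List Bool, w.count false < m → coeff ψ w = 0) :
    ∀ w : List Bool, w.count false = m → coeff ψ w = 0 := by
  have hstar : starCoeff ψ = fun u => coeff ψ (toX u) := by
    funext u
    rw [starCoeff_eq]
    simp only [hal]
    simp
  have hlen : ∀ w : List ℕ+, r + 1 < w.length → coeff ψ (toX w) = 0 := by
    intro w hw
    have h1 := count_toX w
    by_cases h2 : (toX w).length = m + (r + 1)
    · apply hlow; omega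
    · exact hN _ h2
  set G : List ℕ → ℚ := fun k => coeff ψ (toX (k.map Nat.succPNat)) with hG
  have hMM : ∀ β : List ℕ, β ≠ [] → (∀ b ∈ β, 1 ≤ b) → ∀ k : List ℕ, k.length = r + 1 →
      MM β G k = 0 := by
    intro β hβ hpos k hk
    have h1 := dm0_stuffle h (u := k.map Nat.succPNat) (v := β.map fun b => Nat.succPNat (b - 1))
      (by rintro e; rw [List.map_eq_nil_iff] at e; subst e; simp at hk)
      (by simpa using hβ)
    rw [hstar, stuffle_MM _ _ _ (by intro w hw; exact hlen w (by simpa [hk] using hw))] at h1
    have e1 : (β.map fun b => Nat.succPNat (b - 1)).map (fun b : ℕ+ => (b : ℕ)) = β := by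
      rw [List.map_map]
      conv_rhs => rw [← List.map_id β]
      apply List.map_congr_left
      intro x hx
      have := hpos x hx
      simp only [Function.comp_apply, Nat.succPNat_coe, id_eq, Nat.succ_eq_add_one]
      omega
    have e2 : (k.map Nat.succPNat).map (fun a : ℕ+ => (a : ℕ) - 1) = k := by
      rw [List.map_map]
      conv_rhs => rw [← List.map_id k]
      apply List.map_congr_left
      intro x _
      simp
    rw [e1, e2] at h1
    exact h1
  have hFF : ∀ μ : List ℕ, μ ≠ [] → 1 ≤ μ.sum + 1 → ∀ a : List ℕ, a.length = r + 1 →
      FF μ G a = 0 := by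
    intro μ hμ _ a ha
    rw [FF_eq]
    apply List.sum_eq_zero
    intro x hx
    rw [List.mem_map] at hx
    obtain ⟨β, hβ, rfl⟩ := hx
    refine hMM β ?_ (refs_pos μ β hβ) a ha
    cases μ with
    | nil => exact absurd rfl hμ
    | cons p ν => exact refs_ne p ν β hβ
  have hmain := FF_main r 1 m G le_rfl hFF (by
    intro a ha hs
    apply hN
    rw [length_toX_succ, ha]
    omega) hr
  have hins := (lie_ins h.1).2 false
  have key : ∀ a : ℕ, ∀ v : List Bool, (v ++ true :: zs a).count false = m →
      coeff ψ (v ++ true :: zs a) = 0 := by
    intro a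
    induction a with
    | zero =>
      intro v hv
      by_cases hl : (v ++ true :: zs 0).length = m + (r + 1)
      · obtain ⟨u, _, hu⟩ := exists_toX v
        have e1 : v ++ true :: zs 0 = toX ((u.map fun a : ℕ+ => (a : ℕ) - 1).map Nat.succPNat) := by
          have : (u.map fun a : ℕ+ => (a : ℕ) - 1).map Nat.succPNat = u := by
            rw [List.map_map]
            conv_rhs => rw [← List.map_id u]
            apply List.map_congr_left
            intro x _
            exact succPNat_pred x
          rw [this, hu]; rfl
        rw [e1]
        apply hmain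
        rw [List.length_map]
        have h1 := count_toX u
        rw [hu] at h1
        simp only [List.replicate_zero] at hv hl
        omega
      · exact hN _ hl
    | succ a ih =>
      intro v hv
      have h1 := hins (v ++ true :: zs a) (by simp)
      rw [ins_append_true, ins_tail] at h1
      have h2 : ins false v (fun s => coeff ψ (s ++ true :: zs a)) = 0 := by
        apply ins_eq_zero
        intro p q hpq
        apply ih
        rw [← hv, ← hpq]
        simp [List.count_append]
        omega
      rw [h2, zero_add] at h1
      have h3 : ((a : ℚ) + 1) ≠ 0 := by positivity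
      exact (mul_eq_zero.mp h1).resolve_left h3
  intro w hw
  by_cases hl : w.length = m + (r + 1)
  · have ht : true ∈ w := by
      by_contra hnot
      have : w = zs w.length := by
        rw [List.eq_replicate_iff]
        refine ⟨rfl, fun b hb => ?_⟩
        cases b with
        | false => rfl
        | true => exact absurd hb hnot
      rw [this, List.count_replicate_self] at hw
      omega
    obtain ⟨v, a, rfl⟩ := true_split w ht
    exact key a v hw
  · exact hN _ hl

/-- An element of `dm0` of weight `N` is determined by its coefficients on the words with fewer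
than `N / 2` letters `x₀`. -/
theorem depth_half {ψ : QX} (h : ψ ∈ dm0) {N : ℕ} (hN : IsHom N ψ)
    (h0 : ∀ w : List Bool, w.length = N → 2 * w.count false < N → coeff ψ w = 0) : ψ = 0 := by
  have hzs : ∀ n, coeff ψ (zs n) = 0 := by
    intro n
    rcases n with _ | _ | n
    · exact (lie_ins h.1).1
    · exact h.2.1
    · have h1 := (lie_ins h.1).2 false (zs (n + 1)) (by simp [List.replicate_succ])
      rw [ins_tail] at h1
      have h2 : (((n + 1 : ℕ) : ℚ) + 1) ≠ 0 := by positivity
      exact (mul_eq_zero.mp h1).resolve_left h2
  have hal : ∀ n, al (coeff ψ) n = 0 := by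
    intro n
    rcases n with _ | _ | n
    · exact h.2.2.1
    · exact h.2.2.2.1
    · by_cases hn : n + 3 = N
      · rw [← DS1_dual_depth_one (dm0_subset_DS1 h) (n + 2) (by omega)]
        apply h0
        · simp; omega
        · simp [List.count_replicate]; omega
      · apply hN
        simp; omega
  have key : ∀ m : ℕ, ∀ w : List Bool, w.count false = m → coeff ψ w = 0 := by
    intro m
    induction m using Nat.strong_induction_on with
    | _ m ih =>
      intro w hw
      by_cases hl : w.length = N
      · rcases Nat.lt_or_ge (2 * m) N with h1 | h1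
        · exact h0 w hl (by omega)
        · have hle : w.count false ≤ w.length := List.count_le_length
          rcases Nat.lt_or_ge m N with h2 | h2
          · obtain ⟨r, rfl⟩ : ∃ r, N = m + (r + 1) := ⟨N - m - 1, by omega⟩
            exact half_step h hN hal (by omega) (fun w hw => ih _ hw w rfl) w hw
          · have h3 : w = zs w.length := by
              rw [List.eq_replicate_iff]
              refine ⟨rfl, fun b hb => ?_⟩
              have h4 : w.count false = w.length := by omega
              rw [List.count_eq_length] at h4
              exact (h4 b hb).symm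
            rw [h3]; exact hzs _
      · exact hN w hl
  apply ext_coeff
  intro w
  rw [key _ w rfl, coeff_zero]

end Pool.Agent.MP_a57f33_nt
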