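import Pool.Agent.Lib.MP_a57f33_nt.TwoTermA

/-!
The two-term relation `[x₀, ψ(x₀, x₁)] + [x₁ - x₀, ψ(x₁ - x₀, x₁)] = 0` on `dm₀`.
-/

namespace Pool.Agent.MP_a57f33_nt

attribute [local instance 100] LieRing.ofAssociativeRing

/-- The substitution `ψ ↦ ψ(x₁ - x₀, x₁)`. -/
noncomputable def shiftX : QX →ₐ[ℚ] QX :=
  FreeAlgebra.lift ℚ fun b : Bool => if b then FreeAlgebra.ι ℚ true
    else FreeAlgebra.ι ℚ true - FreeAlgebra.ι ℚ false

lemma shiftX_X0 : shiftX X0 = X1 - X0 := by simp [shiftX]

lemma shiftX_X1 : shiftX X1 = X1 := by simp [shiftX]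

lemma shiftX_shiftX (u : QX) : shiftX (shiftX u) = u := by
  have : shiftX.comp shiftX = AlgHom.id ℚ QX := by
    apply FreeAlgebra.hom_ext
    funext b
    cases b
    · change shiftX (shiftX X0) = X0
      rw [shiftX_X0, map_sub, shiftX_X1, shiftX_X0]
      abel
    · change shiftX (shiftX X1) = X1
      rw [shiftX_X1, shiftX_X1]
  exact AlgHom.congr_fun this u

/-- The shuffle antipode. -/
noncomputable def SS : QX →ₗ[ℚ] QX := anti (fun b => -FreeAlgebra.ι ℚ b)

lemma SS_mul (x y : QX) : SS (x * y) = SS y * SS x := anti_mul _ _ _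

lemma SS_X0 : SS X0 = -X0 := anti_iota _ _

lemma SS_X1 : SS X1 = -X1 := anti_iota _ _

lemma SS_const (c : ℚ) : SS (algebraMap ℚ QX c) = algebraMap ℚ QX c := by
  rw [Algebra.algebraMap_eq_smul_one, map_smul, SS, anti_one]

lemma anti_gA (u : QX) : anti gA u = shiftX (SS u) := by
  have : anti gA = shiftX.toLinearMap.comp SS := by
    apply linear_ext
    intro w
    simp only [LinearMap.comp_apply, AlgHom.toLinearMap_apply]
    induction w with
    | nil => rw [word_nil, anti_one, SS, anti_one, map_one]
    | cons b w ih =>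
      rw [word_cons, anti_mul, SS_mul, map_mul, ih, anti_iota, SS, anti_iota, map_neg]
      congr 1
      cases b
      · change X0 - X1 = -shiftX X0
        rw [shiftX_X0]; abel
      · change -X1 = -shiftX X1
        rw [shiftX_X1]
  exact LinearMap.congr_fun this u

lemma SS_lie {ψ : QX} (h : ψ ∈ LieX) : SS ψ = -ψ := by
  refine lie_induction (P := fun ψ => SS ψ = -ψ) ?_ ?_ ?_ ?_ ?_ h
  · intro b; exact anti_iota _ _
  · simp
  · intro x y hx hy; rw [map_add, hx, hy]; abel
  · intro r x hx; rw [map_smul, hx, smul_neg]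
  · intro x y _ _ hx hy
    rw [map_sub, SS_mul, SS_mul, hx, hy]
    noncomm_ring

lemma hom_lie (f : QX →ₐ[ℚ] QX) (hf : ∀ b, f (FreeAlgebra.ι ℚ b) ∈ LieX) {ψ : QX}
    (h : ψ ∈ LieX) : f ψ ∈ LieX := by
  refine lie_induction (P := fun ψ => f ψ ∈ LieX) hf ?_ ?_ ?_ ?_ h
  · rw [map_zero]; exact zero_mem _
  · intro x y hx hy; rw [map_add]; exact add_mem hx hy
  · intro r x hx; rw [map_smul]; exact LieX.smul_mem r hx
  · intro x y _ _ hx hy
    rw [map_sub, map_mul, map_mul]
    exact LieX.lie_mem hx hy

lemma iota_mem (b : Bool) : (FreeAlgebra.ι ℚ b : QX) ∈ LieX :=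
  LieSubalgebra.subset_lieSpan ⟨b, rfl⟩

/-- Insertion of a letter in a word starting with a block of this letter. -/
lemma ins_rep (a : Bool) (i : ℕ) (w : List Bool) : ∀ f : List Bool → ℚ,
    ins a (List.replicate i a ++ w) f =
      i * f (List.replicate (i + 1) a ++ w) +
        ins a w (fun t => f (List.replicate i a ++ t)) := by
  induction i with
  | zero => intro f; simp
  | succ i ih =>
    intro f
    rw [show List.replicate (i + 1) a ++ w = a :: (List.replicate i a ++ w) by
      rw [List.replicate_succ, List.cons_append]]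
    simp only [ins]
    rw [ih]
    have e1 : f (a :: a :: (List.replicate i a ++ w)) =
        f (List.replicate (i + 1 + 1) a ++ w) := by
      simp [List.replicate_succ]
    have e2 : f (a :: (List.replicate (i + 1) a ++ w)) =
        f (List.replicate (i + 1 + 1) a ++ w) := by
      simp [List.replicate_succ]
    have e3 : (fun t => f (a :: (List.replicate i a ++ t))) =
        fun t => f (List.replicate (i + 1) a ++ t) := by
      funext t; simp [List.replicate_succ]
    rw [e1, e2, e3]
    push_cast
    ring

/-- If the coefficients of a Lie element vanish on the words which start with `!a` and end with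
`a`, then they vanish on all words which are not a power of `a` and end in `a`. -/
lemma lie_ends_step {g : QX} (hg : g ∈ LieX) (a : Bool)
    (h : ∀ w, coeff g ((!a) :: (w ++ [a])) = 0) (i : ℕ) :
    ∀ w, coeff g (List.replicate i a ++ (!a) :: (w ++ [a])) = 0 := by
  induction i with
  | zero => intro w; simpa using h w
  | succ i ih =>
    intro w
    have h1 := (lie_ins hg).2 a (List.replicate i a ++ (!a) :: (w ++ [a])) (by simp)
    rw [ins_rep] at h1
    simp only [ins] at h1
    have h2 : ins a (w ++ [a])
        (fun t => coeff g (List.replicate i a ++ (!a) :: t)) = 0 := by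
      apply ins_eq_zero
      intro p q hpq
      rcases List.eq_nil_or_concat q with hq | ⟨q', b, hq⟩
      · subst hq
        exact ih p
      · rw [List.concat_eq_append] at hq
        subst hq
        have hb : b = a := by
          rw [← List.append_assoc] at hpq
          have := congrArg List.getLast? hpq
          simpa using this
        subst hb
        have := ih (p ++ b :: q')
        simpa using this
    have h3 : coeff g (List.replicate i a ++ a :: (!a) :: (w ++ [a])) =
        coeff g (List.replicate (i + 1) a ++ (!a) :: (w ++ [a])) := by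
      congr 1
      rw [List.replicate_succ']
      simp
    rw [h2, h3] at h1
    have h4 : ((i : ℚ) + 1) * coeff g (List.replicate (i + 1) a ++ (!a) :: (w ++ [a])) = 0 := by
      linarith
    rcases mul_eq_zero.mp h4 with h5 | h5
    · exfalso
      have : (0 : ℚ) ≤ i := Nat.cast_nonneg i
      linarith
    · exact h5

lemma lie_power {g : QX} (hg : g ∈ LieX) (a : Bool) (n : ℕ) :
    coeff g (List.replicate (n + 2) a) = 0 := by
  have h1 := (lie_ins hg).2 a (List.replicate (n + 1) a ++ []) (by simp)
  rw [ins_rep] at h1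
  simp only [ins] at h1
  have h2 : coeff g (List.replicate (n + 1) a ++ [a]) = coeff g (List.replicate (n + 2) a) := by
    congr 1
    exact List.replicate_succ'.symm
  rw [List.append_nil] at h1
  rw [h2] at h1
  push_cast at h1
  have h4 : ((n : ℚ) + 2) * coeff g (List.replicate (n + 2) a) = 0 := by
    have : coeff g (List.replicate (n + 1 + 1) a) = coeff g (List.replicate (n + 2) a) := rfl
    rw [this] at h1
    linarith
  rcases mul_eq_zero.mp h4 with h5 | h5
  · exfalso
    have : (0 : ℚ) ≤ n := Nat.cast_nonneg n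
    linarith
  · exact h5

lemma word_cases (a : Bool) (w : List Bool) :
    w = List.replicate w.length a ∨ ∃ i v, w = List.replicate i a ++ (!a) :: v := by
  induction w with
  | nil => left; rfl
  | cons b w ih =>
    by_cases hb : b = a
    · subst hb
      rcases ih with h | ⟨i, v, h⟩
      · left
        rw [List.length_cons, List.replicate_succ]
        rw [← h]
      · right
        exact ⟨i + 1, v, by rw [h, List.replicate_succ, List.cons_append]⟩
    · right
      refine ⟨0, w, ?_⟩
      have : b = !a := by cases a <;> cases b <;> simp_all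
      simp [this]

lemma lie_ends {g : QX} (hg : g ∈ LieX) (a : Bool)
    (h : ∀ w, coeff g ((!a) :: (w ++ [a])) = 0) (w : List Bool) (hw : w ≠ []) :
    coeff g (w ++ [a]) = 0 := by
  rcases word_cases a w with h1 | ⟨i, v, h1⟩
  · obtain ⟨n, hn⟩ : ∃ n, w.length = n + 1 := by
      cases w with
      | nil => exact absurd rfl hw
      | cons b w => exact ⟨w.length, rfl⟩
    rw [h1, hn]
    have := lie_power hg a n
    rw [← this]
    congr 1
    exact List.replicate_succ'.symm
  · rw [h1]
    have := lie_ends_step hg a h i v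
    simpa using this

/-- A Lie element whose coefficients vanish on the words starting with `x₀` and ending with
`x₁` is linear. -/
lemma lie_mixed {g : QX} (hg : g ∈ LieX)
    (h : ∀ w, coeff g (false :: (w ++ [true])) = 0) (w : List Bool) (hw : 2 ≤ w.length) :
    coeff g w = 0 := by
  have h1 : ∀ w, w ≠ [] → coeff g (w ++ [true]) = 0 := fun w hw => lie_ends hg true h w hw
  have h2 : ∀ w, coeff g ((!false) :: (w ++ [false])) = 0 := by
    intro w
    have h3 := lie_reverse hg ((!false) :: (w ++ [false]))
    have h4 : ((!false) :: (w ++ [false])).reverse = (false :: w.reverse) ++ [true] := by simp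
    rw [h4, h1 _ (by simp)] at h3
    have h5 : ((-1 : ℚ) ^ (((!false) :: (w ++ [false])).length + 1)) ≠ 0 :=
      pow_ne_zero _ (by norm_num)
    rcases mul_eq_zero.mp h3.symm with h6 | h6
    · exact absurd h6 h5
    · exact h6
  rcases List.eq_nil_or_concat w with h3 | ⟨v, b, h3⟩
  · subst h3; simp at hw
  · rw [List.concat_eq_append] at h3
    subst h3
    have hv : v ≠ [] := by
      rintro rfl
      simp at hw
    cases b
    · exact lie_ends hg false h2 v hv
    · exact h1 v hv

/-- The automorphism `x₀ ↦ x₀`, `x₁ ↦ x₀ + x₁`. -/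
noncomputable def thX : QX →ₐ[ℚ] QX :=
  FreeAlgebra.lift ℚ fun b : Bool => if b then X0 + X1 else X0

/-- Its inverse. -/
noncomputable def thX' : QX →ₐ[ℚ] QX :=
  FreeAlgebra.lift ℚ fun b : Bool => if b then X1 - X0 else X0

lemma thX_X0 : thX X0 = X0 := by simp [thX]

lemma thX_X1 : thX X1 = X0 + X1 := by simp [thX]

lemma thX_inv (u : QX) : thX' (thX u) = u := by
  have : thX'.comp thX = AlgHom.id ℚ QX := by
    apply FreeAlgebra.hom_ext
    funext b
    cases b
    · change thX' (thX X0) = X0
      rw [thX_X0]; simp [thX']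
    · change thX' (thX X1) = X1
      rw [thX_X1, map_add]; simp [thX']
  exact AlgHom.congr_fun this u

/-- The two-term relation. -/
theorem two_term {ψ : QX} (h : ψ ∈ dm0) :
    (X0 * ψ - ψ * X0) + ((X1 - X0) * shiftX ψ - shiftX ψ * (X1 - X0)) = 0 := by
  have hL : ψ ∈ LieX := h.1
  obtain ⟨c, R0, R1, hd⟩ := right_decomp ψ
  have hc : c = 0 := by
    have h1 := (lie_ins hL).1
    rw [hd, coeff_add, coeff_add, coeff_mul_iota_nil, coeff_mul_iota_nil, coeff_const] at h1
    simpa using h1
  subst hc
  have hA := A_R1 h hd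
  rw [map_zero, zero_add] at hd
  rw [anti_gA] at hA
  -- notation: `L_i = S(R_i)`
  have hL0 : ψ = X0 * SS R0 + X1 * SS R1 := by
    have h1 := SS_lie hL
    conv_lhs at h1 => rw [hd]
    rw [map_add, SS_mul, SS_mul, SS_X0, SS_X1] at h1
    rw [← neg_neg ψ, ← h1]
    noncomm_ring
  have hsL : shiftX (SS R1) = R1 := hA
  have hsR : shiftX R1 = SS R1 := by
    conv_lhs => rw [← hsL]
    exact shiftX_shiftX _
  set s := shiftX ψ with hs
  have hs1 : s = shiftX R0 * (X1 - X0) + SS R1 * X1 := by
    rw [hs]
    conv_lhs => rw [hd]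
    rw [map_add, map_mul, map_mul, shiftX_X0, shiftX_X1, hsR]
  have hs2 : s = (X1 - X0) * shiftX (SS R0) + X1 * R1 := by
    rw [hs]
    conv_lhs => rw [hL0]
    rw [map_add, map_mul, map_mul, shiftX_X0, shiftX_X1, hsL]
  set G := (X0 * ψ - ψ * X0) + ((X1 - X0) * s - s * (X1 - X0)) with hG
  set Y := SS R1 - R1 + shiftX R0 - shiftX (SS R0) with hY
  set W := X0 * R0 - ψ - (X1 - X0) * shiftX R0 + s with hW
  have hG1 : G = W * X0 + (X1 - X0) * Y * X1 := by
    have e1 : G = X0 * (R0 * X0 + R1 * X1) - ψ * X0 +
        (X1 - X0) * (shiftX R0 * (X1 - X0) + SS R1 * X1) + s * X0 -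
        ((X1 - X0) * shiftX (SS R0) + X1 * R1) * X1 := by
      rw [← hs1, ← hd, ← hs2, hG]
      noncomm_ring
    rw [e1, hW, hY]
    noncomm_ring
  have hsG : shiftX G = G := by
    rw [hG]
    simp only [map_add, map_sub, map_mul, shiftX_X0, shiftX_X1]
    rw [hs, shiftX_shiftX, ← hs]
    noncomm_ring
  have hsW : shiftX W = -W := by
    rw [hW]
    simp only [map_add, map_sub, map_mul, shiftX_X0, shiftX_X1]
    rw [hs, shiftX_shiftX, shiftX_shiftX, ← hs]
    noncomm_ring
  have hX1 : (X1 : QX) ≠ 0 := by
    intro h11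
    have := coeff_iota true [true]
    rw [show FreeAlgebra.ι ℚ true = X1 from rfl, h11, coeff_zero] at this
    simp at this
  have hW2 : W = X0 * shiftX Y - (X1 - X0) * Y := by
    have e1 : G = -W * (X1 - X0) + X0 * shiftX Y * X1 := by
      rw [← hsW, ← hsG]
      conv_lhs => rw [hG1]
      simp only [map_add, map_sub, map_mul, shiftX_X0, shiftX_X1]
      noncomm_ring
    have e2 : (W + (X1 - X0) * Y - X0 * shiftX Y) * X1 = 0 := by
      have e3 : (W + (X1 - X0) * Y - X0 * shiftX Y) * X1 =
          (W * X0 + (X1 - X0) * Y * X1) - (-W * (X1 - X0) + X0 * shiftX Y * X1) := by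
        noncomm_ring
      rw [e3, ← e1, ← hG1, sub_self]
    rcases mul_eq_zero.mp e2 with h1 | h1
    · rw [sub_eq_zero] at h1
      rw [← h1]
      noncomm_ring
    · exact absurd h1 hX1
  have hG2 : G = X0 * shiftX Y * X0 + (X1 - X0) * Y * (X1 - X0) := by
    rw [hG1, hW2]
    noncomm_ring
  have hGL : G ∈ LieX := by
    have hz : (X1 - X0 : QX) ∈ LieX := sub_mem (iota_mem true) (iota_mem false)
    have hsLie : s ∈ LieX := by
      rw [hs]
      apply hom_lie _ _ hL
      intro b
      cases b
      · change shiftX X0 ∈ LieX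
        rw [shiftX_X0]; exact hz
      · change shiftX X1 ∈ LieX
        rw [shiftX_X1]; exact iota_mem true
    rw [hG]
    exact add_mem (LieX.lie_mem (iota_mem false) hL) (LieX.lie_mem hz hsLie)
  have hT : thX G ∈ LieX := by
    apply hom_lie _ _ hGL
    intro b
    cases b
    · change thX X0 ∈ LieX
      rw [thX_X0]; exact iota_mem false
    · change thX X1 ∈ LieX
      rw [thX_X1]; exact add_mem (iota_mem false) (iota_mem true)
  have hT2 : thX G = X0 * (thX (shiftX Y) * X0) + X1 * (thX Y * X1) := by
    rw [hG2]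
    simp only [map_add, map_sub, map_mul, thX_X0, thX_X1]
    noncomm_ring
  have hT0 : thX G = 0 := by
    apply ext_coeff
    intro w
    rw [coeff_zero]
    by_cases hw : 2 ≤ w.length
    · apply lie_mixed hT _ w hw
      intro v
      rw [hT2, coeff_add, coeff_iota_mul_cons, coeff_iota_mul_cons, coeff_mul_iota_snoc]
      simp
    · cases w with
      | nil => exact (lie_ins hT).1
      | cons b w =>
        cases w with
        | nil =>
          rw [hT2, coeff_add, coeff_iota_mul_cons, coeff_iota_mul_cons, coeff_mul_iota_nil,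
            coeff_mul_iota_nil]
          simp
        | cons d w => simp at hw
  have := thX_inv G
  rw [hT0, map_zero] at this
  exact this.symm

end Pool.Agent.MP_a57f33_nt
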