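import Pool.Agent.Lib.MP_a57f33_nt.Antipode
import Pool.Agent.Lib.MP_a57f33_nt.DepthOne

/-!
The relation `A(R₁) = R₁` for `ψ = R₀ x₀ + R₁ x₁` in `dm₀`.
-/

namespace Pool.Agent.MP_a57f33_nt

open TensorProduct

lemma coeff_mul_iota_nil (a : Bool) (q : QX) : coeff (q * FreeAlgebra.ι ℚ a) [] = 0 := by
  have : (coeffL ([] : List Bool)).comp (LinearMap.mulRight ℚ (FreeAlgebra.ι ℚ a)) = 0 := by
    apply linear_ext
    intro w
    have e : word w * FreeAlgebra.ι ℚ a = word (w ++ [a]) := by rw [word_append]; simp
    simp only [LinearMap.comp_apply, LinearMap.mulRight_apply, LinearMap.zero_apply,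
      coeffL_apply, e, coeff_word]
    simp
  exact LinearMap.congr_fun this q

lemma coeff_mul_iota_snoc (a b : Bool) (q : QX) (u : List Bool) :
    coeff (q * FreeAlgebra.ι ℚ a) (u ++ [b]) = if b = a then coeff q u else 0 := by
  have : (coeffL (u ++ [b])).comp (LinearMap.mulRight ℚ (FreeAlgebra.ι ℚ a)) =
      (if b = a then (1 : ℚ) else 0) • coeffL u := by
    apply linear_ext
    intro w
    have e : word w * FreeAlgebra.ι ℚ a = word (w ++ [a]) := by rw [word_append]; simp
    simp only [LinearMap.comp_apply, LinearMap.mulRight_apply, LinearMap.smul_apply,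
      coeffL_apply, e, coeff_word]
    by_cases h : b = a
    · subst h; simp
    · have h' : ¬ a = b := fun e => h e.symm
      simp [h, h']
  have h2 := LinearMap.congr_fun this q
  simp only [LinearMap.comp_apply, LinearMap.mulRight_apply, LinearMap.smul_apply,
      coeffL_apply] at h2
  rw [h2]
  split_ifs <;> simp

lemma coeff_const (c : ℚ) (w : List Bool) :
    coeff (algebraMap ℚ QX c) w = if w = [] then c else 0 := by
  have : algebraMap ℚ QX c = c • word ([] : List Bool) := by
    rw [word_nil, Algebra.algebraMap_eq_smul_one]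
  rw [this, coeff_smul, coeff_word]
  by_cases h : w = []
  · simp [h]
  · have h' : ¬ [] = w := fun e => h e.symm
    simp [h, h']

lemma right_decomp (u : QX) :
    ∃ (c : ℚ) (R0 R1 : QX), u = algebraMap ℚ QX c + R0 * X0 + R1 * X1 := by
  refine FreeAlgebra.induction ℚ Bool (motive := fun u =>
    ∃ (c : ℚ) (R0 R1 : QX), u = algebraMap ℚ QX c + R0 * X0 + R1 * X1) ?_ ?_ ?_ ?_ u
  · intro r
    exact ⟨r, 0, 0, by simp⟩
  · intro b
    cases b
    · exact ⟨0, 1, 0, by simp⟩
    · exact ⟨0, 0, 1, by simp⟩
  · rintro x y ⟨c, R0, R1, hx⟩ ⟨d, S0, S1, hy⟩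
    refine ⟨c * d, algebraMap ℚ QX d * R0 + x * S0, algebraMap ℚ QX d * R1 + x * S1, ?_⟩
    have hc : x * algebraMap ℚ QX d = algebraMap ℚ QX d * x := (Algebra.commutes d x).symm
    calc x * y = x * algebraMap ℚ QX d + x * S0 * X0 + x * S1 * X1 := by rw [hy]; noncomm_ring
      _ = algebraMap ℚ QX d * (algebraMap ℚ QX c + R0 * X0 + R1 * X1) + x * S0 * X0
          + x * S1 * X1 := by rw [hc, ← hx]
      _ = _ := by
        rw [map_mul, Algebra.commutes c (algebraMap ℚ QX d)]
        noncomm_ring
  · rintro x y ⟨c, R0, R1, hx⟩ ⟨d, S0, S1, hy⟩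
    refine ⟨c + d, R0 + S0, R1 + S1, ?_⟩
    rw [hx, hy, map_add]
    noncomm_ring

/-- The coefficient of `A(u)` in terms of the coefficients of `u`. -/
def cA : List Bool → (List Bool → ℚ) → ℚ
  | [], f => f []
  | false :: w, f => cA w (fun t => f (t ++ [false]))
  | true :: w, f => -(cA w (fun t => f (t ++ [false]))) - cA w (fun t => f (t ++ [true]))

lemma coeff_A (w : List Bool) : ∀ u : QX, coeff (anti gA u) w = cA w (coeff u) := by
  have alg : ∀ c : ℚ, anti gA (algebraMap ℚ QX c) = algebraMap ℚ QX c := by
    intro c
    rw [Algebra.algebraMap_eq_smul_one, map_smul, anti_one]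
  have key : ∀ (c : ℚ) (R0 R1 : QX), anti gA (algebraMap ℚ QX c + R0 * X0 + R1 * X1) =
      algebraMap ℚ QX c + X0 * anti gA R0 - X1 * (anti gA R0 + anti gA R1) := by
    intro c R0 R1
    rw [map_add, map_add, anti_mul, anti_mul, anti_iota, anti_iota, alg]
    simp only [gA]
    simp only [Bool.false_eq_true, if_false, if_true]
    noncomm_ring
  induction w with
  | nil =>
    intro u
    obtain ⟨c, R0, R1, rfl⟩ := right_decomp u
    rw [key]
    simp only [cA, coeff_add, coeff_sub, coeff_iota_mul_nil, coeff_mul_iota_nil, coeff_const]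
    simp
  | cons b w ih =>
    intro u
    obtain ⟨c, R0, R1, rfl⟩ := right_decomp u
    have h0 : (fun t => coeff (algebraMap ℚ QX c + R0 * X0 + R1 * X1) (t ++ [false])) =
        coeff R0 := by
      funext t
      simp [coeff_add, coeff_const, coeff_mul_iota_snoc]
    have h1 : (fun t => coeff (algebraMap ℚ QX c + R0 * X0 + R1 * X1) (t ++ [true])) =
        coeff R1 := by
      funext t
      simp [coeff_add, coeff_const, coeff_mul_iota_snoc]
    rw [key]
    cases b
    · simp only [cA]
      rw [h0, ← ih R0]
      simp [coeff_add, coeff_sub, coeff_const, coeff_iota_mul_cons]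
    · simp only [cA]
      rw [h0, h1, ← ih R0, ← ih R1]
      simp [coeff_add, coeff_sub, coeff_const, coeff_iota_mul_cons]
      ring

lemma cA_zero_fun (w : List Bool) : cA w (fun _ => 0) = 0 := by
  induction w with
  | nil => rfl
  | cons b w ih => cases b <;> simp [cA, ih]

lemma cA_zero (w : List Bool) : ∀ f : List Bool → ℚ, (∀ t, false ∈ t → f t = 0) →
    false ∈ w → cA w f = 0 := by
  induction w with
  | nil => intro f _ h; simp at h
  | cons b w ih =>
    intro f hf hw
    cases b
    · simp only [cA]
      have : (fun t => f (t ++ [false])) = fun _ => 0 := by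
        funext t; exact hf _ (by simp)
      rw [this, cA_zero_fun]
    · simp only [cA]
      have : (fun t => f (t ++ [false])) = fun _ => 0 := by
        funext t; exact hf _ (by simp)
      have hw' : false ∈ w := by simpa using hw
      rw [this, cA_zero_fun, ih (fun t => f (t ++ [true])) (fun t ht => hf _ (by simp [ht])) hw']
      simp

lemma toX_injective : Function.Injective toX := by
  intro u
  induction u with
  | nil =>
    intro v h
    cases v with
    | nil => rfl
    | cons m v => simp [toX] at h
  | cons n u ih =>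
    intro v h
    cases v with
    | nil => simp [toX] at h
    | cons m v =>
      simp only [toX] at h
      have key : ∀ (a b : ℕ) (s t : List Bool),
          List.replicate a false ++ true :: s = List.replicate b false ++ true :: t →
          a = b ∧ s = t := by
        intro a
        induction a with
        | zero =>
          intro b s t h
          cases b with
          | zero => simpa using h
          | succ b => simp [List.replicate_succ] at h
        | succ a iha =>
          intro b s t h
          cases b with
          | zero => simp [List.replicate_succ] at h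
          | succ b =>
            simp only [List.replicate_succ, List.cons_append, List.cons.injEq, true_and] at h
            obtain ⟨h1, h2⟩ := iha b s t h
            exact ⟨by rw [h1], h2⟩
      obtain ⟨h1, h2⟩ := key _ _ _ _ h
      have hn : n = m := by
        apply PNat.eq
        have := n.pos
        have := m.pos
        omega
      rw [hn, ih h2]

lemma inY_word (u : List ℕ+) : inY (word u) = word (toX u) := by
  induction u with
  | nil => simp [toX]
  | cons n u ih =>
    rw [word_cons, map_mul, ih, inY_iota]
    simp only [toX]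
    rw [word_append, word_cons]
    have : ∀ k : ℕ, word (List.replicate k false) = X0 ^ k := by
      intro k
      induction k with
      | zero => simp
      | succ k ih => rw [List.replicate_succ, word_cons, ih, pow_succ']
    rw [this]
    noncomm_ring

lemma coeff_inY (q : QY) (u : List ℕ+) : coeff (inY q) (toX u) = coeff q u := by
  have : (coeffL (toX u)).comp inY.toLinearMap = coeffL u := by
    apply linear_ext
    intro w
    simp only [LinearMap.comp_apply, AlgHom.toLinearMap_apply, coeffL_apply, inY_word,
      coeff_word, toX_injective.eq_iff]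
  exact LinearMap.congr_fun this q

lemma coeff_inY_false (q : QY) (w : List Bool) : coeff (inY q) (w ++ [false]) = 0 := by
  have : (coeffL (w ++ [false])).comp inY.toLinearMap = 0 := by
    apply linear_ext
    intro v
    simp only [LinearMap.comp_apply, AlgHom.toLinearMap_apply, coeffL_apply, inY_word,
      coeff_word, LinearMap.zero_apply]
    rw [if_neg]
    intro e
    by_cases hv : v = []
    · subst hv
      simp [toX] at e
    · obtain ⟨t, ht⟩ := toX_ends v hv
      rw [ht] at e
      have := congrArg List.getLast? e
      simp at this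
  exact LinearMap.congr_fun this q

lemma cA_zs (j : ℕ) : ∀ (w : List Bool) (f : List Bool → ℚ),
    cA (zs j ++ w) f = cA w (fun t => f (t ++ zs j)) := by
  induction j with
  | zero => intro w f; simp
  | succ j ih =>
    intro w f
    rw [show zs (j + 1) ++ w = false :: (zs j ++ w) by
      rw [zs, List.replicate_succ, List.cons_append]]
    simp only [cA]
    rw [ih]
    congr 1
    funext t
    rw [List.append_assoc]
    congr 2
    exact List.replicate_succ'.symm

lemma cA_zs' (j : ℕ) (f : List Bool → ℚ) : cA (zs j) f = f (zs j) := by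
  have := cA_zs j [] f
  rw [List.append_nil] at this
  rw [this]
  simp [cA]

lemma ins_true_zs (k : ℕ) (w : List Bool) : ∀ f : List Bool → ℚ,
    ins true (zs k ++ w) f =
      ∑ j ∈ Finset.range k, f (zs j ++ true :: zs (k - j) ++ w) +
        ins true w (fun t => f (zs k ++ t)) := by
  induction k with
  | zero => intro f; simp
  | succ k ih =>
    intro f
    rw [show zs (k + 1) ++ w = false :: (zs k ++ w) by
      rw [zs, List.replicate_succ, List.cons_append]]
    simp only [ins]
    rw [ih, Finset.sum_range_succ']
    have e1 : ∀ j ∈ Finset.range k, f (false :: (zs j ++ true :: zs (k - j) ++ w)) =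
        f (zs (j + 1) ++ true :: zs (k + 1 - (j + 1)) ++ w) := by
      intro j _
      rw [show k + 1 - (j + 1) = k - j by omega]
      simp [zs, List.replicate_succ]
    rw [Finset.sum_congr rfl e1]
    have e2 : (fun t => f (false :: (zs k ++ t))) = fun t => f (zs (k + 1) ++ t) := by
      funext t; simp [zs, List.replicate_succ]
    rw [e2]
    have e3 : true :: false :: (zs k ++ w) = zs 0 ++ true :: zs (k + 1 - 0) ++ w := by
      simp [zs, List.replicate_succ]
    rw [e3]
    ring

/-- The depth one coefficients vanish in even weight, given the antipode relation off the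
powers of `x₁`. -/
lemma al_zero {ψ R0 R1 : QX} {c : ℚ} (h : ψ ∈ LieX)
    (hd : ψ = algebraMap ℚ QX c + R0 * X0 + R1 * X1)
    (hA : ∀ w, false ∈ w → coeff (anti gA R1) w = coeff R1 w) (k : ℕ) (hk : Even k)
    (hk1 : k ≠ 0) : coeff ψ (zs (k + 1) ++ [true]) = 0 := by
  have hR1 : ∀ t, coeff R1 t = coeff ψ (t ++ [true]) := by
    intro t
    rw [hd]
    simp [coeff_add, coeff_const, coeff_mul_iota_snoc]
  set α := coeff ψ (zs (k + 1) ++ [true]) with hα
  set β : ℕ → ℚ := fun j => coeff ψ (zs j ++ true :: zs (k - j) ++ [true]) with hβ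
  have rel : ∀ j ∈ Finset.range (k + 1), -α - β (k - j) = β j := by
    intro j hj
    rw [Finset.mem_range] at hj
    have hmem : false ∈ zs j ++ true :: zs (k - j) := by
      rcases Nat.eq_zero_or_pos j with h0 | h0
      · subst h0
        simp [zs, hk1]
      · have : j ≠ 0 := by omega
        simp [zs, this]
    have h1 := hA _ hmem
    rw [coeff_A, cA_zs] at h1
    simp only [cA] at h1
    rw [cA_zs', cA_zs', hR1, hR1, hR1] at h1
    have e1 : zs (k - j) ++ [false] ++ zs j ++ [true] = zs (k + 1) ++ [true] := by
      congr 1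
      have : k + 1 = (k - j) + 1 + j := by omega
      rw [this, zs, zs, zs, List.replicate_add, List.replicate_add]
      simp
    have e2 : zs (k - j) ++ [true] ++ zs j ++ [true] =
        zs (k - j) ++ true :: zs (k - (k - j)) ++ [true] := by
      rw [show k - (k - j) = j by omega]
      simp
    rw [e1, e2] at h1
    rw [hα, hβ]
    exact h1
  have hsum : -((k : ℚ) + 1) * α = 2 * ∑ j ∈ Finset.range (k + 1), β j := by
    have h1 : ∑ j ∈ Finset.range (k + 1), β (k - j) = ∑ j ∈ Finset.range (k + 1), β j := by
      rw [← Finset.sum_range_reflect β (k + 1)]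
      apply Finset.sum_congr rfl
      intro j _
      congr 1
    have h2 : ∑ j ∈ Finset.range (k + 1), (-α - β (k - j)) =
        ∑ j ∈ Finset.range (k + 1), β j := Finset.sum_congr rfl rel
    rw [Finset.sum_sub_distrib, h1, Finset.sum_const, Finset.card_range, nsmul_eq_mul] at h2
    push_cast at h2
    linarith
  have hlie : ∑ j ∈ Finset.range (k + 1), β j + β k = 0 := by
    have h1 := (lie_ins h).2 true (zs k ++ [true]) (by simp)
    rw [ins_true_zs] at h1
    simp only [ins] at h1
    rw [Finset.sum_range_succ]
    have e : β k = coeff ψ (zs k ++ [true, true]) := by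
      rw [hβ]; simp
    have e' : ∑ j ∈ Finset.range k, β j =
        ∑ j ∈ Finset.range k, coeff ψ (zs j ++ true :: zs (k - j) ++ [true]) := rfl
    rw [e', e]
    linarith
  have hβ0 : β 0 = 0 := by
    have h1 := lie_reverse h (zs 0 ++ true :: zs (k - 0) ++ [true])
    have e : (zs 0 ++ true :: zs (k - 0) ++ [true]).reverse =
        zs 0 ++ true :: zs (k - 0) ++ [true] := by
      simp [zs]
    rw [e] at h1
    have e2 : (zs 0 ++ true :: zs (k - 0) ++ [true]).length + 1 = k + 3 := by simp [zs]
    rw [e2] at h1
    have e3 : ((-1 : ℚ)) ^ (k + 3) = -1 := by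
      apply Odd.neg_one_pow
      exact hk.add_odd (by decide)
    rw [e3] at h1
    have : β 0 = -1 * β 0 := h1
    linarith
  have hβk : β k = -α := by
    have h1 := rel 0 (by simp)
    rw [Nat.sub_zero, hβ0] at h1
    linarith
  have : ((k : ℚ) + 3) * α = 0 := by
    have : ∑ j ∈ Finset.range (k + 1), β j = α := by linarith
    rw [this] at hsum
    linarith
  rcases mul_eq_zero.mp this with h1 | h1
  · exfalso
    have : (0 : ℚ) ≤ k := Nat.cast_nonneg k
    linarith
  · exact h1

/-- The correction part of `ψ_*`. -/
lemma corr_coeff {ψ R0 R1 : QX} {c : ℚ} {p : QY} (hc : ∀ u, coeff p u = starCoeff ψ u)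
    (hd : ψ = algebraMap ℚ QX c + R0 * X0 + R1 * X1) (h0 : coeff ψ [] = 0) (t : List Bool)
    (ht : coeff (inY p - R1 * X1) t ≠ 0) :
    2 ≤ t.length ∧ t = List.replicate t.length true ∧
      coeff ψ (zs (t.length - 1) ++ [true]) ≠ 0 := by
  rcases List.eq_nil_or_concat t with h1 | ⟨w, b, h1⟩
  · exfalso
    apply ht
    subst h1
    rw [coeff_sub, coeff_mul_iota_nil]
    have : coeff (inY p) (toX []) = starCoeff ψ [] := by rw [coeff_inY, hc]
    simp only [toX] at this
    rw [this]
    simp [starCoeff, toX, h0]
  · rw [List.concat_eq_append] at h1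
    subst h1
    cases b
    · exfalso
      apply ht
      rw [coeff_sub, coeff_inY_false, coeff_mul_iota_snoc]
      simp
    · obtain ⟨u, hu, hu2⟩ := exists_toX w
      have e1 : coeff (inY p) (w ++ [true]) = starCoeff ψ u := by
        rw [← hu2, coeff_inY, hc]
      have e2 : coeff (R1 * X1) (w ++ [true]) = coeff ψ (w ++ [true]) := by
        rw [hd]
        simp [coeff_add, coeff_const, coeff_mul_iota_snoc]
      rw [coeff_sub, e1, e2] at ht
      unfold starCoeff at ht
      rw [hu2] at ht
      by_cases hcond : 2 ≤ u.length ∧ u = List.replicate u.length 1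
      · rw [if_pos hcond] at ht
        obtain ⟨hl, hrep⟩ := hcond
        have e3 : w ++ [true] = List.replicate u.length true := by
          rw [← hu2, hrep, toX_replicate, List.length_replicate]
        have e4 : (w ++ [true]).length = u.length := by rw [e3, List.length_replicate]
        rw [e4]
        refine ⟨hl, e3, ?_⟩
        intro h5
        apply ht
        rw [show (List.replicate (u.length - 1) false : List Bool) = zs (u.length - 1) from rfl,
          h5]
        ring
      · exfalso
        apply ht
        rw [if_neg hcond]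
        ring

/-- `A(R₁) = R₁`. -/
lemma A_R1 {ψ : QX} (h : ψ ∈ dm0) {R0 R1 : QX} {c : ℚ}
    (hd : ψ = algebraMap ℚ QX c + R0 * X0 + R1 * X1) : anti gA R1 = R1 := by
  obtain ⟨hL, h1, h2, h3, p, hc, hp⟩ := h
  have h0 : coeff ψ [] = 0 := (lie_ins hL).1
  have hp0 : coeff p [] = 0 := by rw [hc]; simp [starCoeff, toX, h0]
  have hS := antipode_X hp hp0
  set C := inY p - R1 * X1 with hC
  have hQ : inY p = R1 * X1 + C := by rw [hC]; noncomm_ring
  have corr := corr_coeff hc hd h0
  rw [← hC] at corr
  have hCf : ∀ t, false ∈ t → coeff C t = 0 := by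
    intro t ht
    by_contra hne
    have h4 := (corr t hne).2.1
    rw [h4] at ht
    simp at ht
  -- the relation
  have hrel : X1 * (anti gA R1 - R1) * X1 = anti gA C * X1 + X1 * C := by
    rw [hQ, map_add, anti_mul, anti_iota] at hS
    have : gA true = -X1 := rfl
    rw [this] at hS
    have e : (-X1 * anti gA R1 + anti gA C) * X1 = -(X1 * (R1 * X1 + C)) := hS
    have e2 : X1 * (anti gA R1 - R1) * X1 - (anti gA C * X1 + X1 * C) =
        -((-X1 * anti gA R1 + anti gA C) * X1) + -(X1 * (R1 * X1 + C)) := by
      noncomm_ring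
    rw [e] at e2
    rw [← sub_eq_zero, e2]
    noncomm_ring
  have hA : ∀ w, false ∈ w → coeff (anti gA R1) w = coeff R1 w := by
    intro w hw
    have h4 : coeff (X1 * (anti gA R1 - R1) * X1) (true :: (w ++ [true])) =
        coeff (anti gA C * X1 + X1 * C) (true :: (w ++ [true])) := by rw [hrel]
    rw [mul_assoc, coeff_iota_mul_cons, if_pos rfl, coeff_mul_iota_snoc, if_pos rfl, coeff_sub,
      coeff_add, coeff_iota_mul_cons, if_pos rfl, hCf (w ++ [true]) (by simp [hw])] at h4
    have h5 : coeff (anti gA C * X1) (true :: (w ++ [true])) = 0 := by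
      rw [show true :: (w ++ [true]) = (true :: w) ++ [true] by simp, coeff_mul_iota_snoc,
        if_pos rfl, coeff_A]
      exact cA_zero _ _ hCf (by simp [hw])
    rw [h5] at h4
    linarith
  -- the correction is odd
  have hodd : ∀ t, coeff C t ≠ 0 → t = List.replicate t.length true ∧ Odd t.length := by
    intro t ht
    obtain ⟨h4, h5, h6⟩ := corr t ht
    refine ⟨h5, ?_⟩
    by_contra hodd
    rw [Nat.not_odd_iff_even] at hodd
    apply h6
    by_cases h7 : t.length = 2
    · rw [h7]
      exact h3
    · obtain ⟨k, hk⟩ : ∃ k, t.length = k + 2 := ⟨t.length - 2, by omega⟩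
      have hk0 : k ≠ 0 := by omega
      have hke : Even k := by
        rw [hk] at hodd
        exact (Nat.even_add.mp hodd).mpr (by decide)
      have := al_zero hL hd hA k hke hk0
      rw [hk]
      exact this
  have hCC : anti gA C = -C ∧ X1 * C = C * X1 := by
    have hmem := (FreeAlgebra.basisFreeMonoid ℚ Bool).mem_span_repr_support C
    refine Submodule.span_induction (p := fun C _ => anti gA C = -C ∧ X1 * C = C * X1)
      ?_ ?_ ?_ ?_ hmem
    · rintro _ ⟨w, hw, rfl⟩
      have hw2 : coeff C w.toList ≠ 0 := by
        have := Finsupp.mem_support_iff.mp hw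
        exact this
      obtain ⟨h4, h5⟩ := hodd _ hw2
      have h6 : (FreeAlgebra.basisFreeMonoid ℚ Bool) w = X1 ^ w.toList.length := by
        have h7 := basis_apply (X := Bool) w.toList
        rw [FreeMonoid.ofList_toList] at h7
        rw [h7]
        have h8 : ∀ k : ℕ, word (List.replicate k true) = X1 ^ k := by
          intro k
          induction k with
          | zero => simp
          | succ k ih => rw [List.replicate_succ, word_cons, ih, pow_succ']
        conv_lhs => rw [h4]
        exact h8 _
      rw [h6]
      have h9 : ∀ k : ℕ, anti gA (X1 ^ k) = (-X1) ^ k := by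
        intro k
        induction k with
        | zero => simp [anti_one]
        | succ k ih => rw [pow_succ', anti_mul, ih, anti_iota, pow_succ]; rfl
      refine ⟨?_, ?_⟩
      · rw [h9, h5.neg_pow]
      · rw [← pow_succ, ← pow_succ']
    · simp
    · rintro x y _ _ ⟨hx1, hx2⟩ ⟨hy1, hy2⟩
      refine ⟨?_, ?_⟩
      · rw [map_add, hx1, hy1]; abel
      · rw [mul_add, add_mul, hx2, hy2]
    · rintro r x _ ⟨hx1, hx2⟩
      refine ⟨?_, ?_⟩
      · rw [map_smul, hx1, smul_neg]
      · rw [mul_smul_comm, smul_mul_assoc, hx2]
  rw [hCC.1, hCC.2] at hrel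
  have h10 : X1 * (anti gA R1 - R1) * X1 = 0 := by
    rw [hrel]; noncomm_ring
  have hX1 : (X1 : QX) ≠ 0 := by
    intro h11
    have := coeff_iota true [true]
    rw [show FreeAlgebra.ι ℚ true = X1 from rfl, h11, coeff_zero] at this
    simp at this
  rcases mul_eq_zero.mp h10 with h12 | h12
  · rcases mul_eq_zero.mp h12 with h13 | h13
    · exact absurd h13 hX1
    · exact sub_eq_zero.mp h13
  · exact absurd h12 hX1

end Pool.Agent.MP_a57f33_nt
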